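import Pool.Agent.Helper25.KG.Cfg3

set_option autoImplicit false

/-!
# Class data: `u` with a given abscissa form
-/

noncomputable section

namespace Helper25.KG

open Helper11.CT

/-- `u` with abscissa `xf`: variables `1 a b c p J X r ru | D i iu` -/
def dX (ds : ℤ) (xf : List ℤ) : Cls where
  nI := 9
  ds := ds
  P := [0, 0, 0, 0, 1]
  D := [0, 0, 0, 0, 0, 0, 0, 0, 0, 1]
  A := [0, 1]
  B := [0, 0, 1]
  C := [0, 0, 0, 1]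
  J := [0, 0, 0, 0, 0, 1]
  gI := [[0, 0, 0, 0, 0, 0, 0, 0, 0, 1], [0, 0, 0, 0, 0, 1], [0, 0, 0, 0, 0, 0, 0, 0, 0, 0, 1], [0, 0, 0, 0, 0, 0, 0, 0, 0, 0, 0, 1]]
  gX := [[], [0, 0, -1, 0, 0, Int.neg ds], [0, 0, 0, 0, 0, 0, 1], xf]
  gR := [[], [0, 0, 1, 1], [0, 0, 0, 0, 0, 0, 0, 1], [0, 0, 0, 0, 0, 0, 0, 0, 1]]
  known := [[1], [0, 1], [1, 1], [-1, 1], [0, 0, 1]]
  kf := []

end Helper25.KG
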