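import Pool.Agent.Helper25.KG.S1b
import Pool.Agent.Helper11.Y.CfgX

set_option autoImplicit false
set_option linter.unusedSectionVars false
set_option linter.unusedVariables false
set_option linter.unusedSimpArgs false

/-!
# The class of `u` with a given abscissa form
-/

noncomputable section

namespace Helper25.KG

open Helper25.KW Helper55.KE Helper11.CT

section

variable {p a b c J ds l q : ℤ} {D dl : ℝ} {Cl : ℤ → ℤ → ℤ → ℤ → ℝ → Prop}

/-- `u` with abscissa `xf`: variables `1 a b c p J X r ru | D i iu` -/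
def cX (ds : ℤ) (xf : List ℤ) (kf : List (ℕ × List (ℤ × ℤ × List ℤ))) : Cls where
  nI := 9
  ds := ds
  P := [0, 0, 0, 0, 1]
  D := [0, 0, 0, 0, 0, 0, 0, 0, 0, 1]
  A := [0, 1]
  B := [0, 0, 1]
  C := [0, 0, 0, 1]
  J := [0, 0, 0, 0, 0, 1]
  gI := [[0, 0, 0, 0, 0, 0, 0, 0, 0, 1], [0, 0, 0, 0, 0, 1], [0, 0, 0, 0, 0, 0, 0, 0, 0, 0, 1], [0, 0, 0, 0, 0, 0, 0, 0, 0, 0, 0, 1]]
  gX := [[], [0, 0, -1, 0, 0, Int.neg ds], [0, 0, 0, 0, 0, 0, 1], xf]
  gR := [[], [0, 0, 1, 1], [0, 0, 0, 0, 0, 0, 0, 1], [0, 0, 0, 0, 0, 0, 0, 0, 1]]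
  known := [[1], [0, 1], [1, 1], [-1, 1], [0, 0, 1]]
  kf := kf

theorem val_X (W : Base p a b c J ds l q D dl Cl) {N X R : ℤ} {I : ℝ}
    (hk : KCl p l Cl N X R I) {B Nu Ru : ℤ} {Iu : ℝ} {xf : List ℤ}
    (hu : UFac p B D Cl Nu Ru Iu)
    (hr : evg [1, a, b, c, p, J, X, R, Ru] xf = B)
    (hr2 : evg [1, (a : ℝ), (b : ℝ), (c : ℝ), (p : ℝ), (J : ℝ), (X : ℝ), (R : ℝ), (Ru : ℝ), D, I, Iu] xf = (evg [1, a, b, c, p, J, X, R, Ru] xf : ℤ))
    (kf : List (ℕ × List (ℤ × ℤ × List ℤ))) :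
    Val (cX ds xf kf) p a b c J ds l q D dl Cl [1, a, b, c, p, J, X, R, Ru] [D, I, Iu] [N, Nu] := by
  have hn : Int.neg ds = -ds := rfl
  have hl := W.hl
  have hlp := W.hlp
  have k1 := hk.N0
  have k2 := hk.Np
  have k3 := hk.nl
  have k4 := hk.npl
  have u1 := hu.N0
  have u2 := hu.Np
  refine Val.mk W ⟨_, rfl⟩ rfl rfl ?_ rfl ?_ rfl ?_ rfl ?_ rfl ?_ rfl ?_ ?_ ?_
  · simp [cX]
  · simp [cX]
  · simp [cX]
  · simp [cX]
  · simp [cX]
  · simp [cX]
  · have g1 := W.cp
    have g2 := W.cl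
    have g3 := hk.cl
    have g4 := hu.cl
    rw [← hr] at g4
    have e1 : -b - ds * J = -b + -(ds * J) := by ring
    rw [e1] at g2
    simp only [cX, GOk, List.length_cons, List.length_nil, List.replicate_succ,
      List.replicate_zero, evg_cons, evg_nil, List.map_cons, List.map_nil,
      List.cons_append, List.nil_append, hn]
    refine ⟨⟨?_, ?_, ?_⟩, ⟨?_, ?_, ?_⟩, ⟨?_, ?_, ?_⟩, ⟨?_, ?_, ?_⟩, trivial⟩ <;>
      simp only [Int.cast_zero, Int.cast_one, zero_mul, one_mul, mul_one, zero_add, add_zero,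
        Int.cast_neg, neg_mul, Int.cast_add, Int.cast_mul, Int.cast_id, add_comm c b] <;>
      first | exact g1 | (rw [add_comm c b] at g2; exact g2) | exact g3 | exact g4 | exact hr2
  · intro w hw
    simp only [cX, List.mem_cons, List.not_mem_nil, or_false] at hw
    rcases hw with rfl | rfl | rfl | rfl | rfl
    · simp only [evg_cons, evg_nil]
      simp only [Int.cast_zero, Int.cast_one, Int.cast_neg, Int.cast_ofNat, one_mul, neg_mul, zero_mul, zero_add, add_zero]
      exact nd_pos (by omega) hlp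
    · simp only [evg_cons, evg_nil]
      simp only [Int.cast_zero, Int.cast_one, Int.cast_neg, Int.cast_ofNat, one_mul, neg_mul, zero_mul, zero_add, add_zero]
      exact nd_pos k1 k2
    · simp only [evg_cons, evg_nil]
      simp only [Int.cast_zero, Int.cast_one, Int.cast_neg, Int.cast_ofNat, one_mul, neg_mul, zero_mul, zero_add, add_zero]
      intro h
      have h2 : p ∣ l + N - p := dvd_sub h (dvd_refl p)
      exact nd_abs (by omega) (by omega) (by omega) h2
    · simp only [evg_cons, evg_nil]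
      simp only [Int.cast_zero, Int.cast_one, Int.cast_neg, Int.cast_ofNat, one_mul, neg_mul, zero_mul, zero_add, add_zero]
      exact nd_abs (by omega) (by omega) (by omega)
    · simp only [evg_cons, evg_nil]
      simp only [Int.cast_zero, Int.cast_one, Int.cast_neg, Int.cast_ofNat, one_mul, neg_mul, zero_mul, zero_add, add_zero]
      exact nd_pos u1 u2

end

end Helper25.KG
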