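import Pool.Agent.Helper25.KG.C4
import Pool.Agent.Helper25.KG.C4d

set_option autoImplicit false
set_option linter.all false

namespace Helper11.Y.Zmp1Ca_r51

open Helper25.KG Helper11.CT

noncomputable def K : Cls :=
  dK 1

noncomputable def KFs : List KF3 :=
  [(3, bx3 ++ [(-1, 0, 0, [0,0,-1,0,0,0,0,0,1])]),
    (0, bx3 ++ [(-1, 0, 0, []), (-1, 0, 0, [0,0,-1,0,0,0,0,0,1])]),
    (0, bx3 ++ [(0, 0, -1, [0,0,0,0,0,-1,0,0,1]), (-1, 0, 0, [0,0,-1,0,0,0,0,0,1])])]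

noncomputable def base : List Con :=
  [(false,[0,0,-1,0,0,0,-2,0,1,-2]),
  (false,[0,0,0,0,0,0,-2,-1,1,-2]),
  (true,[0,0,-2,-1,0,0,0,-1]),
  (true,[0,0,-1,-1,0,0,0,-1]),
  (false,[0,0,0,0,0,0,2,2,-1,2]),
  (false,[0,1,0,1,0,0,2,1,-2,2]),
  (true,[1,0,-2,-1]),
  (false,[0,1,0,1,0,0,0,0,-1]),
  (false,[0,0,-2,0,1,0,1,0,-2,1]),
  (false,[0,-1,0,-1,0,0,-1,-1,2,-1]),
  (true,[0,-1,-2,-1,1]),
  (false,[0,1,0,0,0,0,-2,-2,1,-2]),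
  (true,[0,0,-1,-1,0,0,0,1]),
  (false,[0,1,0,1,0,0,0,1,-1]),
  (true,[0,0,0,-1,0,0,0,1]),
  (false,[0,0,0,0,0,0,1,1,0,1]),
  (false,[0,0,0,0,0,0,0,0,-1,2]),
  (false,[0,0,-1,0,0,0,-1,0,1,-1]),
  (false,[0,0,0,0,0,0,1,0,0,1]),
  (false,[0,0,0,0,0,1,0,0,-1,1]),
  (false,[0,0,0,0,0,1,0,0,0,-1]),
  (false,[0,1,0,0,0,0,1,1,0,1]),
  (false,[0,1,0,0,0,0,-1,-1,0,-1]),
  (false,[0,0,1,0,0,0,1,0,0,1]),
  (false,[0,0,1,0,0,0,-1,0,0,-1]),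
  (false,[0,0,0,0,0,0,0,0,1,-1]),
  (false,[0,0,0,0,0,0,0,0,0,1]),
  (false,[0,0,0,0,1,0,0,0,-2]),
  (false,[0,0,0,0,0,-1,0,0,1]),
  (true,[0,0,0,0,0,1]),
  (true,[0,2,-1]),
  (false,[0,0,2,0,0,0,0,0,-1]),
  (true,[0,1,-1,1]),
  (true,[0,1,0,1]),
  (true,[0,0,0,-1]),
  (true,[0,0,-2,0,1]),
  (true,[0,-2,0,0,1]),
  (true,[-1,0,1]),
  (true,[-1,1])]

noncomputable def t0 : Tre :=
  (.K ⟨0,[1,1,-2],0,0,(⟨0,[(20,0),(4,0)]⟩,⟨0,[(16,0),(11,0)]⟩),(.r (-1) ⟨0,[(7,0),(3,0),(6,0),(4,0),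
  (12,0)]⟩ ⟨1,[(0,0),(3,0),(7,0),(1,0)]⟩),(.r (-1) ⟨1,[(8,0),(2,1),(6,0),(4,1),(12,0)]⟩ ⟨2,[(0,1),
  (3,1),(10,1),(8,1)]⟩),(.r (-1) ⟨0,[(1,1),(5,1),(10,1),(4,1),(12,0)]⟩ ⟨0,[(12,1)]⟩),(.r (-1) ⟨3,
  [(1,4),(0,0),(4,4),(3,2),(6,15),(12,2),(4,3)]⟩ ⟨0,[(0,0),(3,0),(9,0)]⟩),.k,[⟨0,[(18,1),(12,0)]⟩,
  ⟨5,[(0,3),(8,0),(5,0),(8,3),(8,0)]⟩,⟨2,[(4,0),(0,0),(8,0),(6,1),(12,2)]⟩,⟨0,[(1,1),(5,0),(10,1)]⟩,
  ⟨0,[(18,1)]⟩]⟩)

theorem ok0 : chk4 K KFs t0 base = true := by decide +kernel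

open Helper25.KW Helper55.KE in
theorem closed {p a b c J l q : ℤ} {D dl : ℝ} {Cl : ℤ → ℤ → ℤ → ℤ → ℝ → Prop}
    (W : World p a b c J 1 l q D dl Cl) (g : G0 p a b c J D)
    {N X R : ℤ} {I : ℝ} (hk : KCl p l Cl N X R I) (kz : KF a b D (X + (1 : ℤ) * I) (X + (1 : ℤ) * I + R) I)
    (hU : KU p a b l 1 Cl (fun X R I => Zy b 1 D X R I) N)
    (hN0 : KNo p a b l 1 Cl (fun X R I => Zx 1 X R I ∧ Zy b 1 D X R I))
    (hN1 : KNo p a b l 1 Cl (fun X R I => ZiD D J X R I ∧ Zy b 1 D X R I))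
    (h0 : 1 ≤ -(c : ℝ))
    (h1 : 1 ≤ (a : ℝ) - (b : ℝ) + (c : ℝ))
    (h2 : 0 < 2 * (b : ℝ) - D)
    (h3 : 1 ≤ 2 * (a : ℝ) - (b : ℝ))
    (h4 : 0 < (J : ℝ) - I)
    (h5 : 0 < (J : ℝ) - D + I)
    (h6 : 0 < (X : ℝ) + I)
    (h7 : 0 < -(b : ℝ) - (X : ℝ) + D - I)
    (h8 : 0 < -D + 2 * I)
    (h9 : 0 < (X : ℝ) + (R : ℝ) + I)
    (h10 : 1 ≤ -(c : ℝ) + (R : ℝ))
    (h11 : 0 < (a : ℝ) + (c : ℝ) + (R : ℝ) - D)
    (h12 : 1 ≤ -(b : ℝ) - (c : ℝ) + (R : ℝ))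
    (h13 : 0 < (a : ℝ) - 2 * (X : ℝ) - 2 * (R : ℝ) + D - 2 * I)
    (h14 : 1 ≤ -(a : ℝ) - 2 * (b : ℝ) - (c : ℝ) + (p : ℝ))
    (h15 : 0 < -(a : ℝ) - (c : ℝ) - (X : ℝ) - (R : ℝ) + 2 * D - I)
    (h16 : 0 < -2 * (b : ℝ) + (p : ℝ) + (X : ℝ) - 2 * D + I)
    (h17 : 0 < (a : ℝ) + (c : ℝ) - D)
    (h18 : 1 ≤ 1 - 2 * (b : ℝ) - (c : ℝ))
    (h19 : 0 < (a : ℝ) + (c : ℝ) + 2 * (X : ℝ) + (R : ℝ) - 2 * D + 2 * I)
    (h20 : 0 < 2 * (X : ℝ) + 2 * (R : ℝ) - D + 2 * I)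
    (h21 : 1 ≤ -(b : ℝ) - (c : ℝ) - (R : ℝ))
    (h22 : 1 ≤ -2 * (b : ℝ) - (c : ℝ) - (R : ℝ))
    (h23 : 0 < -2 * (X : ℝ) - (R : ℝ) + D - 2 * I)
    (h24 : 0 < -(b : ℝ) - 2 * (X : ℝ) + D - 2 * I) : False := by
  have g1 := g.a2
  have g2 := g.b2
  have g3 := g.pa
  have g4 := g.pb
  have g5 := g.J1
  have g6 := g.JD
  have g7 := g.D2
  have g8 := g.ca
  have g9 := g.ca'
  have k1 := kz.I0
  have k2 := kz.ID
  have k3 := kz.z1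
  have k4 := kz.z2
  have k5 := kz.s1
  have k6 := kz.s2
  have hkf : ∀ M : ℤ, ∀ kf ∈ KFs, KOk4 p l Cl 1 (xv [1, a, b, c, p, J, X, R] [D, I]) N M kf := by
    intro M
    have hA1 : evg (xv [1, a, b, c, p, J, X, R] [D, I]) [0, 1] = a := by
      simp only [evg_cons, evg_nil, xv, List.map_cons, List.map_nil, List.cons_append, List.nil_append]
      push_cast
      ring
    have hB1 : evg (xv [1, a, b, c, p, J, X, R] [D, I]) [0, 0, 1] = b := by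
      simp only [evg_cons, evg_nil, xv, List.map_cons, List.map_nil, List.cons_append, List.nil_append]
      push_cast
      ring
    simp only [KFs, List.forall_mem_cons]
    refine ⟨kok4_u hA1 hB1 M hU ?_, kok4_no hA1 hB1 N M hN0 ?_, kok4_no hA1 hB1 N M hN1 ?_, fun _ h => absurd h (by simp)⟩
    · intro X' R' I' _ hg
      simp only [List.forall_mem_cons, List.not_mem_nil, false_imp_iff, implies_true, and_true,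
        evg_cons, evg_nil, xv, List.map_cons, List.map_nil, List.cons_append, List.nil_append] at hg
      push_cast at hg
      simp only [Zx, Zp, Zs, Zsp, Zi, ZiD, Zy]
      push_cast
      linarith
    · intro X' R' I' _ hg
      simp only [List.forall_mem_cons, List.not_mem_nil, false_imp_iff, implies_true, and_true,
        evg_cons, evg_nil, xv, List.map_cons, List.map_nil, List.cons_append, List.nil_append] at hg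
      push_cast at hg
      simp only [Zx, Zp, Zs, Zsp, Zi, ZiD, Zy]
      push_cast
      refine ⟨?_, ?_⟩ <;> linarith [hg.1, hg.2]
    · intro X' R' I' _ hg
      simp only [List.forall_mem_cons, List.not_mem_nil, false_imp_iff, implies_true, and_true,
        evg_cons, evg_nil, xv, List.map_cons, List.map_nil, List.cons_append, List.nil_append] at hg
      push_cast at hg
      simp only [Zx, Zp, Zs, Zsp, Zi, ZiD, Zy]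
      push_cast
      refine ⟨?_, ?_⟩ <;> linarith [hg.1, hg.2]
  push_cast at *
  refine sound4 (val_K W.toBase hk []) W rfl (Nk := N)
    (fun kf _ _ => ⟨_, rfl⟩) (fun _ _ _ => rfl) (hkf _) ok0 ?_
  · simp only [base, List.forall_mem_cons, List.not_mem_nil, false_imp_iff, implies_true,
      and_true, hld, xv, evg_cons, evg_nil, List.map_cons, List.map_nil, List.cons_append,
      List.nil_append, if_true, if_false, Bool.false_eq_true]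
    push_cast
    refine ⟨?_, ?_, ?_, ?_, ?_, ?_, ?_, ?_, ?_, ?_, ?_, ?_, ?_, ?_, ?_, ?_, ?_, ?_, ?_, ?_, ?_, ?_, ?_, ?_, ?_, ?_, ?_, ?_, ?_, ?_, ?_, ?_, ?_, ?_, ?_, ?_, ?_, ?_, ?_⟩ <;> linarith

end Helper11.Y.Zmp1Ca_r51
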