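import Pool.Agent.Helper25.KG.C4
import Pool.Agent.Helper25.KG.C4d

set_option autoImplicit false
set_option linter.all false

namespace Helper11.Y.Zmp1Ca_r59

open Helper25.KG Helper11.CT

noncomputable def K : Cls :=
  dW 1

noncomputable def KFs : List KF3 :=
  [(3, bx3 ++ [(-1, 0, 0, [0,0,-1,0,0,0,0,0,0,2])]),
    (0, bx3 ++ [(-1, 0, 0, []), (-1, 0, 0, [0,0,-1,0,0,0,0,0,0,2])]),
    (0, bx3 ++ [(0, 0, -1, [0,0,0,0,-1,0,0,0,0,2]), (-1, 0, 0, [0,0,-1,0,0,0,0,0,0,2])])]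

noncomputable def base : List Con :=
  [(true,[1,0,-1,0,0,0,-2,2]),
  (false,[0,0,-1,0,0,-2,0,0,-2,2]),
  (false,[0,-1,0,0,0,2,2,0,2,-2]),
  (true,[0,0,-1,-1,0,0,1]),
  (false,[0,1,0,1,0,0,1,0,0,-2]),
  (true,[0,0,0,-1,0,0,1]),
  (false,[0,0,0,0,0,1,1,0,1]),
  (false,[0,0,0,0,0,0,0,0,2,-2]),
  (false,[0,0,-1,0,0,-1,0,0,-1,2]),
  (false,[0,0,0,0,0,1,0,0,1]),
  (false,[0,0,0,0,1,0,0,0,1,-2]),
  (false,[0,0,0,0,1,0,0,0,-1]),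
  (false,[0,0,0,0,0,0,0,0,0,1]),
  (false,[0,1,0,0,0,1,1,0,1]),
  (false,[0,1,0,0,0,-1,-1,0,-1]),
  (false,[0,0,1,0,0,1,0,0,1]),
  (false,[0,0,1,0,0,-1,0,0,-1]),
  (false,[0,0,0,0,0,0,0,0,-1,2]),
  (false,[0,0,0,0,0,0,0,0,1]),
  (false,[0,0,0,0,0,0,0,2,0,-4]),
  (false,[0,0,0,0,-1,0,0,0,0,2]),
  (true,[0,0,0,0,1]),
  (true,[0,2,-1]),
  (false,[0,0,2,0,0,0,0,0,0,-2]),
  (true,[0,1,-1,1]),
  (true,[0,1,0,1]),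
  (true,[0,0,0,-1]),
  (true,[0,0,-2,0,0,0,0,2]),
  (true,[0,-2,0,0,0,0,0,2]),
  (true,[-1,0,1]),
  (true,[-1,1])]

noncomputable def t0 : Tre :=
  (.R ⟨0,false,false,true,[0,0,0,1],[1,0,-1],[1,0,0,0,0,0,0,1],(⟨0,[(12,0)]⟩,⟨0,[(12,0)]⟩),(⟨0,[(17,
  0)]⟩,⟨0,[(18,0)]⟩),⟨1,[(10,0),(0,0)]⟩,.k,.k,(.r 0 ⟨1,[(0,0),(2,0),(1,0)]⟩ ⟨1,[(15,0),(0,0),(8,1),
  (2,0)]⟩),.k,.k,.k,⟨false,0,⟨3,[(1,1),(0,1),(24,0),(0,0)]⟩,⟨3,[(0,1),(14,0),(0,0),(13,3)]⟩⟩,⟨true,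
  0,⟨3,[(1,1),(13,0),(0,0)]⟩,⟨1,[(9,1),(13,0)]⟩⟩,⟨true,0,⟨0,[]⟩,⟨0,[(30,0)]⟩⟩,⟨false,1,⟨1,[(0,0),(0,
  0),(13,0),(0,0)]⟩,⟨15,[(2,5),(10,3),(5,0),(8,6)]⟩⟩,⟨false,0,⟨0,[]⟩,⟨0,[]⟩⟩,⟨false,0,⟨0,[]⟩,⟨0,
  []⟩⟩,[.o ⟨false,0,⟨0,[(14,0)]⟩,⟨7,[(2,1),(10,3),(5,2),(8,4)]⟩⟩,.o ⟨false,1,⟨9,[(0,5),(12,1),(2,
  11),(10,2),(0,0)]⟩,⟨0,[(2,0),(11,0)]⟩⟩,.a ⟨true,0,⟨0,[(12,0)]⟩,⟨0,[(12,0)]⟩⟩ ⟨false,0,⟨1,[(28,
  0)]⟩,⟨9,[(0,1),(12,3),(2,3),(10,0),(0,1)]⟩⟩ ⟨true,0,⟨1,[(8,0),(5,1),(0,0)]⟩,⟨13,[(2,5),(10,1),(8,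
  1),(0,0)]⟩⟩,.o ⟨false,0,⟨1,[(23,0)]⟩,⟨19,[(0,1),(12,3),(2,3),(2,4),(7,10),(0,1)]⟩⟩]⟩)

theorem ok0 : chk4 K KFs t0 base = true := by decide +kernel

open Helper25.KW Helper55.KE in
theorem closed {p a b c J l q : ℤ} {D dl : ℝ} {Cl : ℤ → ℤ → ℤ → ℤ → ℝ → Prop}
    (W : World p a b c J 1 l q D dl Cl) (g : G0 p a b c J D)
    {N X R : ℤ} {I : ℝ} (hk : KCl p l Cl N X R I) (kz : KF a b D (X + (1 : ℤ) * I) (X + (1 : ℤ) * I + R) I)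
    {Nu Ru : ℤ} {Iu : ℝ} (hu : WFac p D Cl Nu Ru Iu)
    (hU : KU p a b l 1 Cl (fun X R I => Zy b 1 D X R I) N)
    (hN0 : KNo p a b l 1 Cl (fun X R I => Zx 1 X R I ∧ Zy b 1 D X R I))
    (hN1 : KNo p a b l 1 Cl (fun X R I => ZiD D J X R I ∧ Zy b 1 D X R I))
    (h0 : 1 ≤ -(c : ℝ))
    (h1 : 1 ≤ (a : ℝ) - (b : ℝ) + (c : ℝ))
    (h2 : 0 < 2 * (b : ℝ) - 2 * Iu)
    (h3 : 1 ≤ 2 * (a : ℝ) - (b : ℝ))
    (h4 : 0 < (J : ℝ) - I)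
    (h5 : 0 < (J : ℝ) + I - 2 * Iu)
    (h6 : 0 < (X : ℝ) + I)
    (h7 : 0 < -(b : ℝ) - (X : ℝ) - I + 2 * Iu)
    (h8 : 0 < 2 * I - 2 * Iu)
    (h9 : 0 < (X : ℝ) + (R : ℝ) + I)
    (h10 : 1 ≤ -(c : ℝ) + (R : ℝ))
    (h11 : 0 < (a : ℝ) + (c : ℝ) + (R : ℝ) - 2 * Iu)
    (h12 : 1 ≤ -(b : ℝ) - (c : ℝ) + (R : ℝ))
    (h13 : 0 < -(a : ℝ) + 2 * (X : ℝ) + 2 * (R : ℝ) + 2 * I - 2 * Iu)
    (h14 : 0 < -(b : ℝ) - 2 * (X : ℝ) - 2 * I + 2 * Iu)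
    (h15 : 1 ≤ 1 - (b : ℝ) - 2 * (R : ℝ) + 2 * (Ru : ℝ)) : False := by
  have g1 := g.a2
  have g2 := g.b2
  have g3 := g.pa
  have g4 := g.pb
  have g5 := g.J1
  have g6 := g.JD
  have g7 := g.D2
  have g8 := g.ca
  have g9 := g.ca'
  have k1 := kz.I0
  have k2 := kz.ID
  have k3 := kz.z1
  have k4 := kz.z2
  have k5 := kz.s1
  have k6 := kz.s2
  have i1 := hu.I0
  have i2 := hu.ID
  have i4 : 2 * (Ru : ℝ) = p := by exact_mod_cast hu.R2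
  have hkf : ∀ M : ℤ, ∀ kf ∈ KFs, KOk4 p l Cl 1 (xv [1, a, b, c, J, X, R, Ru] [I, Iu]) N M kf := by
    intro M
    have hA1 : evg (xv [1, a, b, c, J, X, R, Ru] [I, Iu]) [0, 1] = a := by
      simp only [evg_cons, evg_nil, xv, List.map_cons, List.map_nil, List.cons_append, List.nil_append]
      push_cast
      ring
    have hB1 : evg (xv [1, a, b, c, J, X, R, Ru] [I, Iu]) [0, 0, 1] = b := by
      simp only [evg_cons, evg_nil, xv, List.map_cons, List.map_nil, List.cons_append, List.nil_append]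
      push_cast
      ring
    simp only [KFs, List.forall_mem_cons]
    refine ⟨kok4_u hA1 hB1 M hU ?_, kok4_no hA1 hB1 N M hN0 ?_, kok4_no hA1 hB1 N M hN1 ?_, fun _ h => absurd h (by simp)⟩
    · intro X' R' I' _ hg
      simp only [List.forall_mem_cons, List.not_mem_nil, false_imp_iff, implies_true, and_true,
        evg_cons, evg_nil, xv, List.map_cons, List.map_nil, List.cons_append, List.nil_append] at hg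
      push_cast at hg
      simp only [Zx, Zp, Zs, Zsp, Zi, ZiD, Zy]
      push_cast
      linarith
    · intro X' R' I' _ hg
      simp only [List.forall_mem_cons, List.not_mem_nil, false_imp_iff, implies_true, and_true,
        evg_cons, evg_nil, xv, List.map_cons, List.map_nil, List.cons_append, List.nil_append] at hg
      push_cast at hg
      simp only [Zx, Zp, Zs, Zsp, Zi, ZiD, Zy]
      push_cast
      refine ⟨?_, ?_⟩ <;> linarith [hg.1, hg.2]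
    · intro X' R' I' _ hg
      simp only [List.forall_mem_cons, List.not_mem_nil, false_imp_iff, implies_true, and_true,
        evg_cons, evg_nil, xv, List.map_cons, List.map_nil, List.cons_append, List.nil_append] at hg
      push_cast at hg
      simp only [Zx, Zp, Zs, Zsp, Zi, ZiD, Zy]
      push_cast
      refine ⟨?_, ?_⟩ <;> linarith [hg.1, hg.2]
  push_cast at *
  refine sound4 (val_W W.toBase hk hu []) W rfl (Nk := N)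
    (fun kf _ _ => ⟨_, rfl⟩) (fun _ _ _ => rfl) (hkf _) ok0 ?_
  · simp only [base, List.forall_mem_cons, List.not_mem_nil, false_imp_iff, implies_true,
      and_true, hld, xv, evg_cons, evg_nil, List.map_cons, List.map_nil, List.cons_append,
      List.nil_append, if_true, if_false, Bool.false_eq_true]
    push_cast
    refine ⟨?_, ?_, ?_, ?_, ?_, ?_, ?_, ?_, ?_, ?_, ?_, ?_, ?_, ?_, ?_, ?_, ?_, ?_, ?_, ?_, ?_, ?_, ?_, ?_, ?_, ?_, ?_, ?_, ?_, ?_, ?_⟩ <;> linarith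

end Helper11.Y.Zmp1Ca_r59
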