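import Pool.Agent.Helper25.KW.K9

set_option autoImplicit false
set_option linter.unusedSectionVars false
set_option linter.unusedVariables false

/-!
# Abscissa labels
-/

namespace Helper25.KW

open Helper11.N1 Helper55.KE

/-- abscissa labels -/
def LX (p : ℤ) (D : ℝ) (Cl : ℤ → ℤ → ℤ → ℤ → ℝ → Prop) : Prop :=
  (∀ B : ℤ, 0 < B → 2 * B < p → ∃ N R I, UFac p B D Cl N R I) ∨ (∃ N R I, VFac p D Cl N R I) ∨
    ((∃ N R I, WFac p D Cl N R I) ∧ ∀ B : ℤ, 2 ∣ B → 0 < B → B < p → ∃ N R I, UFac p B D Cl N R I)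

section

variable {p q a b c : ℕ} [NeZero p] [NeZero q] {z : ZMod p → ZMod (p * q)} {i0 ρ : ZMod p}
  {θ : ZMod (p * q)} {δ l : ℕ} {k : ℤ} {s ds J : ℤ}

theorem SG.lx (h : SG p q a b c z i0 ρ θ δ l k s ds J) :
    LX p (DD p q s) (ClS p q c ρ θ s ds) := by
  obtain ⟨m, hm⟩ := h.m1
  have hq := h.q0R
  have hp0 : 0 < p := Nat.pos_of_ne_zero (NeZero.ne p)
  set g := Int.gcd m p with hg
  have hgp : (g : ℤ) ∣ p := Int.gcd_dvd_right m p
  have hgm : (g : ℤ) ∣ m := Int.gcd_dvd_left m p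
  have hg0 : 0 < g := Int.gcd_pos_of_ne_zero_right m (by exact_mod_cast hp0.ne')
  have hst : ∀ N X : ℤ, 0 < N → N < p → ((X * q + ds * s * N : ℤ) : ZMod (p * q)) =
      (N : ZMod (p * q)) * θ → ∃ R : ℤ, ∃ I : ℝ, ClS p q c ρ θ s ds N 0 X R I ∧
        -(p : ℤ) < 2 * R ∧ 2 * R ≤ p ∧ 0 < I ∧ I < DD p q s := by
    intro N X h1 h2 h3
    obtain ⟨R, I, hC, h4, h5⟩ := h.crow h3
    obtain ⟨h6, h7⟩ := h.II hC h1 h2
    exact ⟨R, I, hC, h4, h5, h6, h7⟩
  rcases (by omega : g = 1 ∨ g = 2 ∨ 3 ≤ g) with h1 | h1 | h1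
  · left
    intro B hB0 hB2
    obtain ⟨N, hN1, hNp, hNb⟩ := lab p m B (by rw [← hg, h1])
    have hN0 : N ≠ 0 := by
      intro h3
      rw [h3, zero_mul, sub_zero] at hNb
      have := Int.le_of_dvd hB0 hNb
      omega
    obtain ⟨R, I, hC, h4, h5, h6, h7⟩ := hst N B (by omega) hNp (hm N B hNb)
    refine ⟨N, R, I, hC, by omega, hNp, h6, h7, h4, lt_of_le_of_ne h5 ?_⟩
    intro h8
    have h9 := h.dd hC ⟨1, by rw [h8]; ring⟩
    have h10 : (p : ℤ) ∣ 2 * B := by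
      have e1 : (2 * B : ℤ) = 2 * (B - N * m) + 2 * N * m := by ring
      rw [e1]
      exact dvd_add (Dvd.dvd.mul_left hNb 2) (Dvd.dvd.mul_right h9 m)
    have := Int.le_of_dvd (by omega) h10
    omega
  · right; right
    have hgp' := hgp
    rw [h1] at hgp hgm
    obtain ⟨M, hM⟩ := hgp
    obtain ⟨m', hm'⟩ := hgm
    push_cast at hM hm'
    constructor
    · obtain ⟨R, I, hC, h4, h5, h6, h7⟩ := hst M 0 (by omega) (by omega) (hm M 0
        ⟨-m', by rw [hM, hm']; ring⟩)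
      obtain ⟨h8, h9⟩ := h.half2 hC (by omega) (by omega) h4 h5
      exact ⟨M, R, I, hC, by omega, by omega, h6, h9, h8⟩
    · intro B hB2 hB0 hBp
      obtain ⟨B', hB'⟩ := hB2
      -- `gcd (m', M) = 1`
      have hcop : Int.gcd m' M = 1 := by
        have h3 : Int.gcd m p = 2 * Int.gcd m' M := by
          rw [hm', hM, Int.gcd_mul_left]
          rfl
        omega
      have hM0 : 0 < M := by omega
      obtain ⟨Mn, hMn⟩ := Int.eq_ofNat_of_zero_le hM0.le
      have hMn0 : Mn ≠ 0 := by omega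
      have : NeZero Mn := ⟨hMn0⟩
      obtain ⟨N, hN1, hNp, hNb⟩ := lab Mn m' B' (by rw [← hMn]; exact hcop)
      have hNb' : (p : ℤ) ∣ B - N * m := by
        obtain ⟨w, hw⟩ := hNb
        refine ⟨w, ?_⟩
        rw [hB', hm', hM, hMn]
        linear_combination 2 * hw
      have hN0 : N ≠ 0 := by
        intro h3
        rw [h3, zero_mul, sub_zero] at hNb'
        have := Int.le_of_dvd hB0 hNb'
        omega
      obtain ⟨R, I, hC, h4, h5, h6, h7⟩ := hst N B (by omega) (by omega) (hm N B hNb')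
      refine ⟨N, R, I, hC, by omega, by omega, h6, h7, h4, lt_of_le_of_ne h5 ?_⟩
      intro h8
      have h9 := Int.le_of_dvd (by omega) (h.dd hC ⟨1, by rw [h8]; ring⟩)
      omega
  · right; left
    obtain ⟨N, hN⟩ := hgp
    obtain ⟨m', hm'⟩ := hgm
    have hg3 : (3 : ℤ) ≤ g := by exact_mod_cast h1
    have hp0' : (0 : ℤ) < p := by exact_mod_cast hp0
    have hN0 : 0 < N := by
      by_contra h3
      have : (g : ℤ) * N ≤ 0 := mul_nonpos_of_nonneg_of_nonpos (by omega) (by omega)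
      omega
    have hN2 : 3 * N ≤ p := by
      rw [hN]
      exact mul_le_mul_of_nonneg_right hg3 hN0.le
    obtain ⟨R, I, hC, h4, h5, h6, h7⟩ := hst N 0 (by omega) (by omega) (hm N 0
      ⟨-m', by rw [hN, hm']; ring⟩)
    refine ⟨N, R, I, hC, by omega, by omega, h6, ?_, h4, lt_of_le_of_ne h5 ?_⟩
    · have h8 := h.II (h.cadd hC hC) (by omega) (by omega)
      linarith [h8.2]
    · intro h8
      have h9 := Int.le_of_dvd (by omega) (h.dd hC ⟨1, by rw [h8]; ring⟩)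
      omega

end

end Helper25.KW
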