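import Pool.Agent.Helper11.Y.Zmp1Ca_r1
import Pool.Agent.Helper11.Y.Zmp1Ca_r4
import Pool.Agent.Helper11.Y.Zmp1Ca_r7
import Pool.Agent.Helper11.Y.Zmp1Ca_r12
import Pool.Agent.Helper11.Y.Zmp1Ca_r29
import Pool.Agent.Helper11.Y.Zmp1Ca_r27
import Pool.Agent.Helper11.Y.Zmp1Ca_r28
import Pool.Agent.Helper11.Y.Zmp1Ca_r31
import Pool.Agent.Helper11.Y.Zmp1Ca_r32
import Pool.Agent.Helper11.Y.Zmp1Ca_r33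
import Pool.Agent.Helper11.Y.Zmp1Ca_r59
import Pool.Agent.Helper11.Y.Zmp1Ca_r61
import Pool.Agent.Helper11.Y.Zmp1Ca_r60
import Pool.Agent.Helper11.Y.Zmp1Ca_r43
import Pool.Agent.Helper11.Y.Zmp1Ca_r45
import Pool.Agent.Helper11.Y.Zmp1Ca_r48
import Pool.Agent.Helper11.Y.Zmp1Ca_r51
import Pool.Agent.Helper11.Y.Zmp1Ca_r64
import Pool.Agent.Helper11.Y.Zmp1Ca_r63
import Pool.Agent.Helper11.Y.Zmp1Ca_r65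
import Pool.Agent.Helper25.KG.C4
import Pool.Agent.Helper25.KW.S1K2
import Pool.Agent.Helper25.KW.S1K3

set_option autoImplicit false
set_option linter.all false

namespace Helper11.Y

open Helper25.KG Helper25.KW Helper55.KE Helper11.CT

theorem g_Zmp1Ca_r4 {p a b c J l q : ℤ} {D dl : ℝ} {Cl : ℤ → ℤ → ℤ → ℤ → ℝ → Prop}
    (W : World p a b c J 1 l q D dl Cl) (hc : -a < c) (hA : Aux p a b 1 D Cl) (hX : UVB p D Cl)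
    {N X R : ℤ} {I : ℝ} (hK : KGF p a b 1 D (P1 l p) Cl N X R I)
    (hU : KU p a b l 1 Cl (fun X R I => Zy b 1 D X R I) N)
    (hN0 : KNo p a b l 1 Cl (fun X R I => Zx 1 X R I ∧ Zy b 1 D X R I))
    (hN1 : KNo p a b l 1 Cl (fun X R I => ZiD D J X R I ∧ Zy b 1 D X R I))
    (h0 : 1 ≤ -(c : ℝ))
    (h1 : 1 ≤ (a : ℝ) - (b : ℝ) + (c : ℝ))
    (h2 : 0 < 2 * (b : ℝ) - D)
    (h3 : 1 ≤ 2 * (a : ℝ) - (b : ℝ))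
    (h4 : 0 < (J : ℝ) - I)
    (h5 : 0 < (J : ℝ) - D + I)
    (h6 : 0 < (X : ℝ) + I)
    (h7 : 0 < -(b : ℝ) - (X : ℝ) + D - I)
    (h8 : 0 < -D + 2 * I)
    (h9 : 0 < -(X : ℝ) - (R : ℝ) - I)
    (h10 : 1 ≤ (a : ℝ) - (c : ℝ) + (R : ℝ))
    (h11 : 0 < -(a : ℝ) - (R : ℝ) + D)
    (h12 : 1 ≤ (c : ℝ) - (R : ℝ))
    (h13 : 0 < (a : ℝ) + (c : ℝ) - D)
    (h14 : 1 ≤ 1 + (b : ℝ) + (c : ℝ))
    (h15 : 1 ≤ 1 + (a : ℝ) - (b : ℝ) + (R : ℝ))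
    (h16 : 0 < (a : ℝ) + (c : ℝ) + (X : ℝ) + (R : ℝ) - D + I)
    (h17 : 0 < (c : ℝ) - (X : ℝ) - (R : ℝ) - I)
    (h18 : 1 ≤ -(b : ℝ) - (c : ℝ) - (R : ℝ))
    (h19 : 1 ≤ -(a : ℝ) - (b : ℝ) - (c : ℝ) - 2 * (R : ℝ))
    (h20 : 0 < -(b : ℝ) - 2 * (X : ℝ) + D - 2 * I) : False := by
  have kz := KF.of hK
  refine Helper11.Y.Zmp1Ca_r4.closed W hA (G0.of W.toBase hc) (KCl.of hK) kz hU hN0 hN1
    h0 h1 h2 h3 h4 h5 h6 h7 h8 h9 h10 h11 h12 h13 h14 h15 h16 h17 h18 h19 h20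

theorem g_Zmp1Ca_r7 {p a b c J l q : ℤ} {D dl : ℝ} {Cl : ℤ → ℤ → ℤ → ℤ → ℝ → Prop}
    (W : World p a b c J 1 l q D dl Cl) (hc : -a < c) (hA : Aux p a b 1 D Cl) (hX : UVB p D Cl)
    {N X R : ℤ} {I : ℝ} (hK : KGF p a b 1 D (P1 l p) Cl N X R I)
    (hU : KU p a b l 1 Cl (fun X R I => Zy b 1 D X R I) N)
    (hN0 : KNo p a b l 1 Cl (fun X R I => Zx 1 X R I ∧ Zy b 1 D X R I))
    (hN1 : KNo p a b l 1 Cl (fun X R I => ZiD D J X R I ∧ Zy b 1 D X R I))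
    (h0 : 1 ≤ -(c : ℝ))
    (h1 : 1 ≤ (a : ℝ) - (b : ℝ) + (c : ℝ))
    (h2 : 0 < 2 * (b : ℝ) - D)
    (h3 : 1 ≤ 2 * (a : ℝ) - (b : ℝ))
    (h4 : 0 < (J : ℝ) - I)
    (h5 : 0 < (J : ℝ) - D + I)
    (h6 : 0 < (X : ℝ) + I)
    (h7 : 0 < -(b : ℝ) - (X : ℝ) + D - I)
    (h8 : 0 < -D + 2 * I)
    (h9 : 0 < -(X : ℝ) - (R : ℝ) - I)
    (h10 : 1 ≤ (a : ℝ) - (c : ℝ) + (R : ℝ))
    (h11 : 0 < -(a : ℝ) - (R : ℝ) + D)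
    (h12 : 1 ≤ (c : ℝ) - (R : ℝ))
    (h13 : 0 < (a : ℝ) + (c : ℝ) - D)
    (h14 : 1 ≤ -(b : ℝ) - (c : ℝ))
    (h15 : 1 ≤ 1 - 2 * (b : ℝ) - (c : ℝ))
    (h16 : 0 < -(p : ℝ) - 2 * (X : ℝ) - 2 * (R : ℝ) + D - 2 * I)
    (h17 : 1 ≤ -(a : ℝ) - (R : ℝ))
    (h18 : 0 < (a : ℝ) + (c : ℝ) + (p : ℝ) + 2 * (X : ℝ) + 2 * (R : ℝ) - 2 * D + 2 * I)
    (h19 : 0 < (a : ℝ) - (p : ℝ) - 2 * (X : ℝ) - (R : ℝ) + D - 2 * I)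
    (h20 : 1 ≤ 1 + (a : ℝ) - (p : ℝ) - (R : ℝ))
    (h21 : 0 < (a : ℝ) - (b : ℝ) - (p : ℝ) - 2 * (X : ℝ) - (R : ℝ) + D - 2 * I) : False := by
  have kz := KF.of hK
  refine Helper11.Y.Zmp1Ca_r7.closed W (G0.of W.toBase hc) (KCl.of hK) kz hU hN0 hN1
    h0 h1 h2 h3 h4 h5 h6 h7 h8 h9 h10 h11 h12 h13 h14 h15 h16 h17 h18 h19 h20 h21

theorem g_Zmp1Ca_r12 {p a b c J l q : ℤ} {D dl : ℝ} {Cl : ℤ → ℤ → ℤ → ℤ → ℝ → Prop}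
    (W : World p a b c J 1 l q D dl Cl) (hc : -a < c) (hA : Aux p a b 1 D Cl) (hX : UVB p D Cl)
    {N X R : ℤ} {I : ℝ} (hK : KGF p a b 1 D (P1 l p) Cl N X R I)
    (hU : KU p a b l 1 Cl (fun X R I => Zy b 1 D X R I) N)
    (hN0 : KNo p a b l 1 Cl (fun X R I => Zx 1 X R I ∧ Zy b 1 D X R I))
    (hN1 : KNo p a b l 1 Cl (fun X R I => ZiD D J X R I ∧ Zy b 1 D X R I))
    (h0 : 1 ≤ -(c : ℝ))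
    (h1 : 1 ≤ (a : ℝ) - (b : ℝ) + (c : ℝ))
    (h2 : 0 < 2 * (b : ℝ) - D)
    (h3 : 1 ≤ 2 * (a : ℝ) - (b : ℝ))
    (h4 : 0 < (J : ℝ) - I)
    (h5 : 0 < (J : ℝ) - D + I)
    (h6 : 0 < (X : ℝ) + I)
    (h7 : 0 < -(b : ℝ) - (X : ℝ) + D - I)
    (h8 : 0 < -D + 2 * I)
    (h9 : 0 < -(X : ℝ) - (R : ℝ) - I)
    (h10 : 1 ≤ (a : ℝ) - (c : ℝ) + (R : ℝ))
    (h11 : 0 < -(a : ℝ) - (R : ℝ) + D)
    (h12 : 1 ≤ (c : ℝ) - (R : ℝ))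
    (h13 : 0 < (a : ℝ) + (c : ℝ) - D)
    (h14 : 1 ≤ -(b : ℝ) - (c : ℝ))
    (h15 : 1 ≤ 1 - 2 * (b : ℝ) - (c : ℝ))
    (h16 : 0 < (p : ℝ) + 2 * (X : ℝ) + 2 * (R : ℝ) - D + 2 * I) : False := by
  have kz := KF.of hK
  obtain ⟨Ne, Xe, Ie, he⟩ := hA.ecl 1 (by
    first
      | have x1 : b + 1 ≤ a := by exact_mod_cast (by linarith : (b : ℝ) + 1 ≤ a)
      | skip
    first
      | have x2 : 1 ≤ c := by exact_mod_cast (by linarith : (1 : ℝ) ≤ c)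
      | have x2 : 1 ≤ -c := by exact_mod_cast (by linarith : (1 : ℝ) ≤ -c)
      | skip
    rintro ⟨w, hw⟩
    have h2 := W.ha
    have h3 := W.h2a
    have h4 := W.hb
    have h5 := W.h2b
    have h6 := hc
    have h7 := W.hca'
    have h8 : w < 1 := by
      by_contra hcon
      have : p * 1 ≤ p * w := mul_le_mul_of_nonneg_left (not_lt.mp hcon) (by omega)
      omega
    have h9 : -1 < w := by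
      by_contra hcon
      have : p * w ≤ p * (-1) := mul_le_mul_of_nonneg_left (not_lt.mp hcon) (by omega)
      omega
    have h10 : w = 0 := by omega
    subst h10
    omega)
  refine Helper11.Y.Zmp1Ca_r12.closed W (G0.of W.toBase hc) (KCl.of hK) kz he hU hN0 hN1
    h0 h1 h2 h3 h4 h5 h6 h7 h8 h9 h10 h11 h12 h13 h14 h15 h16

theorem g_Zmp1Ca_r28_uvw {p a b c J l q : ℤ} {D dl : ℝ} {Cl : ℤ → ℤ → ℤ → ℤ → ℝ → Prop}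
    (W : World p a b c J 1 l q D dl Cl) (hc : -a < c) (hA : Aux p a b 1 D Cl) (hX : UVB p D Cl)
    {N X R : ℤ} {I : ℝ} (hK : KGF p a b 1 D (P1 l p) Cl N X R I)
    (hU : KU p a b l 1 Cl (fun X R I => Zy b 1 D X R I) N)
    (hN0 : KNo p a b l 1 Cl (fun X R I => Zx 1 X R I ∧ Zy b 1 D X R I))
    (hN1 : KNo p a b l 1 Cl (fun X R I => ZiD D J X R I ∧ Zy b 1 D X R I))
    (h0 : 1 ≤ -(c : ℝ))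
    (h1 : 1 ≤ (a : ℝ) - (b : ℝ) + (c : ℝ))
    (h2 : 0 < 2 * (b : ℝ) - D)
    (h3 : 1 ≤ 2 * (a : ℝ) - (b : ℝ))
    (h4 : 0 < (J : ℝ) - I)
    (h5 : 0 < (J : ℝ) - D + I)
    (h6 : 0 < (X : ℝ) + I)
    (h7 : 0 < -(b : ℝ) - (X : ℝ) + D - I)
    (h8 : 0 < -D + 2 * I)
    (h9 : 0 < -(X : ℝ) - (R : ℝ) - I)
    (h10 : 1 ≤ (a : ℝ) - (c : ℝ) + (R : ℝ))
    (h11 : 0 < (a : ℝ) + (R : ℝ) - D)
    (h12 : 0 < -(a : ℝ) - 2 * (X : ℝ) - 2 * (R : ℝ) + D - 2 * I)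
    (h13 : 0 < -(b : ℝ) - 2 * (X : ℝ) + D - 2 * I)
    (h14 : 1 ≤ 1 - (b : ℝ) - (R : ℝ)) : False := by
  have kz := KF.of hK
  have ha_ := W.ha
  have h2a_ := W.h2a
  have h2b_ := W.h2b
  have hb_ := W.hb
  have hJ_ := W.hJ
  have h2J_ : 2 * J < p := by
    have h1 := W.hJD
    have h2 := W.hD
    have : ((2 * J : ℤ) : ℝ) < (p : ℝ) := by push_cast; linarith
    exact_mod_cast this
  rcases hX with hUx_ | ⟨Nu, Ru, Iu, hu⟩ | ⟨⟨Nu, Ru, Iu, hu⟩, -⟩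
  · obtain ⟨Nu, Ru, Iu, hu⟩ := hUx_ 1 (by omega) (by omega) (by omega)
    exact Helper11.Y.Zmp1Ca_r28.closed W (G0.of W.toBase hc) (KCl.of hK) kz hu hU hN0 hN1
      h0 h1 h2 h3 h4 h5 h6 h7 h8 h9 h10 h11 h12 h13 h14
  · exact Helper11.Y.Zmp1Ca_r27.closed W (G0.of W.toBase hc) (KCl.of hK) kz hu hU hN0 hN1
      h0 h1 h2 h3 h4 h5 h6 h7 h8 h9 h10 h11 h12 h13 h14
  · have e1_ : 2 * (Ru : ℝ) = p := by exact_mod_cast hu.R2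
    have e2_ := hu.ID
    exact Helper11.Y.Zmp1Ca_r29.closed W (G0.of W.toBase hc) (KCl.of hK) kz hu hU hN0 hN1
      h0 h1 (by push_cast; linarith) h3 h4 (by push_cast; linarith) h6 (by push_cast; linarith) (by push_cast; linarith) h9 h10 (by push_cast; linarith) (by push_cast; linarith) (by push_cast; linarith) h14

theorem g_Zmp1Ca_r33_uvw {p a b c J l q : ℤ} {D dl : ℝ} {Cl : ℤ → ℤ → ℤ → ℤ → ℝ → Prop}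
    (W : World p a b c J 1 l q D dl Cl) (hc : -a < c) (hA : Aux p a b 1 D Cl) (hX : UVB p D Cl)
    {N X R : ℤ} {I : ℝ} (hK : KGF p a b 1 D (P1 l p) Cl N X R I)
    (hU : KU p a b l 1 Cl (fun X R I => Zy b 1 D X R I) N)
    (hN0 : KNo p a b l 1 Cl (fun X R I => Zx 1 X R I ∧ Zy b 1 D X R I))
    (hN1 : KNo p a b l 1 Cl (fun X R I => ZiD D J X R I ∧ Zy b 1 D X R I))
    (h0 : 1 ≤ -(c : ℝ))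
    (h1 : 1 ≤ (a : ℝ) - (b : ℝ) + (c : ℝ))
    (h2 : 0 < 2 * (b : ℝ) - D)
    (h3 : 1 ≤ 2 * (a : ℝ) - (b : ℝ))
    (h4 : 0 < (J : ℝ) - I)
    (h5 : 0 < (J : ℝ) - D + I)
    (h6 : 0 < (X : ℝ) + I)
    (h7 : 0 < -(b : ℝ) - (X : ℝ) + D - I)
    (h8 : 0 < -D + 2 * I)
    (h9 : 0 < -(X : ℝ) - (R : ℝ) - I)
    (h10 : 1 ≤ (a : ℝ) - (c : ℝ) + (R : ℝ))
    (h11 : 0 < (a : ℝ) + (R : ℝ) - D)
    (h12 : 0 < (a : ℝ) + 2 * (X : ℝ) + 2 * (R : ℝ) - D + 2 * I)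
    (h13 : 0 < -(b : ℝ) - 2 * (X : ℝ) + D - 2 * I)
    (h14 : 1 ≤ 1 - (b : ℝ) - 2 * (R : ℝ)) : False := by
  have kz := KF.of hK
  have ha_ := W.ha
  have h2a_ := W.h2a
  have h2b_ := W.h2b
  have hb_ := W.hb
  have hJ_ := W.hJ
  have h2J_ : 2 * J < p := by
    have h1 := W.hJD
    have h2 := W.hD
    have : ((2 * J : ℤ) : ℝ) < (p : ℝ) := by push_cast; linarith
    exact_mod_cast this
  rcases hX with hUx_ | ⟨Nu, Ru, Iu, hu⟩ | ⟨⟨Nu, Ru, Iu, hu⟩, -⟩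
  · obtain ⟨Nu, Ru, Iu, hu⟩ := hUx_ 1 (by omega) (by omega) (by omega)
    exact Helper11.Y.Zmp1Ca_r33.closed W (G0.of W.toBase hc) (KCl.of hK) kz hu hU hN0 hN1
      h0 h1 h2 h3 h4 h5 h6 h7 h8 h9 h10 h11 h12 h13 h14
  · exact Helper11.Y.Zmp1Ca_r32.closed W (G0.of W.toBase hc) (KCl.of hK) kz hu hU hN0 hN1
      h0 h1 h2 h3 h4 h5 h6 h7 h8 h9 h10 h11 h12 h13 h14
  · have e1_ : 2 * (Ru : ℝ) = p := by exact_mod_cast hu.R2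
    have e2_ := hu.ID
    exact Helper11.Y.Zmp1Ca_r31.closed W (G0.of W.toBase hc) (KCl.of hK) kz hu hU hN0 hN1
      h0 h1 (by push_cast; linarith) h3 h4 (by push_cast; linarith) h6 (by push_cast; linarith) (by push_cast; linarith) h9 h10 (by push_cast; linarith) (by push_cast; linarith) (by push_cast; linarith) h14

theorem g_Zmp1Ca_r60_uvw {p a b c J l q : ℤ} {D dl : ℝ} {Cl : ℤ → ℤ → ℤ → ℤ → ℝ → Prop}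
    (W : World p a b c J 1 l q D dl Cl) (hc : -a < c) (hA : Aux p a b 1 D Cl) (hX : UVB p D Cl)
    {N X R : ℤ} {I : ℝ} (hK : KGF p a b 1 D (P1 l p) Cl N X R I)
    (hU : KU p a b l 1 Cl (fun X R I => Zy b 1 D X R I) N)
    (hN0 : KNo p a b l 1 Cl (fun X R I => Zx 1 X R I ∧ Zy b 1 D X R I))
    (hN1 : KNo p a b l 1 Cl (fun X R I => ZiD D J X R I ∧ Zy b 1 D X R I))
    (h0 : 1 ≤ -(c : ℝ))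
    (h1 : 1 ≤ (a : ℝ) - (b : ℝ) + (c : ℝ))
    (h2 : 0 < 2 * (b : ℝ) - D)
    (h3 : 1 ≤ 2 * (a : ℝ) - (b : ℝ))
    (h4 : 0 < (J : ℝ) - I)
    (h5 : 0 < (J : ℝ) - D + I)
    (h6 : 0 < (X : ℝ) + I)
    (h7 : 0 < -(b : ℝ) - (X : ℝ) + D - I)
    (h8 : 0 < -D + 2 * I)
    (h9 : 0 < (X : ℝ) + (R : ℝ) + I)
    (h10 : 1 ≤ -(c : ℝ) + (R : ℝ))
    (h11 : 0 < (a : ℝ) + (c : ℝ) + (R : ℝ) - D)
    (h12 : 1 ≤ -(b : ℝ) - (c : ℝ) + (R : ℝ))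
    (h13 : 0 < -(a : ℝ) + 2 * (X : ℝ) + 2 * (R : ℝ) - D + 2 * I)
    (h14 : 0 < -(b : ℝ) - 2 * (X : ℝ) + D - 2 * I)
    (h15 : 1 ≤ 1 - (b : ℝ) + (p : ℝ) - 2 * (R : ℝ)) : False := by
  have kz := KF.of hK
  have ha_ := W.ha
  have h2a_ := W.h2a
  have h2b_ := W.h2b
  have hb_ := W.hb
  have hJ_ := W.hJ
  have h2J_ : 2 * J < p := by
    have h1 := W.hJD
    have h2 := W.hD
    have : ((2 * J : ℤ) : ℝ) < (p : ℝ) := by push_cast; linarith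
    exact_mod_cast this
  rcases hX with hUx_ | ⟨Nu, Ru, Iu, hu⟩ | ⟨⟨Nu, Ru, Iu, hu⟩, -⟩
  · obtain ⟨Nu, Ru, Iu, hu⟩ := hUx_ 1 (by omega) (by omega) (by omega)
    exact Helper11.Y.Zmp1Ca_r60.closed W (G0.of W.toBase hc) (KCl.of hK) kz hu hU hN0 hN1
      h0 h1 h2 h3 h4 h5 h6 h7 h8 h9 h10 h11 h12 h13 h14 h15
  · exact Helper11.Y.Zmp1Ca_r61.closed W (G0.of W.toBase hc) (KCl.of hK) kz hu hU hN0 hN1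
      h0 h1 h2 h3 h4 h5 h6 h7 h8 h9 h10 h11 h12 h13 h14 h15
  · have e1_ : 2 * (Ru : ℝ) = p := by exact_mod_cast hu.R2
    have e2_ := hu.ID
    exact Helper11.Y.Zmp1Ca_r59.closed W (G0.of W.toBase hc) (KCl.of hK) kz hu hU hN0 hN1
      h0 h1 (by push_cast; linarith) h3 h4 (by push_cast; linarith) h6 (by push_cast; linarith) (by push_cast; linarith) h9 h10 (by push_cast; linarith) h12 (by push_cast; linarith) (by push_cast; linarith) (by push_cast; linarith)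

theorem g_Zmp1Ca_r43 {p a b c J l q : ℤ} {D dl : ℝ} {Cl : ℤ → ℤ → ℤ → ℤ → ℝ → Prop}
    (W : World p a b c J 1 l q D dl Cl) (hc : -a < c) (hA : Aux p a b 1 D Cl) (hX : UVB p D Cl)
    {N X R : ℤ} {I : ℝ} (hK : KGF p a b 1 D (P1 l p) Cl N X R I)
    (hU : KU p a b l 1 Cl (fun X R I => Zy b 1 D X R I) N)
    (hN0 : KNo p a b l 1 Cl (fun X R I => Zx 1 X R I ∧ Zy b 1 D X R I))
    (hN1 : KNo p a b l 1 Cl (fun X R I => ZiD D J X R I ∧ Zy b 1 D X R I))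
    (h0 : 1 ≤ -(c : ℝ))
    (h1 : 1 ≤ (a : ℝ) - (b : ℝ) + (c : ℝ))
    (h2 : 0 < 2 * (b : ℝ) - D)
    (h3 : 1 ≤ 2 * (a : ℝ) - (b : ℝ))
    (h4 : 0 < (J : ℝ) - I)
    (h5 : 0 < (J : ℝ) - D + I)
    (h6 : 0 < (X : ℝ) + I)
    (h7 : 0 < -(b : ℝ) - (X : ℝ) + D - I)
    (h8 : 0 < -D + 2 * I)
    (h9 : 0 < (X : ℝ) + (R : ℝ) + I)
    (h10 : 1 ≤ -(c : ℝ) + (R : ℝ))
    (h11 : 0 < (a : ℝ) + (c : ℝ) + (R : ℝ) - D)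
    (h12 : 1 ≤ -(b : ℝ) - (c : ℝ) + (R : ℝ))
    (h13 : 0 < (a : ℝ) - 2 * (X : ℝ) - 2 * (R : ℝ) + D - 2 * I)
    (h14 : 1 ≤ -(a : ℝ) - 2 * (b : ℝ) - (c : ℝ) + (p : ℝ))
    (h15 : 0 < -(a : ℝ) - (c : ℝ) - (X : ℝ) - (R : ℝ) + 2 * D - I)
    (h16 : 0 < -2 * (b : ℝ) + (p : ℝ) + (X : ℝ) - 2 * D + I)
    (h17 : 0 < (a : ℝ) + (c : ℝ) - D)
    (h18 : 1 ≤ 1 - 2 * (b : ℝ) - (c : ℝ))
    (h19 : 0 < -(a : ℝ) - (c : ℝ) - 2 * (X : ℝ) - (R : ℝ) + 2 * D - 2 * I)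
    (h20 : 0 < (a : ℝ) + (c : ℝ) + 2 * (X : ℝ) + 2 * (R : ℝ) - 2 * D + 2 * I)
    (h21 : 0 < 2 * (X : ℝ) + 2 * (R : ℝ) - D + 2 * I)
    (h22 : 0 < -(b : ℝ) - 2 * (X : ℝ) + D - 2 * I) : False := by
  have kz := KF.of hK
  refine Helper11.Y.Zmp1Ca_r43.closed W (G0.of W.toBase hc) (KCl.of hK) kz hU hN0 hN1
    h0 h1 h2 h3 h4 h5 h6 h7 h8 h9 h10 h11 h12 h13 h14 h15 h16 h17 h18 h19 h20 h21 h22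

theorem g_Zmp1Ca_r45 {p a b c J l q : ℤ} {D dl : ℝ} {Cl : ℤ → ℤ → ℤ → ℤ → ℝ → Prop}
    (W : World p a b c J 1 l q D dl Cl) (hc : -a < c) (hA : Aux p a b 1 D Cl) (hX : UVB p D Cl)
    {N X R : ℤ} {I : ℝ} (hK : KGF p a b 1 D (P1 l p) Cl N X R I)
    (hU : KU p a b l 1 Cl (fun X R I => Zy b 1 D X R I) N)
    (hN0 : KNo p a b l 1 Cl (fun X R I => Zx 1 X R I ∧ Zy b 1 D X R I))
    (hN1 : KNo p a b l 1 Cl (fun X R I => ZiD D J X R I ∧ Zy b 1 D X R I))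
    (h0 : 1 ≤ -(c : ℝ))
    (h1 : 1 ≤ (a : ℝ) - (b : ℝ) + (c : ℝ))
    (h2 : 0 < 2 * (b : ℝ) - D)
    (h3 : 1 ≤ 2 * (a : ℝ) - (b : ℝ))
    (h4 : 0 < (J : ℝ) - I)
    (h5 : 0 < (J : ℝ) - D + I)
    (h6 : 0 < (X : ℝ) + I)
    (h7 : 0 < -(b : ℝ) - (X : ℝ) + D - I)
    (h8 : 0 < -D + 2 * I)
    (h9 : 0 < (X : ℝ) + (R : ℝ) + I)
    (h10 : 1 ≤ -(c : ℝ) + (R : ℝ))
    (h11 : 0 < (a : ℝ) + (c : ℝ) + (R : ℝ) - D)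
    (h12 : 1 ≤ -(b : ℝ) - (c : ℝ) + (R : ℝ))
    (h13 : 0 < (a : ℝ) - 2 * (X : ℝ) - 2 * (R : ℝ) + D - 2 * I)
    (h14 : 1 ≤ -(a : ℝ) - 2 * (b : ℝ) - (c : ℝ) + (p : ℝ))
    (h15 : 0 < -(a : ℝ) - (c : ℝ) - (X : ℝ) - (R : ℝ) + 2 * D - I)
    (h16 : 0 < -2 * (b : ℝ) + (p : ℝ) + (X : ℝ) - 2 * D + I)
    (h17 : 0 < (a : ℝ) + (c : ℝ) - D)
    (h18 : 1 ≤ 1 - 2 * (b : ℝ) - (c : ℝ))
    (h19 : 0 < (a : ℝ) + (c : ℝ) + 2 * (X : ℝ) + (R : ℝ) - 2 * D + 2 * I)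
    (h20 : 0 < -2 * (X : ℝ) - 2 * (R : ℝ) + D - 2 * I)
    (h21 : 1 ≤ 1 - (R : ℝ))
    (h22 : 0 < -(b : ℝ) - 2 * (X : ℝ) - (R : ℝ) + D - 2 * I)
    (h23 : 0 < -(b : ℝ) - 2 * (X : ℝ) + D - 2 * I)
    (h24 : 1 ≤ -(R : ℝ))
    (h25 : 0 < (a : ℝ) + (c : ℝ) + 2 * (X : ℝ) + 2 * (R : ℝ) - 2 * D + 2 * I) : False := by
  have kz := KF.of hK
  refine Helper11.Y.Zmp1Ca_r45.closed W (G0.of W.toBase hc) (KCl.of hK) kz hU hN0 hN1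
    h0 h1 h2 h3 h4 h5 h6 h7 h8 h9 h10 h11 h12 h13 h14 h15 h16 h17 h18 h19 h20 h21 h22 h23 h24 h25

theorem g_Zmp1Ca_r48 {p a b c J l q : ℤ} {D dl : ℝ} {Cl : ℤ → ℤ → ℤ → ℤ → ℝ → Prop}
    (W : World p a b c J 1 l q D dl Cl) (hc : -a < c) (hA : Aux p a b 1 D Cl) (hX : UVB p D Cl)
    {N X R : ℤ} {I : ℝ} (hK : KGF p a b 1 D (P1 l p) Cl N X R I)
    (hU : KU p a b l 1 Cl (fun X R I => Zy b 1 D X R I) N)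
    (hN0 : KNo p a b l 1 Cl (fun X R I => Zx 1 X R I ∧ Zy b 1 D X R I))
    (hN1 : KNo p a b l 1 Cl (fun X R I => ZiD D J X R I ∧ Zy b 1 D X R I))
    (h0 : 1 ≤ -(c : ℝ))
    (h1 : 1 ≤ (a : ℝ) - (b : ℝ) + (c : ℝ))
    (h2 : 0 < 2 * (b : ℝ) - D)
    (h3 : 1 ≤ 2 * (a : ℝ) - (b : ℝ))
    (h4 : 0 < (J : ℝ) - I)
    (h5 : 0 < (J : ℝ) - D + I)
    (h6 : 0 < (X : ℝ) + I)
    (h7 : 0 < -(b : ℝ) - (X : ℝ) + D - I)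
    (h8 : 0 < -D + 2 * I)
    (h9 : 0 < (X : ℝ) + (R : ℝ) + I)
    (h10 : 1 ≤ -(c : ℝ) + (R : ℝ))
    (h11 : 0 < (a : ℝ) + (c : ℝ) + (R : ℝ) - D)
    (h12 : 1 ≤ -(b : ℝ) - (c : ℝ) + (R : ℝ))
    (h13 : 0 < (a : ℝ) - 2 * (X : ℝ) - 2 * (R : ℝ) + D - 2 * I)
    (h14 : 1 ≤ -(a : ℝ) - 2 * (b : ℝ) - (c : ℝ) + (p : ℝ))
    (h15 : 0 < -(a : ℝ) - (c : ℝ) - (X : ℝ) - (R : ℝ) + 2 * D - I)
    (h16 : 0 < -2 * (b : ℝ) + (p : ℝ) + (X : ℝ) - 2 * D + I)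
    (h17 : 0 < (a : ℝ) + (c : ℝ) - D)
    (h18 : 1 ≤ 1 - 2 * (b : ℝ) - (c : ℝ))
    (h19 : 0 < (a : ℝ) + (c : ℝ) + 2 * (X : ℝ) + (R : ℝ) - 2 * D + 2 * I)
    (h20 : 0 < 2 * (X : ℝ) + 2 * (R : ℝ) - D + 2 * I)
    (h21 : 1 ≤ -(b : ℝ) - (c : ℝ) - (R : ℝ))
    (h22 : 1 ≤ -2 * (b : ℝ) - (c : ℝ) - (R : ℝ))
    (h23 : 0 < 2 * (X : ℝ) + (R : ℝ) - D + 2 * I)
    (h24 : 0 < -(b : ℝ) - 2 * (X : ℝ) + D - 2 * I) : False := by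
  have kz := KF.of hK
  refine Helper11.Y.Zmp1Ca_r48.closed W (G0.of W.toBase hc) (KCl.of hK) kz hU hN0 hN1
    h0 h1 h2 h3 h4 h5 h6 h7 h8 h9 h10 h11 h12 h13 h14 h15 h16 h17 h18 h19 h20 h21 h22 h23 h24

theorem g_Zmp1Ca_r51 {p a b c J l q : ℤ} {D dl : ℝ} {Cl : ℤ → ℤ → ℤ → ℤ → ℝ → Prop}
    (W : World p a b c J 1 l q D dl Cl) (hc : -a < c) (hA : Aux p a b 1 D Cl) (hX : UVB p D Cl)
    {N X R : ℤ} {I : ℝ} (hK : KGF p a b 1 D (P1 l p) Cl N X R I)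
    (hU : KU p a b l 1 Cl (fun X R I => Zy b 1 D X R I) N)
    (hN0 : KNo p a b l 1 Cl (fun X R I => Zx 1 X R I ∧ Zy b 1 D X R I))
    (hN1 : KNo p a b l 1 Cl (fun X R I => ZiD D J X R I ∧ Zy b 1 D X R I))
    (h0 : 1 ≤ -(c : ℝ))
    (h1 : 1 ≤ (a : ℝ) - (b : ℝ) + (c : ℝ))
    (h2 : 0 < 2 * (b : ℝ) - D)
    (h3 : 1 ≤ 2 * (a : ℝ) - (b : ℝ))
    (h4 : 0 < (J : ℝ) - I)
    (h5 : 0 < (J : ℝ) - D + I)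
    (h6 : 0 < (X : ℝ) + I)
    (h7 : 0 < -(b : ℝ) - (X : ℝ) + D - I)
    (h8 : 0 < -D + 2 * I)
    (h9 : 0 < (X : ℝ) + (R : ℝ) + I)
    (h10 : 1 ≤ -(c : ℝ) + (R : ℝ))
    (h11 : 0 < (a : ℝ) + (c : ℝ) + (R : ℝ) - D)
    (h12 : 1 ≤ -(b : ℝ) - (c : ℝ) + (R : ℝ))
    (h13 : 0 < (a : ℝ) - 2 * (X : ℝ) - 2 * (R : ℝ) + D - 2 * I)
    (h14 : 1 ≤ -(a : ℝ) - 2 * (b : ℝ) - (c : ℝ) + (p : ℝ))
    (h15 : 0 < -(a : ℝ) - (c : ℝ) - (X : ℝ) - (R : ℝ) + 2 * D - I)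
    (h16 : 0 < -2 * (b : ℝ) + (p : ℝ) + (X : ℝ) - 2 * D + I)
    (h17 : 0 < (a : ℝ) + (c : ℝ) - D)
    (h18 : 1 ≤ 1 - 2 * (b : ℝ) - (c : ℝ))
    (h19 : 0 < (a : ℝ) + (c : ℝ) + 2 * (X : ℝ) + (R : ℝ) - 2 * D + 2 * I)
    (h20 : 0 < 2 * (X : ℝ) + 2 * (R : ℝ) - D + 2 * I)
    (h21 : 1 ≤ -(b : ℝ) - (c : ℝ) - (R : ℝ))
    (h22 : 1 ≤ -2 * (b : ℝ) - (c : ℝ) - (R : ℝ))
    (h23 : 0 < -2 * (X : ℝ) - (R : ℝ) + D - 2 * I)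
    (h24 : 0 < -(b : ℝ) - 2 * (X : ℝ) + D - 2 * I) : False := by
  have kz := KF.of hK
  refine Helper11.Y.Zmp1Ca_r51.closed W (G0.of W.toBase hc) (KCl.of hK) kz hU hN0 hN1
    h0 h1 h2 h3 h4 h5 h6 h7 h8 h9 h10 h11 h12 h13 h14 h15 h16 h17 h18 h19 h20 h21 h22 h23 h24

theorem g_Zmp1Ca_r65_uvw {p a b c J l q : ℤ} {D dl : ℝ} {Cl : ℤ → ℤ → ℤ → ℤ → ℝ → Prop}
    (W : World p a b c J 1 l q D dl Cl) (hc : -a < c) (hA : Aux p a b 1 D Cl) (hX : UVB p D Cl)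
    {N X R : ℤ} {I : ℝ} (hK : KGF p a b 1 D (P1 l p) Cl N X R I)
    (hU : KU p a b l 1 Cl (fun X R I => Zy b 1 D X R I) N)
    (hN0 : KNo p a b l 1 Cl (fun X R I => Zx 1 X R I ∧ Zy b 1 D X R I))
    (hN1 : KNo p a b l 1 Cl (fun X R I => ZiD D J X R I ∧ Zy b 1 D X R I))
    (h0 : 1 ≤ -(c : ℝ))
    (h1 : 1 ≤ (a : ℝ) - (b : ℝ) + (c : ℝ))
    (h2 : 0 < 2 * (b : ℝ) - D)
    (h3 : 1 ≤ 2 * (a : ℝ) - (b : ℝ))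
    (h4 : 0 < (J : ℝ) - I)
    (h5 : 0 < (J : ℝ) - D + I)
    (h6 : 0 < (X : ℝ) + I)
    (h7 : 0 < -(b : ℝ) - (X : ℝ) + D - I)
    (h8 : 0 < -D + 2 * I)
    (h9 : 0 < (X : ℝ) + (R : ℝ) + I)
    (h10 : 1 ≤ -(c : ℝ) + (R : ℝ))
    (h11 : 0 < (a : ℝ) + (c : ℝ) + (R : ℝ) - D)
    (h12 : 1 ≤ -(b : ℝ) - (c : ℝ) + (R : ℝ))
    (h13 : 0 < (a : ℝ) - 2 * (X : ℝ) - 2 * (R : ℝ) + D - 2 * I)
    (h14 : 1 ≤ -(a : ℝ) - 2 * (b : ℝ) - (c : ℝ) + (p : ℝ))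
    (h15 : 0 < (a : ℝ) + (c : ℝ) + (X : ℝ) + (R : ℝ) - 2 * D + I)
    (h16 : 0 < -(b : ℝ) - 2 * (X : ℝ) + D - 2 * I)
    (h17 : 1 ≤ -(b : ℝ) + (p : ℝ) - 2 * (R : ℝ))
    (h18 : 0 < -2 * (b : ℝ) + (p : ℝ) + (X : ℝ) - 2 * D + I) : False := by
  have kz := KF.of hK
  have ha_ := W.ha
  have h2a_ := W.h2a
  have h2b_ := W.h2b
  have hb_ := W.hb
  have hJ_ := W.hJ
  have h2J_ : 2 * J < p := by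
    have h1 := W.hJD
    have h2 := W.hD
    have : ((2 * J : ℤ) : ℝ) < (p : ℝ) := by push_cast; linarith
    exact_mod_cast this
  rcases hX with hUx_ | ⟨Nu, Ru, Iu, hu⟩ | ⟨⟨Nu, Ru, Iu, hu⟩, -⟩
  · obtain ⟨Nu, Ru, Iu, hu⟩ := hUx_ 1 (by omega) (by omega) (by omega)
    exact Helper11.Y.Zmp1Ca_r65.closed W (G0.of W.toBase hc) (KCl.of hK) kz hu hU hN0 hN1
      h0 h1 h2 h3 h4 h5 h6 h7 h8 h9 h10 h11 h12 h13 h14 h15 h16 h17 h18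
  · exact Helper11.Y.Zmp1Ca_r63.closed W (G0.of W.toBase hc) (KCl.of hK) kz hu hU hN0 hN1
      h0 h1 h2 h3 h4 h5 h6 h7 h8 h9 h10 h11 h12 h13 h14 h15 h16 h17 h18
  · have e1_ : 2 * (Ru : ℝ) = p := by exact_mod_cast hu.R2
    have e2_ := hu.ID
    exact Helper11.Y.Zmp1Ca_r64.closed W (G0.of W.toBase hc) (KCl.of hK) kz hu hU hN0 hN1
      h0 h1 (by push_cast; linarith) h3 h4 (by push_cast; linarith) h6 (by push_cast; linarith) (by push_cast; linarith) h9 h10 (by push_cast; linarith) h12 (by push_cast; linarith) (by push_cast; linarith) (by push_cast; linarith) (by push_cast; linarith) (by push_cast; linarith) (by push_cast; linarith)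

theorem g_Zmp1Ca_r1 {p a b c J l q : ℤ} {D dl : ℝ} {Cl : ℤ → ℤ → ℤ → ℤ → ℝ → Prop}
    (W : World p a b c J 1 l q D dl Cl) (hc : -a < c) (hA : Aux p a b 1 D Cl) (hX : UVB p D Cl)
    {N X R : ℤ} {I : ℝ} (hK : KGF p a b 1 D (P1 l p) Cl N X R I)
    (hU : KU p a b l 1 Cl (fun X R I => Zy b 1 D X R I) N)
    (hN0 : KNo p a b l 1 Cl (fun X R I => Zx 1 X R I ∧ Zy b 1 D X R I))
    (hN1 : KNo p a b l 1 Cl (fun X R I => ZiD D J X R I ∧ Zy b 1 D X R I))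
    (h0 : 1 ≤ -(c : ℝ))
    (h1 : 1 ≤ (a : ℝ) - (b : ℝ) + (c : ℝ))
    (h2 : 0 < 2 * (b : ℝ) - D)
    (h3 : 1 ≤ 2 * (a : ℝ) - (b : ℝ))
    (h4 : 0 < (J : ℝ) - I)
    (h5 : 0 < (J : ℝ) - D + I)
    (h6 : 0 < (X : ℝ) + I)
    (h7 : 0 < -(b : ℝ) - (X : ℝ) + D - I)
    (h8 : 0 < -D + 2 * I) : False := by
  have kz := KF.of hK
  refine Helper11.Y.Zmp1Ca_r1.closed W (G0.of W.toBase hc) (KCl.of hK) kz hU hN0 hN1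
    h0 h1 h2 h3 h4 h5 h6 h7 h8 ?_ ?_ ?_ ?_ ?_ ?_ ?_ ?_ ?_ ?_ ?_
  · intro p0 p1 p2 p3 p4 p5 p6 p7 p8 p9 p10 p11
    exact g_Zmp1Ca_r4 W hc hA hX hK hU hN0 hN1 
      h0 h1 h2 h3 h4 h5 h6 h7 h8 p0 p1 p2 p3 p4 p5 p6 p7 p8 p9 p10 p11
  · intro p0 p1 p2 p3 p4 p5 p6 p7 p8 p9 p10 p11 p12
    exact g_Zmp1Ca_r7 W hc hA hX hK hU hN0 hN1 
      h0 h1 h2 h3 h4 h5 h6 h7 h8 p0 p1 p2 p3 p4 p5 p6 p7 p8 p9 p10 p11 p12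
  · intro p0 p1 p2 p3 p4 p5 p6 p7
    exact g_Zmp1Ca_r12 W hc hA hX hK hU hN0 hN1 
      h0 h1 h2 h3 h4 h5 h6 h7 h8 p0 p1 p2 p3 p4 p5 p6 p7
  · intro p0 p1 p2 p3 p4 p5
    exact g_Zmp1Ca_r28_uvw W hc hA hX hK hU hN0 hN1 
      h0 h1 h2 h3 h4 h5 h6 h7 h8 p0 p1 p2 p3 p4 p5
  · intro p0 p1 p2 p3 p4 p5
    exact g_Zmp1Ca_r33_uvw W hc hA hX hK hU hN0 hN1 
      h0 h1 h2 h3 h4 h5 h6 h7 h8 p0 p1 p2 p3 p4 p5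
  · intro p0 p1 p2 p3 p4 p5 p6
    exact g_Zmp1Ca_r60_uvw W hc hA hX hK hU hN0 hN1 
      h0 h1 h2 h3 h4 h5 h6 h7 h8 p0 p1 p2 p3 p4 p5 p6
  · intro p0 p1 p2 p3 p4 p5 p6 p7 p8 p9 p10 p11 p12 p13
    exact g_Zmp1Ca_r43 W hc hA hX hK hU hN0 hN1 
      h0 h1 h2 h3 h4 h5 h6 h7 h8 p0 p1 p2 p3 p4 p5 p6 p7 p8 p9 p10 p11 p12 p13
  · intro p0 p1 p2 p3 p4 p5 p6 p7 p8 p9 p10 p11 p12 p13 p14 p15 p16
    exact g_Zmp1Ca_r45 W hc hA hX hK hU hN0 hN1 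
      h0 h1 h2 h3 h4 h5 h6 h7 h8 p0 p1 p2 p3 p4 p5 p6 p7 p8 p9 p10 p11 p12 p13 p14 p15 p16
  · intro p0 p1 p2 p3 p4 p5 p6 p7 p8 p9 p10 p11 p12 p13 p14 p15
    exact g_Zmp1Ca_r48 W hc hA hX hK hU hN0 hN1 
      h0 h1 h2 h3 h4 h5 h6 h7 h8 p0 p1 p2 p3 p4 p5 p6 p7 p8 p9 p10 p11 p12 p13 p14 p15
  · intro p0 p1 p2 p3 p4 p5 p6 p7 p8 p9 p10 p11 p12 p13 p14 p15
    exact g_Zmp1Ca_r51 W hc hA hX hK hU hN0 hN1 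
      h0 h1 h2 h3 h4 h5 h6 h7 h8 p0 p1 p2 p3 p4 p5 p6 p7 p8 p9 p10 p11 p12 p13 p14 p15
  · intro p0 p1 p2 p3 p4 p5 p6 p7 p8 p9
    exact g_Zmp1Ca_r65_uvw W hc hA hX hK hU hN0 hN1 
      h0 h1 h2 h3 h4 h5 h6 h7 h8 p0 p1 p2 p3 p4 p5 p6 p7 p8 p9

alias z_Zmp1Ca := g_Zmp1Ca_r1

end Helper11.Y
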