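import Pool.Agent.Helper81.PC.C4N
import Pool.Agent.Helper25.KG.C4
import Pool.Agent.Helper25.KG.C4d

set_option autoImplicit false
set_option linter.all false

namespace Helper11.Y.Zmp1Ca_r1

open Helper25.KG Helper11.CT

noncomputable def K : Cls :=
  dK 1

noncomputable def KFs : List KF3 :=
  [(3, bx3 ++ [(-1, 0, 0, [0,0,-1,0,0,0,0,0,1])]),
    (0, bx3 ++ [(-1, 0, 0, []), (-1, 0, 0, [0,0,-1,0,0,0,0,0,1])]),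
    (0, bx3 ++ [(0, 0, -1, [0,0,0,0,0,-1,0,0,1]), (-1, 0, 0, [0,0,-1,0,0,0,0,0,1])])]

noncomputable def base : List Con :=
  [(false,[0,0,0,0,0,0,0,0,-1,2]),
  (false,[0,0,-1,0,0,0,-1,0,1,-1]),
  (false,[0,0,0,0,0,0,1,0,0,1]),
  (false,[0,0,0,0,0,1,0,0,-1,1]),
  (false,[0,0,0,0,0,1,0,0,0,-1]),
  (false,[0,1,0,0,0,0,1,1,0,1]),
  (false,[0,1,0,0,0,0,-1,-1,0,-1]),
  (false,[0,0,1,0,0,0,1,0,0,1]),
  (false,[0,0,1,0,0,0,-1,0,0,-1]),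
  (false,[0,0,0,0,0,0,0,0,1,-1]),
  (false,[0,0,0,0,0,0,0,0,0,1]),
  (false,[0,0,0,0,1,0,0,0,-2]),
  (false,[0,0,0,0,0,-1,0,0,1]),
  (true,[0,0,0,0,0,1]),
  (true,[0,2,-1]),
  (false,[0,0,2,0,0,0,0,0,-1]),
  (true,[0,1,-1,1]),
  (true,[0,1,0,1]),
  (true,[0,0,0,-1]),
  (true,[0,0,-2,0,1]),
  (true,[0,-2,0,0,1]),
  (true,[-1,0,1]),
  (true,[-1,1])]

noncomputable def l0 : List Con := (false, [0,0,0,0,0,0,-1,-1,0,-1]) :: base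

noncomputable def r0 : List Con := (false, [0,0,0,0,0,0,1,1,0,1]) :: base

noncomputable def l1 : List Con := (true, [1,-1,0,1,0,0,0,-1]) :: l0

noncomputable def r1 : List Con := (true, [0,1,0,-1,0,0,0,1]) :: l0

noncomputable def l2 : List Con := (false, [0,-1,0,0,0,0,0,-1,1]) :: r1

noncomputable def r2 : List Con := (false, [0,1,0,0,0,0,0,1,-1]) :: r1

noncomputable def l3 : List Con := (true, [1,0,0,-1,0,0,0,1]) :: l2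

noncomputable def r3 : List Con := (true, [0,0,0,1,0,0,0,-1]) :: l2

noncomputable def l4 : List Con := (false, [0,-1,0,-1,0,0,0,0,1]) :: r3

noncomputable def r4 : List Con := (false, [0,1,0,1,0,0,0,0,-1]) :: r3

noncomputable def l5 : List Con := (true, [1,0,1,1]) :: r4

noncomputable def r5 : List Con := (true, [0,0,-1,-1]) :: r4

noncomputable def l6 : List Con := (true, [0,-1,1,0,0,0,0,-1]) :: l5

noncomputable def r6 : List Con := (true, [1,1,-1,0,0,0,0,1]) :: l5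

noncomputable def l7 : List Con := (false, [0,-1,0,-1,0,0,-1,-1,1,-1]) :: r6

noncomputable def r7 : List Con := (false, [0,1,0,1,0,0,1,1,-1,1]) :: r6

noncomputable def l8 : List Con := (false, [0,0,0,-1,0,0,1,1,0,1]) :: r7

noncomputable def r8 : List Con := (false, [0,0,0,1,0,0,-1,-1,0,-1]) :: r7

noncomputable def l9 : List Con := (true, [1,0,1,1,0,0,0,1]) :: r8

noncomputable def r9 : List Con := (true, [0,0,-1,-1,0,0,0,-1]) :: r8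

noncomputable def l10 : List Con := (true, [1,1,1,1,0,0,0,2]) :: r9

noncomputable def r10 : List Con := (true, [0,-1,-1,-1,0,0,0,-2]) :: r9

noncomputable def l11 : List Con := (false, [0,0,1,0,0,0,2,0,-1,2]) :: r10

noncomputable def r11 : List Con := (false, [0,0,-1,0,0,0,-2,0,1,-2]) :: r10

noncomputable def l12 : List Con := (true, [0,0,2,1]) :: r5

noncomputable def r12 : List Con := (true, [1,0,-2,-1]) :: r5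

noncomputable def l13 : List Con := (false, [0,0,0,0,-1,0,-2,-2,1,-2]) :: r12

noncomputable def r13 : List Con := (false, [0,0,0,0,1,0,2,2,-1,2]) :: r12

noncomputable def l14 : List Con := (true, [1,1,0,0,0,0,0,1]) :: l13

noncomputable def r14 : List Con := (true, [0,-1,0,0,0,0,0,-1]) :: l13

noncomputable def l15 : List Con := (false, [0,-1,0,-1,-1,0,-2,-2,2,-2]) :: r14

noncomputable def r15 : List Con := (false, [0,1,0,1,1,0,2,2,-2,2]) :: r14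

noncomputable def l16 : List Con := (false, [0,1,0,0,-1,0,-2,-1,1,-2]) :: r15

noncomputable def r16 : List Con := (false, [0,-1,0,0,1,0,2,1,-1,2]) :: r15

noncomputable def l17 : List Con := (true, [1,1,0,0,-1,0,0,-1]) :: l16

noncomputable def r17 : List Con := (true, [0,-1,0,0,1,0,0,1]) :: l16

noncomputable def l18 : List Con := (false, [0,-1,1,0,1,0,2,1,-1,2]) :: l17

noncomputable def r18 : List Con := (false, [0,1,-1,0,-1,0,-2,-1,1,-2]) :: l17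

noncomputable def l19 : List Con := (false, [0,-1,0,0,0,0,-2,-2,1,-2]) :: r2

noncomputable def r19 : List Con := (false, [0,1,0,0,0,0,2,2,-1,2]) :: r2

noncomputable def l20 : List Con := (false, [0,0,1,0,0,0,2,0,-1,2]) :: l19

noncomputable def r20 : List Con := (false, [0,0,-1,0,0,0,-2,0,1,-2]) :: l19

noncomputable def l21 : List Con := (true, [0,0,1,0,0,0,0,1]) :: r20

noncomputable def r21 : List Con := (true, [1,0,-1,0,0,0,0,-1]) :: r20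

noncomputable def l22 : List Con := (false, [0,0,1,0,0,0,2,0,-1,2]) :: r19

noncomputable def r22 : List Con := (false, [0,0,-1,0,0,0,-2,0,1,-2]) :: r19

noncomputable def l23 : List Con := (true, [0,0,1,0,0,0,0,2]) :: r22

noncomputable def r23 : List Con := (true, [1,0,-1,0,0,0,0,-2]) :: r22

noncomputable def l24 : List Con := (true, [0,0,0,-1,0,0,0,1]) :: r0

noncomputable def r24 : List Con := (true, [1,0,0,1,0,0,0,-1]) :: r0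

noncomputable def l25 : List Con := (false, [0,1,0,1,0,0,0,1,-1]) :: l24

noncomputable def r25 : List Con := (false, [0,-1,0,-1,0,0,0,-1,1]) :: l24

noncomputable def l26 : List Con := (true, [0,0,-1,-1,0,0,0,1]) :: l25

noncomputable def r26 : List Con := (true, [1,0,1,1,0,0,0,-1]) :: l25

noncomputable def l27 : List Con := (false, [0,-1,0,0,0,0,2,2,-1,2]) :: l26

noncomputable def r27 : List Con := (false, [0,1,0,0,0,0,-2,-2,1,-2]) :: l26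

noncomputable def l28 : List Con := (false, [0,0,1,0,0,0,2,0,-1,2]) :: l27

noncomputable def r28 : List Con := (false, [0,0,-1,0,0,0,-2,0,1,-2]) :: l27

noncomputable def l29 : List Con := (true, [0,0,1,0,-1,0,0,2]) :: r28

noncomputable def r29 : List Con := (true, [1,0,-1,0,1,0,0,-2]) :: r28

noncomputable def l30 : List Con := (true, [1,1,2,1,-1]) :: r27

noncomputable def r30 : List Con := (true, [0,-1,-2,-1,1]) :: r27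

noncomputable def l31 : List Con := (false, [0,-1,0,-1,0,0,-1,-1,2,-1]) :: r30

noncomputable def r31 : List Con := (false, [0,1,0,1,0,0,1,1,-2,1]) :: r30

noncomputable def l32 : List Con := (false, [0,0,2,0,-1,0,-1,0,2,-1]) :: l31

noncomputable def r32 : List Con := (false, [0,0,-2,0,1,0,1,0,-2,1]) :: l31

noncomputable def l33 : List Con := (false, [0,-1,0,-1,0,0,0,0,1]) :: r32

noncomputable def r33 : List Con := (false, [0,1,0,1,0,0,0,0,-1]) :: r32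

noncomputable def l34 : List Con := (true, [0,0,2,1]) :: r33

noncomputable def r34 : List Con := (true, [1,0,-2,-1]) :: r33

noncomputable def l35 : List Con := (false, [0,-1,0,-1,0,0,-2,-1,2,-2]) :: r34

noncomputable def r35 : List Con := (false, [0,1,0,1,0,0,2,1,-2,2]) :: r34

noncomputable def l36 : List Con := (false, [0,-1,0,-1,0,0,-2,-2,2,-2]) :: l35

noncomputable def r36 : List Con := (false, [0,1,0,1,0,0,2,2,-2,2]) :: l35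

noncomputable def l37 : List Con := (false, [0,0,0,0,0,0,2,2,-1,2]) :: r36

noncomputable def r37 : List Con := (false, [0,0,0,0,0,0,-2,-2,1,-2]) :: r36

noncomputable def l38 : List Con := (false, [0,0,1,0,0,0,2,0,-1,2]) :: l37

noncomputable def r38 : List Con := (false, [0,0,-1,0,0,0,-2,0,1,-2]) :: l37

noncomputable def l39 : List Con := (false, [0,0,0,0,0,0,-2,-2,1,-2]) :: r35

noncomputable def r39 : List Con := (false, [0,0,0,0,0,0,2,2,-1,2]) :: r35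

noncomputable def l40 : List Con := (true, [1,0,0,0,0,0,0,-1]) :: l39

noncomputable def r40 : List Con := (true, [0,0,0,0,0,0,0,1]) :: l39

noncomputable def l41 : List Con := (false, [0,0,1,0,0,0,2,1,-1,2]) :: l40

noncomputable def r41 : List Con := (false, [0,0,-1,0,0,0,-2,-1,1,-2]) :: l40

noncomputable def l42 : List Con := (false, [0,0,1,0,0,0,2,0,-1,2]) :: r41

noncomputable def r42 : List Con := (false, [0,0,-1,0,0,0,-2,0,1,-2]) :: r41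

noncomputable def l43 : List Con := (true, [1,0,0,0,0,0,0,1]) :: r42

noncomputable def r43 : List Con := (true, [0,0,0,0,0,0,0,-1]) :: r42

noncomputable def l44 : List Con := (false, [0,1,0,1,0,0,2,2,-2,2]) :: r43

noncomputable def r44 : List Con := (false, [0,-1,0,-1,0,0,-2,-2,2,-2]) :: r43

noncomputable def l45 : List Con := (true, [1,0,1,1,0,0,0,1]) :: r39

noncomputable def r45 : List Con := (true, [0,0,-1,-1,0,0,0,-1]) :: r39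

noncomputable def l46 : List Con := (true, [1,0,2,1,0,0,0,1]) :: r45

noncomputable def r46 : List Con := (true, [0,0,-2,-1,0,0,0,-1]) :: r45

noncomputable def l47 : List Con := (false, [0,0,0,0,0,0,2,1,-1,2]) :: r46

noncomputable def r47 : List Con := (false, [0,0,0,0,0,0,-2,-1,1,-2]) :: r46

noncomputable def l48 : List Con := (false, [0,0,1,0,0,0,2,0,-1,2]) :: l47

noncomputable def r48 : List Con := (false, [0,0,-1,0,0,0,-2,0,1,-2]) :: l47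

noncomputable def l49 : List Con := (false, [0,0,1,0,0,0,2,0,-1,2]) :: r47

noncomputable def r49 : List Con := (false, [0,0,-1,0,0,0,-2,0,1,-2]) :: r47

noncomputable def l50 : List Con := (false, [0,0,1,0,0,0,2,0,-1,2]) :: r31

noncomputable def r50 : List Con := (false, [0,0,-1,0,0,0,-2,0,1,-2]) :: r31

noncomputable def l51 : List Con := (true, [1,0,1,0,-1,0,0,2]) :: r50

noncomputable def r51 : List Con := (true, [0,0,-1,0,1,0,0,-2]) :: r50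

noncomputable def l52 : List Con := (false, [0,0,2,0,-1,0,-1,0,2,-1]) :: r51

noncomputable def r52 : List Con := (false, [0,0,-2,0,1,0,1,0,-2,1]) :: r51

def HH (Q : List Con) : Prop := Q = r11 ∨ Q = r18 ∨ Q = r13 ∨ Q = r21 ∨ Q = r23 ∨ Q = r29 ∨ Q = r38 ∨ Q = l44 ∨ Q = r48 ∨ Q = r49 ∨ Q = r52

noncomputable def t0 : Tre :=
  (.R ⟨0,false,false,true,[1,0,-1],[1,-1],[0,1],(⟨0,[(11,0)]⟩,⟨0,[(12,0)]⟩),(⟨0,[(14,0)]⟩,⟨0,[(15,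
  0)]⟩),⟨0,[(5,0)]⟩,.k,.k,.k,.k,.k,.k,⟨true,0,⟨0,[(0,0),(6,0),(2,0)]⟩,⟨0,[(20,0)]⟩⟩,⟨false,0,⟨0,[(4,
  0)]⟩,⟨0,[(10,0),(10,0)]⟩⟩,⟨false,1,⟨1,[(7,1),(2,1),(10,0),(0,0)]⟩,⟨0,[(0,0),(19,0)]⟩⟩,⟨true,0,⟨0,
  [(7,0),(12,0)]⟩,⟨1,[(0,0),(0,0),(8,0),(7,0)]⟩⟩,⟨false,0,⟨0,[]⟩,⟨0,[]⟩⟩,⟨false,0,⟨0,[]⟩,⟨0,[]⟩⟩,
  [.e ⟨false,0,⟨0,[(18,0),(1,0)]⟩,⟨0,[(22,0),(1,0)]⟩⟩ ⟨false,0,⟨0,[(4,0),(13,0),(1,1)]⟩,⟨0,[(10,0),
  (7,0),(3,0)]⟩⟩,.o ⟨false,0,⟨0,[(20,0)]⟩,⟨1,[(13,0),(5,1),(2,0)]⟩⟩,.a ⟨true,0,⟨1,[(3,0),(6,0),(3,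
  0),(0,0)]⟩,⟨0,[(4,0)]⟩⟩ ⟨true,0,⟨0,[(24,0)]⟩,⟨0,[]⟩⟩ ⟨false,0,⟨0,[(4,0),(15,0)]⟩,⟨0,[(10,0),(7,0),
  (3,0)]⟩⟩,.o ⟨false,0,⟨0,[(10,0)]⟩,⟨1,[(4,1),(8,0),(7,0)]⟩⟩]⟩)

theorem ok0 : chk4 K KFs t0 l1 = true := by decide +kernel

noncomputable def t1 : Tre :=
  (.R ⟨0,false,false,true,[0,1,-1],[0,1],[0,0,1,1,0,0,0,-1],(⟨0,[(8,0)]⟩,⟨0,[(14,0),(1,0)]⟩),(⟨0,
  [(17,0)]⟩,⟨0,[(16,0)]⟩),⟨0,[(14,0)]⟩,.k,.k,.k,.k,.k,.k,⟨false,1,⟨1,[(1,1),(13,0),(7,0)]⟩,⟨0,[(0,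
  0),(20,0)]⟩⟩,⟨true,0,⟨0,[(6,0)]⟩,⟨0,[(12,0)]⟩⟩,⟨false,1,⟨0,[(24,0),(1,0)]⟩,⟨0,[]⟩⟩,⟨true,0,⟨0,[(9,
  0)]⟩,⟨0,[(3,0)]⟩⟩,⟨false,0,⟨0,[]⟩,⟨0,[]⟩⟩,⟨false,0,⟨0,[]⟩,⟨0,[]⟩⟩,[.a ⟨true,0,⟨0,[(21,0)]⟩,⟨0,[(0,
  0),(0,0)]⟩⟩ ⟨true,0,⟨0,[(1,0),(17,0),(0,0)]⟩,⟨0,[(0,0)]⟩⟩ ⟨false,0,⟨0,[(6,0),(14,0)]⟩,⟨1,[(5,1),
  (9,0),(6,1),(1,0)]⟩⟩,.o ⟨false,1,⟨1,[(15,0),(5,1),(2,0)]⟩,⟨0,[(22,0)]⟩⟩,.o ⟨false,1,⟨0,[(5,0),(9,
  0)]⟩,⟨0,[(11,0)]⟩⟩,.o ⟨false,1,⟨1,[(12,1),(2,0),(7,0)]⟩,⟨0,[(6,0)]⟩⟩]⟩)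

theorem ok1 : chk4 K KFs t1 l3 = true := by decide +kernel

noncomputable def t2 : Tre :=
  (.R ⟨0,false,false,true,[0,1,-1],[0,1],[0,0,1],(⟨0,[(9,0)]⟩,⟨0,[(15,0),(1,0)]⟩),(⟨0,[(18,0)]⟩,⟨0,
  [(17,0)]⟩),⟨0,[(15,0)]⟩,.k,.k,.k,.k,.k,.k,⟨false,1,⟨1,[(0,1),(15,0),(7,0)]⟩,⟨0,[(22,0)]⟩⟩,⟨true,0,
  ⟨0,[(7,0)]⟩,⟨0,[(13,0)]⟩⟩,⟨false,1,⟨0,[(3,0),(21,0)]⟩,⟨0,[(1,0)]⟩⟩,⟨true,0,⟨0,[(10,0)]⟩,⟨0,[(4,
  0)]⟩⟩,⟨false,0,⟨0,[]⟩,⟨0,[]⟩⟩,⟨false,0,⟨0,[]⟩,⟨0,[]⟩⟩,[.a ⟨true,0,⟨0,[(22,0)]⟩,⟨0,[(0,0)]⟩⟩ ⟨true,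
  0,⟨1,[(12,0),(0,0)]⟩,⟨0,[]⟩⟩ ⟨false,0,⟨0,[(7,0),(14,0)]⟩,⟨0,[(0,0),(5,0),(9,0)]⟩⟩,.o ⟨false,1,⟨1,
  [(16,0),(5,1),(2,0)]⟩,⟨0,[(23,0)]⟩⟩,.o ⟨false,1,⟨0,[(6,0),(9,0)]⟩,⟨0,[(12,0)]⟩⟩,.o ⟨false,1,⟨1,
  [(13,1),(2,0),(7,0)]⟩,⟨0,[(7,0)]⟩⟩]⟩)

theorem ok2 : chk4 K KFs t2 l4 = true := by decide +kernel

noncomputable def t3 : Tre :=
  (.R ⟨0,false,false,false,[0,0,1],[0,1],[0,0,1],(⟨0,[(17,0)]⟩,⟨0,[(16,0)]⟩),(⟨0,[(20,0)]⟩,⟨0,[(19,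
  0)]⟩),⟨0,[(11,0)]⟩,.k,.k,.k,.k,.k,.k,⟨true,0,⟨0,[(25,0)]⟩,⟨0,[(1,0)]⟩⟩,⟨false,1,⟨1,[(8,1),(9,0),
  (7,0)]⟩,⟨0,[(14,0)]⟩⟩,⟨false,0,⟨0,[(0,0)]⟩,⟨3,[(2,1),(2,1),(2,1),(3,1),(13,0),(0,2)]⟩⟩,⟨true,0,⟨0,
  [(0,0),(1,0),(5,0)]⟩,⟨0,[(5,0),(3,0)]⟩⟩,⟨false,0,⟨0,[]⟩,⟨0,[]⟩⟩,⟨false,0,⟨0,[]⟩,⟨0,[]⟩⟩,[.o
  ⟨false,1,⟨1,[(18,0),(5,1),(2,0)]⟩,⟨0,[(25,0)]⟩⟩,.o ⟨false,1,⟨0,[(2,0),(24,0)]⟩,⟨3,[(5,0),(7,0),(0,
  0),(6,0),(3,2)]⟩⟩,.a ⟨true,0,⟨0,[(9,0)]⟩,⟨1,[(8,0),(6,0),(3,0),(0,0)]⟩⟩ ⟨true,0,⟨1,[(14,0),(0,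
  0)]⟩,⟨0,[(23,0),(1,0)]⟩⟩ ⟨false,1,⟨1,[(2,0),(5,0),(6,0),(8,0),(2,1)]⟩,⟨0,[(9,0),(15,0)]⟩⟩,.e
  ⟨false,1,⟨0,[(27,0),(1,0)]⟩,⟨0,[]⟩⟩ ⟨false,1,⟨0,[(2,0),(5,0),(18,0)]⟩,⟨0,[(14,0),(10,0)]⟩⟩]⟩)

theorem ok3 : chk4 K KFs t3 l6 = true := by decide +kernel

noncomputable def t4 : Tre :=
  (.R ⟨0,false,false,false,[0,0,1],[1,-1],[1],(⟨0,[(18,0)]⟩,⟨0,[(17,0)]⟩),(⟨0,[(20,0)]⟩,⟨0,[(21,
  0)]⟩),⟨0,[(12,0)]⟩,.k,.k,.k,.k,.k,.k,⟨true,0,⟨0,[(2,0)]⟩,⟨0,[(26,0)]⟩⟩,⟨false,0,⟨1,[(9,0),(6,0),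
  (3,0),(0,0)]⟩,⟨1,[(10,1),(8,0),(7,0)]⟩⟩,⟨true,0,⟨0,[(7,0),(2,0)]⟩,⟨1,[(1,0),(11,0),(2,0)]⟩⟩,
  ⟨false,0,⟨0,[(0,0)]⟩,⟨0,[(3,0),(9,0),(14,0)]⟩⟩,⟨false,0,⟨0,[]⟩,⟨0,[]⟩⟩,⟨false,0,⟨0,[]⟩,⟨0,[]⟩⟩,
  [.o ⟨false,0,⟨0,[(26,0)]⟩,⟨1,[(19,0),(5,1),(2,0)]⟩⟩,.o ⟨false,1,⟨3,[(0,1),(5,1),(8,1),(3,0),(7,0),
  (0,1)]⟩,⟨0,[(3,0)]⟩⟩,.e ⟨true,0,⟨0,[]⟩,⟨0,[(30,0)]⟩⟩ ⟨true,0,⟨2,[(0,1),(5,0),(2,0),(3,0),(2,0)]⟩,
  ⟨0,[(3,0),(6,0)]⟩⟩,.a ⟨true,0,⟨0,[(15,0)]⟩,⟨0,[(9,0)]⟩⟩ ⟨false,1,⟨1,[(27,0),(0,0)]⟩,⟨1,[(15,0),(0,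
  0)]⟩⟩ ⟨true,0,⟨0,[(0,0),(0,0)]⟩,⟨0,[(3,0),(11,0)]⟩⟩]⟩)

theorem ok4 : chk4 K KFs t4 l7 = true := by decide +kernel

noncomputable def t5 : Tre :=
  (.R ⟨0,false,false,false,[1,0,-1],[1,-1],[],(⟨0,[(18,0)]⟩,⟨0,[(19,0)]⟩),(⟨0,[(21,0)]⟩,⟨0,[(22,
  0)]⟩),⟨0,[(12,0)]⟩,.k,.k,.k,.k,.k,.k,⟨true,0,⟨0,[(1,0),(4,0),(3,0),(13,0)]⟩,⟨0,[(27,0)]⟩⟩,⟨false,
  0,⟨0,[(11,0)]⟩,⟨0,[(17,0),(10,0)]⟩⟩,⟨false,1,⟨1,[(2,0),(11,0),(2,0),(11,1)]⟩,⟨0,[(8,0),(2,0)]⟩⟩,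
  ⟨true,0,⟨0,[(0,0)]⟩,⟨0,[(8,0),(17,0)]⟩⟩,⟨false,0,⟨0,[]⟩,⟨0,[]⟩⟩,⟨false,0,⟨0,[]⟩,⟨0,[]⟩⟩,[.o
  ⟨false,0,⟨0,[(27,0)]⟩,⟨1,[(20,0),(5,1),(2,0)]⟩⟩,.o ⟨false,1,⟨5,[(7,1),(7,1),(0,1),(10,3),(0,0),(0,
  4)]⟩,⟨0,[(4,0)]⟩⟩,.a ⟨true,0,⟨1,[(10,0),(6,0),(3,0),(0,0)]⟩,⟨0,[(11,0)]⟩⟩ ⟨false,1,⟨0,[(29,0),(1,
  0)]⟩,⟨0,[]⟩⟩ ⟨true,0,⟨0,[(11,0),(15,0)]⟩,⟨1,[(4,0),(5,0),(6,0),(8,0)]⟩⟩,.o ⟨false,0,⟨0,[(17,0)]⟩,
  ⟨1,[(11,1),(8,0),(7,0)]⟩⟩]⟩)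

theorem ok5 : chk4 K KFs t5 l8 = true := by decide +kernel

noncomputable def t6 : Tre :=
  (.Q [0,0,-2,0,1,0,0,0,-1] (.pp true [-1,1]) (.R ⟨0,false,false,true,[1,0,-1],[0,1],[1,1,1,1],(⟨0,
  [(20,0)]⟩,⟨0,[(21,0)]⟩),(⟨0,[(24,0)]⟩,⟨0,[(23,0)]⟩),⟨0,[(14,0)]⟩,.k,.k,.k,.k,.k,.k,⟨true,0,⟨0,[]⟩,
  ⟨1,[(18,0),(0,0)]⟩⟩,⟨false,1,⟨0,[(0,0),(12,0)]⟩,⟨4,[(1,1),(6,3),(0,1),(2,0),(6,3),(13,1)]⟩⟩,
  ⟨false,0,⟨0,[(1,0)]⟩,⟨1,[(8,1),(13,0),(6,1),(0,0)]⟩⟩,⟨true,0,⟨0,[(3,0)]⟩,⟨3,[(8,2),(0,0),(2,0),(4,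
  1),(1,0),(9,2)]⟩⟩,⟨false,0,⟨0,[]⟩,⟨0,[]⟩⟩,⟨false,0,⟨0,[]⟩,⟨0,[]⟩⟩,[.o ⟨false,0,⟨0,[(6,0)]⟩,⟨5,[(9,
  1),(7,1),(0,1),(10,3),(0,0),(0,4)]⟩⟩,.o ⟨false,1,⟨1,[(22,0),(5,1),(2,0)]⟩,⟨0,[(29,0)]⟩⟩,.a ⟨true,
  0,⟨4,[(1,0),(6,1),(0,0),(2,2),(6,1),(13,0)]⟩,⟨0,[(13,0)]⟩⟩ ⟨false,0,⟨0,[(5,0)]⟩,⟨1,[(29,1),(0,0),
  (0,0)]⟩⟩ ⟨true,0,⟨0,[(6,0),(6,0)]⟩,⟨1,[(8,0),(0,0),(2,0),(6,0),(9,0)]⟩⟩,.o ⟨false,0,⟨0,[(19,0)]⟩,
  ⟨1,[(13,1),(8,0),(7,0)]⟩⟩]⟩) (.K ⟨0,[1,-1,1],(-1),0,(⟨0,[(21,0),(1,0)]⟩,⟨0,[(15,0)]⟩),.k,(.r (-1)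
  ⟨1,[(4,1),(24,3),(0,0),(0,0)]⟩ ⟨4,[(5,6),(1,2),(0,0),(8,0),(0,0),(7,0)]⟩),.k,.k,.k,[⟨1,[(19,1),(2,
  0),(7,0)]⟩,⟨0,[(0,0),(12,0)]⟩,⟨0,[(6,0),(3,0)]⟩,⟨0,[(8,0),(0,0),(6,0)]⟩,⟨1,[(12,1),(9,0),(7,
  0)]⟩]⟩))

theorem ok6 : chk4 K KFs t6 l9 = true := by decide +kernel

noncomputable def t7 : Tre :=
  (.R ⟨0,false,false,true,[1,0,-1],[-1,1,1],[1,1,1,1,0,0,0,1],(⟨0,[(20,0)]⟩,⟨0,[(21,0)]⟩),(⟨0,[(14,
  0)]⟩,⟨0,[(20,0),(2,0)]⟩),⟨0,[(14,0)]⟩,.k,.k,.k,(.r 0 ⟨7,[(1,10),(5,2),(0,0),(8,0),(0,0),(7,0)]⟩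
  ⟨0,[(0,0),(30,0),(1,0)]⟩),.k,.k,⟨true,0,⟨0,[]⟩,⟨1,[(18,0),(0,0)]⟩⟩,⟨false,1,⟨0,[(1,1),(1,1),(27,
  0)]⟩,⟨10,[(0,5),(7,14),(0,5),(2,6),(4,2),(1,11)]⟩⟩,⟨true,0,⟨0,[(0,0)]⟩,⟨7,[(1,10),(5,2),(0,0),(8,
  0),(0,0),(7,0)]⟩⟩,⟨false,1,⟨0,[(3,1),(25,0),(1,0)]⟩,⟨2,[(1,0),(6,3),(3,1),(4,0),(1,2),(9,1)]⟩⟩,
  ⟨false,0,⟨0,[]⟩,⟨0,[]⟩⟩,⟨false,0,⟨0,[]⟩,⟨0,[]⟩⟩,[.e ⟨false,0,⟨1,[(0,0),(26,0)]⟩,⟨11,[(1,9),(7,1),
  (7,3),(0,3),(11,2),(0,8)]⟩⟩ ⟨false,1,⟨1,[(3,1),(9,1),(8,0),(7,0)]⟩,⟨0,[(8,0),(3,0),(6,0),(9,0)]⟩⟩,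
  .o ⟨false,1,⟨1,[(3,1),(18,0),(8,0)]⟩,⟨3,[(8,2),(0,0),(2,0),(4,1),(1,0),(9,2)]⟩⟩,.a ⟨true,0,⟨10,
  [(0,1),(7,4),(0,1),(2,5),(4,0),(1,3)]⟩,⟨0,[(13,0)]⟩⟩ ⟨true,0,⟨4,[(0,2),(4,0),(11,0),(0,0),(9,0)]⟩,
  ⟨0,[(1,0)]⟩⟩ ⟨false,1,⟨1,[(3,1),(9,1),(8,0),(8,0)]⟩,⟨0,[(8,0),(3,0),(6,0),(9,0)]⟩⟩,.o ⟨false,0,⟨0,
  [(19,0)]⟩,⟨1,[(13,1),(8,0),(7,0)]⟩⟩]⟩)

theorem ok7 : chk4 K KFs t7 l10 = true := by decide +kernel

noncomputable def t8 : Tre :=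
  (.R ⟨0,false,false,false,[0,0,1],[1,0,-1],[0,0,1],(⟨0,[(22,0)]⟩,⟨0,[(21,0)]⟩),(⟨0,[(21,0)]⟩,⟨0,
  [(22,0)]⟩),⟨0,[(16,0)]⟩,.k,.k,.k,.k,.k,.k,⟨false,1,⟨0,[(10,0),(18,0),(2,0)]⟩,⟨1,[(1,0),(26,0)]⟩⟩,
  ⟨true,0,⟨0,[(13,0),(6,0)]⟩,⟨0,[(0,0)]⟩⟩,⟨true,0,⟨5,[(0,0),(8,2),(8,2),(0,0),(7,1)]⟩,⟨0,[(5,0)]⟩⟩,
  ⟨false,0,⟨1,[(1,0),(1,0),(5,0),(3,0),(6,1)]⟩,⟨1,[(0,0),(3,0),(0,0),(4,0),(6,0),(14,1)]⟩⟩,⟨false,0,
  ⟨0,[]⟩,⟨0,[]⟩⟩,⟨false,0,⟨0,[]⟩,⟨0,[]⟩⟩,[.o ⟨false,0,⟨0,[(11,0)]⟩,⟨1,[(17,1),(5,0),(8,0)]⟩⟩,.o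
  ⟨false,1,⟨0,[(18,0),(13,0)]⟩,⟨0,[(4,0),(25,0)]⟩⟩,.e ⟨true,0,⟨1,[(19,0),(0,0)]⟩,⟨3,[(2,0),(2,0),
  (20,0),(1,0)]⟩⟩ ⟨true,0,⟨2,[(9,0),(1,0),(1,1),(4,0),(1,1)]⟩,⟨0,[(0,0),(4,0)]⟩⟩,.a ⟨true,0,⟨0,[(19,
  0)]⟩,⟨0,[(13,0)]⟩⟩ ⟨false,1,⟨0,[(32,0),(1,0)]⟩,⟨0,[]⟩⟩ ⟨true,0,⟨0,[(11,0),(1,0)]⟩,⟨4,[(0,2),(3,0),
  (5,0),(6,2),(9,0)]⟩⟩]⟩)

theorem ok8 : chk4 K KFs t8 l11 = true := by decide +kernel

open Helper55.PC in
noncomputable def t9n : Helper55.PC.Ten :=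
  (i 324637400738491769607216465051688 (r
  4319355201937255518042090919712412108243281118082860331517198279817527946106143385574494790696397801583111329992430308043925568392111109069523002938920871409066761942525880722670203297776759241274751910691752757281954665690906197664391095991374821549455155155355884372757971892393949485920126289235662360438732663541007384871957982204214740261948289053648837419528337795457219314057261474288998737461894841990144602011728391422703253793964032442800003083872581198560)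
  (r
  14569778100694826355512424774059596654394223242560641311607869593214459146138246762139651622329446841383104190631292794945913897360370125833176353520492208794680460187614454929184560676554858750542199687841796638799031187348494655037308824911224151721226403920062684709191680672481843469756210088392091145913573921586369746692442430968748704105152229906324124564682542300486537729521221539293064495751677356625610914596945713417834975600896625715512573931929168789471603139410102617645248))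

noncomputable def t9 : Tre := Helper55.PC.toT t9n

theorem ok9 : chk4 K KFs t9 l12 = true :=
  Helper81.PC.chk4N_sound K KFs t9n l12 (by decide +kernel)

noncomputable def t10 : Tre :=
  (.R ⟨0,false,false,false,[1,0,-1],[0,0,1],[0,0,1,0,0,0,0,1],(⟨0,[(18,0)]⟩,⟨0,[(19,0)]⟩),(⟨0,[(19,
  0)]⟩,⟨0,[(18,0)]⟩),⟨0,[(12,0)]⟩,.k,.k,.k,.k,.k,.k,⟨true,0,⟨1,[(16,0),(0,0)]⟩,⟨0,[]⟩⟩,⟨false,1,⟨1,
  [(11,3),(8,0),(7,0)]⟩,⟨0,[(10,0),(6,0)]⟩⟩,⟨true,1,⟨0,[(0,0),(13,0),(2,0),(11,0)]⟩,⟨6,[(1,6),(0,4),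
  (1,4),(6,13),(11,0),(0,1)]⟩⟩,⟨false,2,⟨1,[(14,3),(5,0),(8,2)]⟩,⟨0,[(1,0)]⟩⟩,⟨false,0,⟨0,[]⟩,⟨0,
  []⟩⟩,⟨false,0,⟨0,[]⟩,⟨0,[]⟩⟩,[.o ⟨false,1,⟨1,[(14,1),(5,0),(8,0)]⟩,⟨0,[(8,0)]⟩⟩,.e ⟨false,1,⟨0,
  [(0,0),(28,0)]⟩,⟨4,[(2,1),(2,1),(5,2),(3,2),(7,0)]⟩⟩ ⟨false,2,⟨1,[(11,1),(2,1),(5,0),(7,0),(0,
  1)]⟩,⟨0,[(0,0),(0,0)]⟩⟩,.a ⟨true,0,⟨1,[(10,0),(6,0),(3,0),(0,0)]⟩,⟨0,[(11,0)]⟩⟩ ⟨false,1,⟨0,[(14,
  0),(2,0),(11,0)]⟩,⟨7,[(1,0),(0,3),(2,3),(0,0),(4,2),(3,0),(4,0)]⟩⟩ ⟨true,1,⟨1,[(11,1),(2,1),(5,0),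
  (8,0)]⟩,⟨0,[(0,0),(0,0)]⟩⟩,.o ⟨false,0,⟨0,[(17,0)]⟩,⟨1,[(11,1),(8,0),(7,0)]⟩⟩]⟩)

theorem ok10 : chk4 K KFs t10 l14 = true := by decide +kernel

open Helper55.PC in
noncomputable def t11n : Helper55.PC.Ten :=
  (i 324399716250948832479249904566280 (r
  99815236042026457812911530858044788052621180175783936561929194441869786597148961699114755587682984993620583069480375682065802083347112047035304056196193674073655536503907496356477012121865922433553666310541924308800835300552751971920648945894253024074825766519287364557714181758856463074436110850679706354593054121666673183372080911881112684360240594757644986681945861270014547282798250588195143156350814297918135151353784242638844961294537366479264921489345375473105657955717411454274956074848198447186981151853715117567779348963008)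
  (r
  52050843484762171466405712210022512948259127513740953441773474437714304548688393437935746278898352693934840049239574252886810746240174058833398950460623791711942007829725751978097646232640562743667225338145996834369365428562591708989023627347129360792386338958725264255710812145534442766679031653155427805457383944887361101869282691340522483097387085251972061096099058731764940870275042681597381937813708918610692696864579659679090758033828921853707806253533571521345461174733393200524055630681164183014264048342782869792026129175919381509362840529981721506385320514687692650415683748104555494683733642104414100767760825736896))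

noncomputable def t11 : Tre := Helper55.PC.toT t11n

theorem ok11 : chk4 K KFs t11 l15 = true :=
  Helper81.PC.chk4N_sound K KFs t11n l15 (by decide +kernel)

noncomputable def t12 : Tre :=
  (.R ⟨0,false,false,true,[0,0,1],[1,0,-1],[1,1],(⟨0,[(23,0)]⟩,⟨0,[(22,0)]⟩),(⟨0,[(22,0)]⟩,⟨0,[(23,
  0)]⟩),⟨0,[(17,0)]⟩,.k,.k,.k,.k,.k,.k,⟨false,1,⟨3,[(3,0),(7,1),(2,1),(15,0),(1,0),(0,1)]⟩,⟨3,[(1,
  0),(8,1),(4,0),(3,0),(4,0)]⟩⟩,⟨true,0,⟨0,[(14,0),(6,0)]⟩,⟨0,[(0,0),(0,0)]⟩⟩,⟨true,(-1),⟨0,[(1,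
  0)]⟩,⟨0,[(11,0),(18,0),(2,0)]⟩⟩,⟨false,(-1),⟨0,[(5,0)]⟩,⟨3,[(0,1),(2,0),(7,1),(6,1),(11,0),(1,0),
  (0,3)]⟩⟩,⟨false,0,⟨0,[]⟩,⟨0,[]⟩⟩,⟨false,0,⟨0,[]⟩,⟨0,[]⟩⟩,[.a ⟨true,(-1),⟨2,[(1,0),(0,1),(7,0),(7,
  0)]⟩,⟨0,[(18,0),(14,0)]⟩⟩ ⟨false,0,⟨4,[(6,0),(20,1),(1,0)]⟩,⟨0,[(33,0),(1,0)]⟩⟩ ⟨true,(-1),⟨0,[(2,
  0)]⟩,⟨0,[(0,0)]⟩⟩,.o ⟨false,0,⟨0,[(12,0)]⟩,⟨9,[(0,3),(2,1),(7,1),(9,1),(2,0),(7,2)]⟩⟩,.a ⟨true,0,
  ⟨0,[(15,0)]⟩,⟨1,[(14,0),(6,0),(3,0),(0,0)]⟩⟩ ⟨false,0,⟨0,[]⟩,⟨0,[(33,0),(1,0)]⟩⟩ ⟨true,(-1),⟨0,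
  [(2,0)]⟩,⟨8,[(0,6),(2,0),(2,0),(8,1),(11,2),(4,0)]⟩⟩,.a ⟨true,0,⟨0,[(20,0)]⟩,⟨0,[(14,0)]⟩⟩ ⟨true,
  0,⟨4,[(6,0),(20,1),(1,0)]⟩,⟨1,[(20,0),(0,0)]⟩⟩ ⟨false,0,⟨1,[(5,0),(8,0),(6,0),(10,0)]⟩,⟨0,[(0,
  0)]⟩⟩]⟩)

theorem ok12 : chk4 K KFs t12 l18 = true := by decide +kernel

noncomputable def t13 : Tre :=
  (.R ⟨0,false,false,false,[1,0,-1],[0,0,1],[0,0,1,0,0,0,0,1],(⟨0,[(21,0)]⟩,⟨0,[(22,0)]⟩),(⟨0,[(22,
  0)]⟩,⟨0,[(21,0)]⟩),⟨0,[(15,0)]⟩,.k,.k,.k,.k,.k,.k,⟨true,0,⟨1,[(19,0),(0,0)]⟩,⟨0,[]⟩⟩,⟨false,1,⟨1,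
  [(14,3),(8,0),(7,0)]⟩,⟨0,[(13,0),(6,0)]⟩⟩,⟨true,1,⟨0,[(0,0),(16,0),(2,0)]⟩,⟨6,[(4,6),(0,4),(1,4),
  (6,13),(11,0),(0,1)]⟩⟩,⟨false,2,⟨3,[(2,1),(7,1),(6,1),(1,1),(11,0),(0,4)]⟩,⟨0,[(4,0)]⟩⟩,⟨false,0,
  ⟨0,[]⟩,⟨0,[]⟩⟩,⟨false,0,⟨0,[]⟩,⟨0,[]⟩⟩,[.o ⟨false,1,⟨5,[(2,1),(7,1),(8,1),(3,0),(7,0),(0,1)]⟩,⟨0,
  [(11,0)]⟩⟩,.e ⟨false,1,⟨0,[(0,0)]⟩,⟨0,[(3,0),(22,0)]⟩⟩ ⟨false,2,⟨3,[(2,1),(2,0),(13,3),(10,0),(0,
  2),(0,2)]⟩,⟨0,[(1,0)]⟩⟩,.a ⟨true,0,⟨1,[(13,0),(6,0),(3,0),(0,0)]⟩,⟨0,[(14,0)]⟩⟩ ⟨false,1,⟨1,[(0,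
  1),(18,0),(0,0)]⟩,⟨2,[(3,1),(1,0),(2,0),(17,0)]⟩⟩ ⟨true,1,⟨3,[(2,1),(2,0),(13,3),(10,0),(0,0),(0,
  0)]⟩,⟨0,[(1,0)]⟩⟩,.o ⟨false,0,⟨0,[(20,0)]⟩,⟨1,[(14,1),(8,0),(7,0)]⟩⟩]⟩)

theorem ok13 : chk4 K KFs t13 r17 = true := by decide +kernel

noncomputable def t14 : Tre :=
  (.R ⟨0,false,false,false,[1,0,-1],[0,0,1],[0,0,1,0,0,0,0,1],(⟨0,[(20,0)]⟩,⟨0,[(21,0)]⟩),(⟨0,[(21,
  0)]⟩,⟨0,[(20,0)]⟩),⟨0,[(14,0)]⟩,.k,.k,.k,.k,.k,.k,⟨true,0,⟨1,[(18,0),(0,0)]⟩,⟨0,[]⟩⟩,⟨false,1,⟨1,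
  [(13,3),(8,0),(7,0)]⟩,⟨0,[(12,0),(6,0)]⟩⟩,⟨true,1,⟨0,[(0,0),(11,0),(3,0),(2,1)]⟩,⟨6,[(3,6),(0,4),
  (1,4),(6,13),(11,0),(0,1)]⟩⟩,⟨false,2,⟨3,[(1,1),(7,1),(6,1),(1,1),(11,0),(0,4)]⟩,⟨0,[(3,0)]⟩⟩,
  ⟨false,0,⟨0,[]⟩,⟨0,[]⟩⟩,⟨false,0,⟨0,[]⟩,⟨0,[]⟩⟩,[.o ⟨false,1,⟨5,[(1,1),(7,1),(8,1),(3,0),(7,0),(0,
  1)]⟩,⟨0,[(10,0)]⟩⟩,.a ⟨true,1,⟨0,[(16,0),(14,0)]⟩,⟨0,[(3,0),(12,0)]⟩⟩ ⟨false,1,⟨0,[(0,0),(11,0),
  (6,0)]⟩,⟨0,[(2,0),(22,0)]⟩⟩ ⟨true,1,⟨0,[(0,0)]⟩,⟨0,[(3,0),(12,0),(2,0)]⟩⟩,.e ⟨false,1,⟨0,[(16,0),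
  (2,0),(11,0)]⟩,⟨2,[(2,1),(1,0),(2,0),(17,0)]⟩⟩ ⟨false,1,⟨0,[(0,0)]⟩,⟨7,[(3,0),(4,1),(3,4),(4,3),
  (1,4),(11,0)]⟩⟩,.o ⟨false,0,⟨0,[(19,0)]⟩,⟨1,[(13,1),(8,0),(7,0)]⟩⟩]⟩)

theorem ok14 : chk4 K KFs t14 r16 = true := by decide +kernel

noncomputable def t15 : Tre :=
  (.R ⟨0,false,false,false,[0,0,1],[1,0,-1],[1],(⟨0,[(15,0)]⟩,⟨0,[(14,0)]⟩),(⟨0,[(14,0)]⟩,⟨0,[(15,
  0)]⟩),⟨0,[(9,0)]⟩,.k,.k,.k,.k,.k,.k,⟨false,1,⟨2,[(2,0),(0,0),(2,0),(3,0),(11,0),(1,0),(0,1)]⟩,⟨0,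
  [(4,0),(2,0)]⟩⟩,⟨true,0,⟨0,[(6,0),(6,0)]⟩,⟨0,[(0,0)]⟩⟩,⟨true,0,⟨0,[(4,0),(2,0)]⟩,⟨2,[(2,0),(3,0),
  (3,1),(2,0)]⟩⟩,⟨false,0,⟨0,[(1,0)]⟩,⟨0,[(2,0),(4,0),(2,0),(14,0)]⟩⟩,⟨false,0,⟨0,[]⟩,⟨0,[]⟩⟩,
  ⟨false,0,⟨0,[]⟩,⟨0,[]⟩⟩,[.o ⟨false,0,⟨0,[(4,0)]⟩,⟨1,[(10,1),(5,0),(8,0)]⟩⟩,.o ⟨false,1,⟨0,[(11,0),
  (13,0)]⟩,⟨0,[(2,0),(4,0)]⟩⟩,.e ⟨true,0,⟨0,[]⟩,⟨0,[(27,0)]⟩⟩ ⟨true,0,⟨1,[(1,0),(4,0),(6,0),(13,
  0)]⟩,⟨0,[(2,0),(4,1)]⟩⟩,.a ⟨true,0,⟨0,[(12,0)]⟩,⟨0,[(6,0)]⟩⟩ ⟨false,1,⟨1,[(24,0),(0,0)]⟩,⟨1,[(12,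
  0),(0,0)]⟩⟩ ⟨true,0,⟨0,[(4,0),(1,0)]⟩,⟨4,[(0,2),(1,0),(7,3),(9,0)]⟩⟩]⟩)

theorem ok15 : chk4 K KFs t15 l20 = true := by decide +kernel

noncomputable def t16 : Tre :=
  (.R ⟨0,false,false,true,[1,0,-1],[0,0,1],[1,1],(⟨0,[(15,0)]⟩,⟨0,[(16,0)]⟩),(⟨0,[(16,0)]⟩,⟨0,[(15,
  0)]⟩),⟨0,[(9,0)]⟩,.k,.k,.k,.k,.k,.k,⟨true,0,⟨0,[(5,0),(2,0)]⟩,⟨0,[(0,0)]⟩⟩,⟨false,1,⟨1,[(8,3),(8,
  0),(7,0)]⟩,⟨1,[(1,1),(11,0),(0,0)]⟩⟩,⟨true,0,⟨4,[(0,0),(0,0),(1,0),(0,0),(6,1),(11,0)]⟩,⟨0,[(5,0),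
  (2,0)]⟩⟩,⟨false,1,⟨0,[(3,0),(4,0),(2,0),(14,0)]⟩,⟨0,[(2,0)]⟩⟩,⟨false,0,⟨0,[]⟩,⟨0,[]⟩⟩,⟨false,0,⟨0,
  []⟩,⟨0,[]⟩⟩,[.o ⟨false,0,⟨0,[(3,0),(4,0)]⟩,⟨0,[(12,0),(13,0)]⟩⟩,.o ⟨false,1,⟨1,[(11,1),(5,0),(8,
  0)]⟩,⟨0,[(5,0)]⟩⟩,.a ⟨true,0,⟨0,[(1,0),(11,0)]⟩,⟨0,[(8,0)]⟩⟩ ⟨false,0,⟨0,[]⟩,⟨0,[(26,0),(1,0)]⟩⟩
  ⟨true,0,⟨0,[(3,0),(4,1)]⟩,⟨3,[(1,1),(0,1),(10,0),(0,0),(13,1)]⟩⟩,.o ⟨false,0,⟨0,[(14,0)]⟩,⟨1,[(8,
  1),(8,0),(7,0)]⟩⟩]⟩)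

theorem ok16 : chk4 K KFs t16 l21 = true := by decide +kernel

noncomputable def t17 : Tre :=
  (.R ⟨0,false,false,false,[0,0,1],[1,0,-1],[1,1],(⟨0,[(15,0)]⟩,⟨0,[(14,0)]⟩),(⟨0,[(14,0)]⟩,⟨0,[(15,
  0)]⟩),⟨0,[(9,0)]⟩,.k,.k,.k,.k,.k,.k,⟨false,0,⟨2,[(1,0),(0,0),(3,1),(14,0),(1,0)]⟩,⟨0,[(7,0),(3,0),
  (13,0)]⟩⟩,⟨true,0,⟨0,[(6,0),(6,0)]⟩,⟨0,[(0,0)]⟩⟩,⟨false,0,⟨0,[(4,0),(2,0)]⟩,⟨2,[(2,0),(3,0),(3,1),
  (2,0),(11,2)]⟩⟩,⟨true,0,⟨0,[(4,1),(12,0),(0,0)]⟩,⟨0,[(1,0)]⟩⟩,⟨false,0,⟨0,[]⟩,⟨0,[]⟩⟩,⟨false,0,⟨0,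
  []⟩,⟨0,[]⟩⟩,[.o ⟨false,0,⟨0,[(4,0)]⟩,⟨1,[(10,1),(5,0),(8,0)]⟩⟩,.o ⟨false,1,⟨0,[(11,0),(13,0)]⟩,⟨3,
  [(0,0),(0,0),(0,1),(18,0),(1,0)]⟩⟩,.a ⟨true,0,⟨0,[(7,0)]⟩,⟨1,[(6,0),(6,0),(3,0),(0,0)]⟩⟩ ⟨false,0,
  ⟨0,[]⟩,⟨0,[(25,0),(1,0)]⟩⟩ ⟨true,0,⟨1,[(4,1),(1,0),(6,0),(3,0),(0,0)]⟩,⟨1,[(0,0),(0,0),(19,0),(1,
  0)]⟩⟩,.e ⟨true,0,⟨0,[(21,0),(1,0)]⟩,⟨1,[(12,0),(0,0)]⟩⟩ ⟨true,0,⟨0,[(4,0),(1,0)]⟩,⟨9,[(0,4),(0,1),
  (8,5),(8,0),(0,2)]⟩⟩]⟩)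

theorem ok17 : chk4 K KFs t17 l22 = true := by decide +kernel

noncomputable def t18 : Tre :=
  (.R ⟨0,false,false,false,[1,0,-1],[0,0,1],[0,0,1,0,0,0,0,1],(⟨0,[(15,0)]⟩,⟨0,[(16,0)]⟩),(⟨0,[(16,
  0)]⟩,⟨0,[(15,0)]⟩),⟨0,[(9,0)]⟩,.k,.k,.k,.k,.k,.k,⟨true,0,⟨1,[(13,0),(0,0)]⟩,⟨0,[]⟩⟩,⟨false,1,⟨1,
  [(8,3),(8,0),(7,0)]⟩,⟨1,[(1,1),(11,0),(0,0)]⟩⟩,⟨true,0,⟨0,[(0,0)]⟩,⟨0,[(5,1),(2,1),(13,0),(1,
  0)]⟩⟩,⟨false,1,⟨0,[(2,0),(23,0)]⟩,⟨0,[(5,1),(12,0),(0,0)]⟩⟩,⟨false,0,⟨0,[]⟩,⟨0,[]⟩⟩,⟨false,0,⟨0,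
  []⟩,⟨0,[]⟩⟩,[.o ⟨false,1,⟨1,[(11,1),(5,0),(8,0)]⟩,⟨0,[(5,0)]⟩⟩,.o ⟨false,1,⟨3,[(2,1),(14,0),(8,
  2)]⟩,⟨0,[(12,0)]⟩⟩,.a ⟨true,0,⟨0,[(1,0),(11,0)]⟩,⟨0,[(8,0)]⟩⟩ ⟨true,0,⟨3,[(0,1),(12,0),(0,0)]⟩,⟨0,
  [(5,0),(2,0),(13,0),(1,0)]⟩⟩ ⟨false,1,⟨3,[(2,1),(5,3),(8,0),(8,2)]⟩,⟨0,[(1,0),(3,0),(7,0)]⟩⟩,.o
  ⟨false,0,⟨0,[(14,0)]⟩,⟨1,[(8,1),(8,0),(7,0)]⟩⟩]⟩)

theorem ok18 : chk4 K KFs t18 l23 = true := by decide +kernel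

noncomputable def t19 : Tre :=
  (.R ⟨0,false,false,true,[0,0,1],[1,0,-1],[1,1],(⟨0,[(16,0)]⟩,⟨0,[(15,0)]⟩),(⟨0,[(15,0)]⟩,⟨0,[(16,
  0)]⟩),⟨0,[(10,0)]⟩,.k,.k,.k,.k,.k,.k,⟨false,0,⟨0,[(1,0),(5,0),(4,0)]⟩,⟨1,[(12,1),(0,1),(11,0),(0,
  0)]⟩⟩,⟨true,0,⟨0,[(7,0),(6,0)]⟩,⟨0,[(0,0)]⟩⟩,⟨true,0,⟨0,[(8,0),(3,0)]⟩,⟨9,[(1,2),(1,0),(0,0),(2,
  3),(3,1),(2,3)]⟩⟩,⟨false,1,⟨0,[(12,1),(5,0),(0,0),(6,0)]⟩,⟨0,[(1,0)]⟩⟩,⟨false,0,⟨0,[]⟩,⟨0,[]⟩⟩,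
  ⟨false,0,⟨0,[]⟩,⟨0,[]⟩⟩,[.o ⟨false,0,⟨0,[(12,0)]⟩,⟨7,[(1,1),(9,3),(5,2),(8,4)]⟩⟩,.o ⟨false,1,⟨0,
  [(12,0),(13,0),(1,0)]⟩,⟨0,[(1,0),(10,0)]⟩⟩,.a ⟨true,0,⟨0,[(8,0)]⟩,⟨1,[(7,0),(6,0),(3,0),(0,0)]⟩⟩
  ⟨false,0,⟨0,[]⟩,⟨0,[(26,0),(1,0)]⟩⟩ ⟨true,0,⟨1,[(7,0),(4,1),(1,0),(3,0),(0,0)]⟩,⟨2,[(0,1),(0,0),
  (0,0),(19,0)]⟩⟩,.e ⟨true,0,⟨1,[(2,0),(5,0),(3,0),(9,0)]⟩,⟨1,[(13,0),(0,0)]⟩⟩ ⟨true,0,⟨0,[(7,0),(4,
  0)]⟩,⟨8,[(0,3),(0,2),(9,2),(1,0),(7,1)]⟩⟩]⟩)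

theorem ok19 : chk4 K KFs t19 l28 = true := by decide +kernel

noncomputable def t20 : Tre :=
  (.R ⟨0,false,false,false,[1,0,-1],[0,0,1],[0,0,1,0,0,0,0,1],(⟨0,[(16,0)]⟩,⟨0,[(17,0)]⟩),(⟨0,[(17,
  0)]⟩,⟨0,[(16,0)]⟩),⟨0,[(10,0)]⟩,.k,.k,.k,.k,.k,.k,⟨true,0,⟨1,[(14,0),(0,0)]⟩,⟨0,[]⟩⟩,⟨false,1,⟨1,
  [(9,3),(8,0),(7,0)]⟩,⟨2,[(1,1),(13,1),(3,0),(0,0)]⟩⟩,⟨true,(-1),⟨0,[(0,0)]⟩,⟨1,[(9,3),(3,3),(12,
  0),(0,0)]⟩⟩,⟨false,0,⟨0,[(2,0)]⟩,⟨0,[(13,1),(5,0),(0,0),(6,0)]⟩⟩,⟨false,0,⟨0,[]⟩,⟨0,[]⟩⟩,⟨false,0,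
  ⟨0,[]⟩,⟨0,[]⟩⟩,[.o ⟨false,0,⟨0,[(2,0),(10,0)]⟩,⟨0,[(13,0),(13,0),(1,0)]⟩⟩,.o ⟨false,1,⟨7,[(2,1),
  (9,3),(5,2),(8,4)]⟩,⟨0,[(13,0)]⟩⟩,.a ⟨true,0,⟨2,[(1,0),(13,0),(3,1),(0,1)]⟩,⟨0,[(9,0)]⟩⟩ ⟨false,0,
  ⟨3,[(0,1),(13,0),(0,0),(11,1)]⟩,⟨1,[(9,1),(3,1),(12,0),(0,0)]⟩⟩ ⟨true,0,⟨0,[(2,0),(6,0),(3,0)]⟩,
  ⟨2,[(1,0),(11,2),(1,0),(3,1),(0,1)]⟩⟩,.o ⟨false,0,⟨0,[(15,0)]⟩,⟨1,[(9,1),(8,0),(7,0)]⟩⟩]⟩)

theorem ok20 : chk4 K KFs t20 l29 = true := by decide +kernel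

open Helper55.PC in
noncomputable def t21n : Helper55.PC.Ten :=
  (q 190310890042104825079960486786925716439049 (q 190310890042104825079960630866925124976649 (r
  99812253385511417452093108589134070615429698276559494416754892456787883877847049437663678365066940482255450729540971426305985917208252025646877423077914807517767880993776077318062542785574188908271570483638904986705510731503062243495731052094236182933845783177870309751252252779564615723108200724082047204670725107900331718874557545301403059590716520569450032959619367044313580258535321419032782866018876627334844921454801096388682206507163839514030411482329488413440196291615888902184620471618261329193857521384262620557970643346080)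
  (k
  15594585428112108610843046385065063500013082686602496210377855481218846946727321544420773897659033259172775567737093792830950699790022744956281754502695426450397592688849187139110328322849880))
  (r
  63828610666548211050666584855398278552671483638103995925477427581590176622707137762347032454528646931386578537589453880544998857260641085674334147522091855094525958749460725854778315089296851928888187693021277448865310492962499170689503506266696747225276447000381836025375831544307752103993001461324764261649827629187167904265034901439023852331513510181143558200610474692779022133275877956648474942152332029038269482453598973498204467708442752280728735954605353457053427064595542184452600644423024912082819923172658159434525253945981669068540862451688128))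

noncomputable def t21 : Tre := Helper55.PC.toT t21n

theorem ok21 : chk4 K KFs t21 l30 = true :=
  Helper81.PC.chk4N_sound K KFs t21n l30 (by decide +kernel)

open Helper55.PC in
noncomputable def t22n : Helper55.PC.Ten :=
  (q 40440022846330498717107110772340131624041428919326558994475679612938 (q
  190310890042104825079960630884517311021065 (r
  75494699766537497453217522638752833408954178841495128550432277461536602407496220870833123024068553843302207173885648994432892367177734168405804611036292647167505172363520865842861178023612569021193015992180966472158847143664904379277977327061923423946455839736501094757658527093286537459820401942824856748708925100383644490860331214882604926337227138290869906793957847527353933399919344380792238583699193225440)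
  (k
  1022006750684740812937377177154162245925877702718185687391977652528266603429526668168658384312800905243273631884344426879008115898463357390430572907257122981707663857551544025975800426457623264344))
  (q 431388765806673391050110836197239096536831312867076128220176719937546 (i 72083985538351140
  (r
  424656717054280035007259678832825177262715258043043061862061166829847837608444538783063833320807288689267991361813883843653099411002213832106289012642228868093963064739842265164716242738221237476307264866330355358247746006871470102261691245416356040397943112511423291482380540851715810300907220970595661172020037316944321207026565155380918937077570728173334064749797791714868509711788604174191444832074001379497019576845944345113974330881761504)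
  (r
  179418995585221956282421294798645662139856346860197089755382219802532639555171500055546338388839553554906597859061381776744312603156849953205669934446893683648249440025715319028759608004589298419043796561367049183745210726928668267141939043458990631057518934286582618862750721294905048243517854691717642062782008588058821520097102019755895435014761440862140508454190670573065657579429411171238440627866794732730198081852158744497004340787254867809597223408524653348780132032060448852285181787253777120))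
  (i 324637400738491769642405131845672 (q 190310890042104825079960630884517311021065 (r
  6978188196941184039401793643802313218643360040124150468505859396717195744416501666394187199547514139527016295655326309530244146657834889969225683401167845436722672509973058305492849469657936924235854548553823299606707552389350426874309866908773406474854372723876336083026927515220326208810175428452925696602094553535965591692314352239448889379460773397868167644912392081358316631398874381898496859703354305621326561936798912999972465828064)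
  (r
  7565696204337115330379843797082021658008196980730775107763198150447079054098211251862307732539693207643220303005380996485958222654353922680820702421719250149626483762782245143924577806963692454802822887926690343166610146847517619840647177665520297633949974817249808487792736085819575947451596309423650499814840253094349649935582101471790289293250595424556807866864357470816700819256483187337761883090859433306772883952124763216409858531749464591204947871151598242299660894332902157698379071285473321372207127794220277952))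
  (i 72101579871879172 (r
  80443804105633395001325620892715756745934219053629381305017173430350997260246283012981477490468682791379169341560655745349197542188273091347434810833836546181542508610521850611371837639467686027591997135283878243412775778627941524577696604141513351063208959739725562840346225205181544500263561441989010855222511961614562816046726378105441948462196522129875173675535110416994782416018239358462460489030366572641535045760984268923508199661403360953553362806116481995801985556869614363966144656712126027856973310642850830593737831552432444783051205290555613376)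
  (k
  4039825468455072375729221034421376632954915232161884509367653549306227575522860155391812025309756040005969619684620850285228416769710043804957798542886077405672970486787874051895334938862175429346851788674120514713)))))

noncomputable def t22 : Tre := Helper55.PC.toT t22n

theorem ok22 : chk4 K KFs t22 l32 = true :=
  Helper81.PC.chk4N_sound K KFs t22n l32 (by decide +kernel)

open Helper55.PC in
noncomputable def t23n : Helper55.PC.Ten :=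
  (i 324478944413463240967220191690760 (r
  183517449236212036985158558870587857657012285130777800200060322421386689933767562740256340338328985631399170224657212498378548624410763672936781310563819098977561268151418178073732232743521531931930531242308354317134323205615840127104791093671766836933762761313691154629299155446926921293717833128381098356563683116993601854153503982199112535400672)
  (i 324637400738491769642407279329288 (r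
  2846858071813436739132473126470898367645865556642763985855524570126892575272186993933277829969586548022406250555582547093434751512365238954061673455541500122213198527275307248175634746748996634834984004096009391447692719704340811891919648767967568627422934108766507659483159127241456190772826993046833415417715295143553566778464846778696520030337545674208397485876622431646425365573319699968541547234803756253462197068186219339017103857750545722478928632858735760010241590225436622215341229874712865830956218136559630268214526490570782519441252816910985218062295744)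
  (r
  16340163969773071144261715612639526655574929998450748229247385535568676827755125696692637409058106276689544031280959240582461873692069625134331613002407794064214729946872049064330819600074461318853858495568505341933113199041885873803980696900674665153723568980975249866523508442335510231171068400354838012860734978241190136811527989117839467781981530469160320307095075498146689849340085186644817844639555198614409351527840929302562432580968148664326184427117160975913246673300963478235524895860764547461427548078298556539616)))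

noncomputable def t23 : Tre := Helper55.PC.toT t23n

theorem ok23 : chk4 K KFs t23 l33 = true :=
  Helper81.PC.chk4N_sound K KFs t23n l33 (by decide +kernel)

open Helper55.PC in
noncomputable def t24n : Helper55.PC.Ten :=
  (i 324637400738491769624812945801224 (r
  20337018005330796929978567258480920393582161085787179107887395259430265559995528813396927216897055749218331971797927590730303115667950742828635526086090167189693107796736693297819081752025922988615235038273790975158605650254062815393463543878134804091665357911025573394993374505992441958147843790136358059594076737202039894605168297573966644053202681621633833792128852614313740553616368761654623470091476602312765007299222783505159384604338534012996836274185446112)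
  (r
  1100866347476911118834851064754266735261848152519927703831658027115135548475470870892137014450394227792179015184401250333706747504163842014009014387219120858971130872841655839458922704840991109185904137380557860785789634365083802388367320344518332543759100297727023127857875120018594257270276029982054694410061884533495364838782154338390581110874955865626330565539437864424819189971770576719245821973842708708489146456524812598051685915962276138702306361388705154458057687687363559685007794927032685705946734816))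

noncomputable def t24 : Tre := Helper55.PC.toT t24n

theorem ok24 : chk4 K KFs t24 l34 = true :=
  Helper81.PC.chk4N_sound K KFs t24n l34 (by decide +kernel)

open Helper55.PC in
noncomputable def t25n : Helper55.PC.Ten :=
  (i 324478944413463240949625857900584 (r
  4684517931215671668457015303574068275283544844139238587335277204399804139394564186544319085791985998535487402873648094904622420361485373985137809866737878395607786667056202428451425412198019666780905262573969510535979906158517969635769200756495690031821611870814151998384851968617830278477057552387482764551748485243629786717670040915308921924850705661510484999052708901248135655379206929589728441561666094404514016981148040395729473155720395529509029902580282100047310341974439320972910097593346306847487165571715067395741984963277409777912091921098089078968115864194093981524313982470136136045690472491767620782210782810874592)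
  (r
  26398958675261332204784724471220525401193074652626773796746480487608855384541385507332953357911165838872844554074994285283394104341556881938750313166590931303937403683559794279678907762443493403026988308870868118085166849661585266919422741824244731259048246834548325772566881346789550820305412921515310412111870703169040960185305889166068503388754531023400922833419087271984614103542505249798765083423633903289876165525787455373911000640950774727052101876497064893814347773341217943935160415953600))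

noncomputable def t25 : Tre := Helper55.PC.toT t25n

theorem ok25 : chk4 K KFs t25 l36 = true :=
  Helper81.PC.chk4N_sound K KFs t25n l36 (by decide +kernel)

noncomputable def t26 : Tre :=
  (.R ⟨0,false,false,true,[0,0,1],[1,0,-1],[1],(⟨0,[(24,0)]⟩,⟨0,[(23,0)]⟩),(⟨0,[(23,0)]⟩,⟨0,[(24,
  0)]⟩),⟨0,[(18,0)]⟩,.k,.k,.k,.k,.k,.k,⟨false,1,⟨6,[(1,0),(9,1),(0,1),(2,2),(3,0),(13,1),(0,4)]⟩,⟨9,
  [(0,4),(3,0),(4,4),(18,1),(1,0)]⟩⟩,⟨true,0,⟨0,[(3,0),(7,0)]⟩,⟨0,[(0,0)]⟩⟩,⟨false,1,⟨3,[(0,1),(8,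
  1),(23,0),(0,2)]⟩,⟨1,[(1,0),(1,0),(7,0)]⟩⟩,⟨true,0,⟨0,[(9,0)]⟩,⟨0,[(1,0)]⟩⟩,⟨false,0,⟨0,[]⟩,⟨0,
  []⟩⟩,⟨false,0,⟨0,[]⟩,⟨0,[]⟩⟩,[.o ⟨false,0,⟨0,[(20,0)]⟩,⟨2,[(1,0),(17,0),(5,0),(8,1)]⟩⟩,.a ⟨true,0,
  ⟨0,[(5,0),(1,0)]⟩,⟨0,[(13,0)]⟩⟩ ⟨false,1,⟨1,[(33,0),(0,0)]⟩,⟨6,[(9,0),(9,1),(8,1),(0,0)]⟩⟩ ⟨true,
  0,⟨0,[(3,0),(1,0)]⟩,⟨5,[(0,1),(0,2),(19,1),(7,0)]⟩⟩,.a ⟨true,0,⟨0,[(16,0)]⟩,⟨2,[(3,1),(7,0),(1,0),
  (17,0)]⟩⟩ ⟨true,0,⟨0,[]⟩,⟨6,[(9,0),(9,1),(8,1),(0,0)]⟩⟩ ⟨false,0,⟨0,[(3,0),(1,0)]⟩,⟨4,[(0,1),(0,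
  0),(4,0),(12,2),(14,3)]⟩⟩,.a ⟨true,0,⟨0,[(21,0)]⟩,⟨0,[(15,0)]⟩⟩ ⟨false,1,⟨1,[(33,0),(0,0)]⟩,⟨1,
  [(21,0),(0,0)]⟩⟩ ⟨true,0,⟨6,[(4,0),(4,4),(0,0),(0,1),(3,3)]⟩,⟨5,[(0,1),(0,2),(19,1),(7,0)]⟩⟩]⟩)

theorem ok26 : chk4 K KFs t26 l38 = true := by decide +kernel

noncomputable def t27 : Tre :=
  (.R ⟨0,false,false,false,[1,0,-1],[0,0,1],[1,0,1],(⟨0,[(22,0)]⟩,⟨0,[(23,0)]⟩),(⟨0,[(23,0)]⟩,⟨0,
  [(22,0)]⟩),⟨0,[(16,0)]⟩,.k,.k,.k,.k,.k,.k,⟨true,0,⟨1,[(0,0),(14,1),(12,0)]⟩,⟨0,[(1,0),(0,0)]⟩⟩,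
  ⟨false,1,⟨1,[(5,0),(9,0),(4,1),(11,0)]⟩,⟨0,[(2,0),(7,0)]⟩⟩,⟨true,0,⟨0,[(12,0),(8,0)]⟩,⟨1,[(3,0),
  (0,0),(3,0),(6,1)]⟩⟩,⟨false,1,⟨5,[(1,2),(5,0),(3,1),(0,1),(5,1),(1,1),(12,4)]⟩,⟨0,[(0,0)]⟩⟩,
  ⟨false,0,⟨0,[]⟩,⟨0,[]⟩⟩,⟨false,0,⟨0,[]⟩,⟨0,[]⟩⟩,[.e ⟨false,0,⟨0,[]⟩,⟨7,[(8,1),(9,3),(5,0),(7,3),
  (0,2)]⟩⟩ ⟨false,1,⟨1,[(5,0),(9,0),(2,1),(14,0)]⟩,⟨1,[(0,0),(1,0),(7,0)]⟩⟩,.o ⟨false,1,⟨11,[(1,2),
  (3,0),(5,2),(6,2),(1,1),(3,1),(8,8)]⟩,⟨0,[(19,0)]⟩⟩,.a ⟨true,0,⟨2,[(2,1),(7,0),(1,0),(17,0)]⟩,⟨0,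
  [(15,0)]⟩⟩ ⟨true,0,⟨1,[(20,0),(0,0)]⟩,⟨4,[(3,0),(23,1),(1,0)]⟩⟩ ⟨false,1,⟨1,[(1,0),(5,0),(12,1),
  (12,0)]⟩,⟨1,[(0,0),(1,0),(7,0)]⟩⟩,.o ⟨false,0,⟨0,[(21,0)]⟩,⟨5,[(5,1),(14,3),(3,0),(7,2)]⟩⟩]⟩)

theorem ok27 : chk4 K KFs t27 r37 = true := by decide +kernel

noncomputable def t28 : Tre :=
  (.R ⟨0,false,false,true,[0,0,1],[1,0,-1],[1],(⟨0,[(24,0)]⟩,⟨0,[(23,0)]⟩),(⟨0,[(23,0)]⟩,⟨0,[(24,
  0)]⟩),⟨0,[(18,0)]⟩,.k,.k,.k,.k,.k,.k,⟨false,1,⟨5,[(10,1),(0,1),(3,1),(3,1),(13,0),(0,4)]⟩,⟨8,[(1,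
  6),(7,0),(11,1),(6,3),(0,0)]⟩⟩,⟨true,0,⟨0,[(15,0),(6,0)]⟩,⟨0,[(0,0),(0,0)]⟩⟩,⟨true,0,⟨0,[(1,0)]⟩,
  ⟨8,[(11,1),(0,1),(2,1),(3,4),(2,2),(5,0)]⟩⟩,⟨false,0,⟨0,[(2,0)]⟩,⟨9,[(0,4),(5,0),(3,2),(0,2),(1,
  3),(5,4),(14,8)]⟩⟩,⟨false,0,⟨0,[]⟩,⟨0,[]⟩⟩,⟨false,0,⟨0,[]⟩,⟨0,[]⟩⟩,[.o ⟨false,0,⟨0,[(20,0)]⟩,⟨27,
  [(0,7),(5,3),(4,5),(0,5),(6,7),(5,2),(8,20)]⟩⟩,.a ⟨true,0,⟨2,[(2,0),(4,0),(23,0)]⟩,⟨0,[(13,0)]⟩⟩
  ⟨false,1,⟨1,[(33,0),(0,0)]⟩,⟨6,[(9,0),(9,1),(8,1),(0,0)]⟩⟩ ⟨true,0,⟨1,[(2,0),(12,0),(6,0)]⟩,⟨0,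
  [(0,0)]⟩⟩,.a ⟨true,0,⟨0,[(16,0)]⟩,⟨3,[(7,0),(5,0),(1,1),(6,1),(8,0)]⟩⟩ ⟨true,0,⟨0,[]⟩,⟨6,[(9,0),
  (9,1),(8,1),(0,0)]⟩⟩ ⟨false,0,⟨1,[(2,0),(12,0),(6,0)]⟩,⟨1,[(0,1),(32,0),(0,0)]⟩⟩,.a ⟨true,0,⟨0,
  [(21,0)]⟩,⟨0,[(15,0)]⟩⟩ ⟨false,1,⟨1,[(33,0),(0,0)]⟩,⟨1,[(21,0),(0,0)]⟩⟩ ⟨true,0,⟨6,[(4,0),(4,4),
  (0,0),(0,1),(3,3)]⟩,⟨0,[(0,0)]⟩⟩]⟩)

theorem ok28 : chk4 K KFs t28 l41 = true := by decide +kernel

noncomputable def t29 : Tre :=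
  (.R ⟨0,false,false,true,[0,0,1],[1,0,-1],[1],(⟨0,[(25,0)]⟩,⟨0,[(24,0)]⟩),(⟨0,[(24,0)]⟩,⟨0,[(25,
  0)]⟩),⟨0,[(19,0)]⟩,.k,.k,.k,.k,.k,.k,⟨false,1,⟨5,[(11,1),(0,1),(3,1),(3,1),(13,0),(0,4)]⟩,⟨2,[(0,
  0),(1,0),(7,0),(18,0)]⟩⟩,⟨true,0,⟨0,[(16,0),(6,0)]⟩,⟨0,[(0,0)]⟩⟩,⟨true,0,⟨0,[(2,0)]⟩,⟨8,[(12,1),
  (0,1),(2,1),(3,4),(2,2),(5,0)]⟩⟩,⟨false,0,⟨0,[(3,0)]⟩,⟨1,[(4,0),(8,0),(0,0),(5,0),(14,1)]⟩⟩,
  ⟨false,0,⟨0,[]⟩,⟨0,[]⟩⟩,⟨false,0,⟨0,[]⟩,⟨0,[]⟩⟩,[.o ⟨false,0,⟨0,[(21,0)]⟩,⟨5,[(4,1),(8,1),(6,1),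
  (5,0),(8,4)]⟩⟩,.e ⟨false,1,⟨1,[(34,0),(0,0)]⟩,⟨6,[(10,0),(9,1),(8,1),(0,0)]⟩⟩ ⟨false,0,⟨0,[(1,
  0)]⟩,⟨3,[(0,1),(19,3),(5,0),(7,0),(0,1)]⟩⟩,.a ⟨true,0,⟨0,[(17,0)]⟩,⟨3,[(8,0),(5,0),(1,1),(6,1),(8,
  0)]⟩⟩ ⟨true,0,⟨0,[]⟩,⟨6,[(10,0),(9,1),(8,1),(0,0)]⟩⟩ ⟨false,0,⟨5,[(1,2),(1,0),(4,0),(14,2),(8,
  0)]⟩,⟨9,[(0,3),(3,0),(2,1),(5,0),(0,2),(5,4),(14,7)]⟩⟩,.e ⟨false,1,⟨1,[(34,0),(0,0)]⟩,⟨1,[(22,0),
  (0,0)]⟩⟩ ⟨false,0,⟨0,[(1,0)]⟩,⟨23,[(0,11),(3,1),(8,1),(6,19),(5,0),(3,5),(4,22)]⟩⟩]⟩)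

theorem ok29 : chk4 K KFs t29 l42 = true := by decide +kernel

noncomputable def t30 : Tre :=
  (.N [0,0,1] 0 ⟨0,[(0,0)]⟩ ⟨0,[(3,0)]⟩ .k)

theorem ok30 : chk4 K KFs t30 l43 = true := by decide +kernel

noncomputable def t31 : Tre :=
  (.R ⟨0,false,false,true,[1,0,-1],[-1,1,1],[1,1,1,1,0,0,0,1],(⟨0,[(26,0)]⟩,⟨0,[(27,0)]⟩),(⟨0,[(20,
  0)]⟩,⟨0,[(26,0),(2,0)]⟩),⟨0,[(20,0)]⟩,.k,.k,.k,(.r 0 ⟨1,[(4,3),(2,0),(27,0)]⟩ ⟨3,[(2,0),(11,0),(1,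
  2),(5,3),(2,4),(8,2),(2,3)]⟩),.k,.k,⟨true,0,⟨0,[]⟩,⟨1,[(24,0),(0,0)]⟩⟩,⟨false,1,⟨0,[(9,0),(9,0)]⟩,
  ⟨5,[(2,1),(7,4),(5,4),(8,7),(8,4)]⟩⟩,⟨true,0,⟨3,[(2,0),(11,0),(1,6),(8,4),(8,2)]⟩,⟨1,[(4,3),(2,0),
  (27,0)]⟩⟩,⟨false,1,⟨11,[(6,7),(7,5),(0,1),(6,7),(5,0),(8,10)]⟩,⟨0,[(0,0)]⟩⟩,⟨false,0,⟨0,[]⟩,⟨0,
  []⟩⟩,⟨false,0,⟨0,[]⟩,⟨0,[]⟩⟩,[.a ⟨true,0,⟨2,[(6,0),(7,0),(1,0),(17,0)]⟩,⟨0,[(10,0)]⟩⟩ ⟨false,0,⟨3,
  [(2,0),(11,0),(1,2),(8,0),(8,2)]⟩,⟨5,[(0,2),(8,1),(1,2),(12,3),(3,0)]⟩⟩ ⟨true,0,⟨0,[(6,0)]⟩,⟨0,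
  [(10,0),(14,0)]⟩⟩,.o ⟨false,1,⟨4,[(6,1),(7,1),(7,0),(5,1),(5,0),(2,2)]⟩,⟨2,[(10,0),(1,0),(22,
  1)]⟩⟩,.e ⟨true,0,⟨0,[(16,0),(8,0),(8,0)]⟩,⟨1,[(4,1),(2,0),(27,0)]⟩⟩ ⟨true,0,⟨0,[(6,0)]⟩,⟨8,[(2,1),
  (7,5),(1,3),(2,2),(6,1),(2,1)]⟩⟩,.o ⟨false,0,⟨0,[(25,0)]⟩,⟨5,[(9,1),(14,3),(3,0),(7,2)]⟩⟩]⟩)

theorem ok31 : chk4 K KFs t31 r44 = true := by decide +kernel

noncomputable def t32 : Tre :=
  (.R ⟨0,false,false,false,[1,0,-1],[0,0,1],[1,0,1],(⟨0,[(22,0)]⟩,⟨0,[(23,0)]⟩),(⟨0,[(23,0)]⟩,⟨0,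
  [(22,0)]⟩),⟨0,[(16,0)]⟩,.k,.k,.k,.k,.k,.k,⟨true,0,⟨1,[(1,0),(13,1),(12,0)]⟩,⟨0,[(0,0)]⟩⟩,⟨false,1,
  ⟨1,[(5,0),(9,0),(4,1),(11,0)]⟩,⟨0,[(14,0),(6,0)]⟩⟩,⟨true,0,⟨1,[(0,1),(19,0),(0,0)]⟩,⟨8,[(1,0),(0,
  2),(0,3),(4,4),(6,5),(13,0)]⟩⟩,⟨false,1,⟨1,[(2,0),(8,0),(0,0),(5,0),(14,1)]⟩,⟨0,[(1,0)]⟩⟩,⟨false,
  0,⟨0,[]⟩,⟨0,[]⟩⟩,⟨false,0,⟨0,[]⟩,⟨0,[]⟩⟩,[.e ⟨false,0,⟨0,[]⟩,⟨7,[(8,1),(9,3),(5,0),(7,3),(0,2)]⟩⟩
  ⟨false,1,⟨1,[(5,0),(9,0),(2,1),(14,0)]⟩,⟨1,[(1,0),(12,0),(6,0)]⟩⟩,.o ⟨false,1,⟨5,[(2,1),(8,1),(6,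
  1),(5,0),(8,4)]⟩,⟨0,[(19,0)]⟩⟩,.a ⟨true,0,⟨2,[(0,0),(5,0),(7,0),(6,0),(8,0)]⟩,⟨0,[(15,0)]⟩⟩ ⟨true,
  0,⟨1,[(20,0),(0,0)]⟩,⟨4,[(3,0),(23,1),(1,0)]⟩⟩ ⟨false,1,⟨5,[(2,0),(2,1),(5,0),(0,2),(5,0),(1,3),
  (12,3)]⟩,⟨1,[(1,0),(12,0),(6,0)]⟩⟩,.o ⟨false,0,⟨0,[(21,0)]⟩,⟨5,[(5,1),(14,3),(3,0),(7,2)]⟩⟩]⟩)

theorem ok32 : chk4 K KFs t32 r40 = true := by decide +kernel

noncomputable def t33 : Tre :=
  (.R ⟨0,false,false,false,[0,0,1],[2,-1,-1],[1],(⟨0,[(23,0)]⟩,⟨0,[(22,0)]⟩),(⟨0,[(22,0),(2,0)]⟩,⟨0,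
  [(16,0)]⟩),⟨0,[(17,0)]⟩,.k,.k,.k,(.r 0 ⟨1,[(0,2),(8,0)]⟩ ⟨2,[(5,2),(0,1),(1,1),(11,2),(10,0)]⟩),
  .k,.k,⟨true,0,⟨0,[(0,0)]⟩,⟨0,[(3,0),(0,0),(1,0),(8,0),(12,0)]⟩⟩,⟨false,0,⟨4,[(0,3),(5,1),(1,1),(2,
  1),(2,3)]⟩,⟨0,[(5,0),(14,0)]⟩⟩,⟨false,1,⟨3,[(5,0),(2,1),(6,0),(4,1),(12,2)]⟩,⟨1,[(0,0),(8,0)]⟩⟩,
  ⟨true,0,⟨2,[(6,1),(1,1),(22,0)]⟩,⟨1,[(1,0),(0,0),(7,0)]⟩⟩,⟨false,0,⟨0,[]⟩,⟨0,[]⟩⟩,⟨false,0,⟨0,[]⟩,
  ⟨0,[]⟩⟩,[.o ⟨false,0,⟨2,[(6,0),(1,0),(22,1)]⟩,⟨3,[(0,1),(1,1),(21,1),(7,0),(0,0)]⟩⟩,.e ⟨false,1,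
  ⟨1,[(32,0),(0,0)]⟩,⟨6,[(8,0),(9,1),(8,1),(0,0)]⟩⟩ ⟨false,1,⟨0,[(6,0),(14,0),(10,0)]⟩,⟨0,[(2,0)]⟩⟩,
  .e ⟨true,0,⟨0,[]⟩,⟨6,[(8,0),(9,1),(8,1),(0,0)]⟩⟩ ⟨true,0,⟨4,[(0,0),(5,2),(1,2),(2,2),(2,0)]⟩,⟨0,
  [(2,0)]⟩⟩,.a ⟨true,0,⟨0,[(20,0)]⟩,⟨0,[(14,0)]⟩⟩ ⟨false,1,⟨1,[(32,0),(0,0)]⟩,⟨19,[(0,2),(5,2),(1,
  0),(9,1),(1,2),(7,6)]⟩⟩ ⟨true,0,⟨1,[(6,0),(1,0),(0,0),(4,0)]⟩,⟨11,[(0,0),(1,9),(15,0),(1,2),(7,3),
  (1,0)]⟩⟩]⟩)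

theorem ok33 : chk4 K KFs t33 l45 = true := by decide +kernel

noncomputable def t34 : Tre :=
  (.R ⟨0,false,false,true,[1,0,-1],[-1,1,1],[0,1],(⟨0,[(23,0)]⟩,⟨0,[(24,0)]⟩),(⟨0,[(17,0)]⟩,⟨0,[(23,
  0),(2,0)]⟩),⟨0,[(17,0)]⟩,.k,.k,.k,(.x 0 ⟨13,[(0,7),(6,3),(1,3),(2,3),(1,6),(0,8),(1,13),(4,6)]⟩
  ⟨6,[(1,3),(1,3),(2,4),(14,0),(1,13),(2,6),(2,2),(4,1)]⟩),.k,.k,⟨true,0,⟨0,[(1,0)]⟩,⟨0,[(0,0)]⟩⟩,
  ⟨false,1,⟨0,[(6,0),(9,0)]⟩,⟨6,[(0,5),(6,2),(1,2),(2,2),(2,4)]⟩⟩,⟨false,0,⟨1,[(2,0),(12,0),(6,0)]⟩,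
  ⟨3,[(6,0),(2,1),(6,0),(4,1),(12,2)]⟩⟩,⟨true,0,⟨1,[(2,0),(0,0),(7,0)]⟩,⟨2,[(7,1),(1,1),(22,0)]⟩⟩,
  ⟨false,0,⟨0,[]⟩,⟨0,[]⟩⟩,⟨false,0,⟨0,[]⟩,⟨0,[]⟩⟩,[.a ⟨true,0,⟨3,[(2,0),(0,0),(7,0),(19,1)]⟩,⟨0,[(7,
  0)]⟩⟩ ⟨false,0,⟨4,[(4,0),(23,1),(1,0)]⟩,⟨7,[(9,1),(9,3),(5,0),(8,6)]⟩⟩ ⟨true,0,⟨0,[(3,0)]⟩,⟨0,[(7,
  0),(14,0)]⟩⟩,.o ⟨false,1,⟨0,[(0,0),(5,0)]⟩,⟨2,[(7,0),(1,0),(22,1)]⟩⟩,.e ⟨true,0,⟨6,[(9,0),(9,1),
  (8,1),(0,0)]⟩,⟨0,[]⟩⟩ ⟨true,0,⟨0,[(3,0)]⟩,⟨6,[(0,0),(6,3),(1,3),(2,3),(2,1)]⟩⟩,.o ⟨false,0,⟨0,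
  [(22,0)]⟩,⟨5,[(6,1),(14,3),(3,0),(7,2)]⟩⟩]⟩)

theorem ok34 : chk4 K KFs t34 l46 = true := by decide +kernel

noncomputable def t35 : Tre :=
  (.R ⟨0,false,false,true,[0,0,1],[1,0,-1],[1],(⟨0,[(26,0)]⟩,⟨0,[(25,0)]⟩),(⟨0,[(25,0)]⟩,⟨0,[(26,
  0)]⟩),⟨0,[(20,0)]⟩,.k,.k,.k,.k,.k,.k,⟨false,1,⟨6,[(4,0),(8,1),(0,1),(2,2),(3,0),(13,1),(0,4)]⟩,
  ⟨12,[(0,5),(1,0),(8,5),(18,2),(1,0)]⟩⟩,⟨true,0,⟨0,[(17,0),(6,0)]⟩,⟨0,[(0,0)]⟩⟩,⟨false,1,⟨3,[(0,1),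
  (10,1),(23,0),(0,2)]⟩,⟨1,[(4,0),(12,0),(6,0)]⟩⟩,⟨true,0,⟨0,[(11,0)]⟩,⟨0,[(4,0)]⟩⟩,⟨false,0,⟨0,[]⟩,
  ⟨0,[]⟩⟩,⟨false,0,⟨0,[]⟩,⟨0,[]⟩⟩,[.o ⟨false,0,⟨0,[(22,0)]⟩,⟨2,[(4,0),(16,0),(5,0),(8,1)]⟩⟩,.e
  ⟨false,1,⟨1,[(35,0),(0,0)]⟩,⟨6,[(11,0),(9,1),(8,1),(0,0)]⟩⟩ ⟨false,1,⟨4,[(11,2),(5,1),(3,0),(2,2),
  (10,2),(0,1)]⟩,⟨0,[(1,0)]⟩⟩,.e ⟨true,0,⟨0,[]⟩,⟨6,[(11,0),(9,1),(8,1),(0,0)]⟩⟩ ⟨true,0,⟨6,[(11,3),
  (5,2),(3,0),(2,3),(5,0)]⟩,⟨0,[(1,0)]⟩⟩,.a ⟨true,0,⟨0,[(23,0)]⟩,⟨0,[(17,0)]⟩⟩ ⟨false,1,⟨1,[(35,0),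
  (0,0)]⟩,⟨1,[(23,0),(0,0)]⟩⟩ ⟨true,0,⟨6,[(6,0),(4,4),(0,0),(0,1),(3,3)]⟩,⟨5,[(0,1),(3,2),(18,1),(7,
  0)]⟩⟩]⟩)

theorem ok35 : chk4 K KFs t35 l48 = true := by decide +kernel

noncomputable def t36 : Tre :=
  (.R ⟨0,false,false,true,[0,0,1],[1,0,-1],[1],(⟨0,[(26,0)]⟩,⟨0,[(25,0)]⟩),(⟨0,[(25,0)]⟩,⟨0,[(26,
  0)]⟩),⟨0,[(20,0)]⟩,.k,.k,.k,.k,.k,.k,⟨false,1,⟨6,[(4,0),(8,1),(0,1),(2,2),(3,0),(13,1),(0,4)]⟩,
  ⟨12,[(0,5),(1,0),(8,5),(18,2),(1,0)]⟩⟩,⟨true,0,⟨0,[(17,0),(6,0)]⟩,⟨0,[(0,0)]⟩⟩,⟨false,1,⟨3,[(0,1),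
  (10,1),(23,0),(0,2)]⟩,⟨1,[(4,0),(12,0),(6,0)]⟩⟩,⟨true,0,⟨0,[(11,0)]⟩,⟨0,[(4,0)]⟩⟩,⟨false,0,⟨0,[]⟩,
  ⟨0,[]⟩⟩,⟨false,0,⟨0,[]⟩,⟨0,[]⟩⟩,[.o ⟨false,0,⟨0,[(22,0)]⟩,⟨2,[(4,0),(16,0),(5,0),(8,1)]⟩⟩,.a
  ⟨true,0,⟨2,[(0,0),(0,1),(7,0),(22,0)]⟩,⟨0,[(15,0)]⟩⟩ ⟨false,1,⟨1,[(35,0),(0,0)]⟩,⟨6,[(11,0),(9,1),
  (8,1),(0,0)]⟩⟩ ⟨true,0,⟨0,[(1,0)]⟩,⟨5,[(0,1),(3,2),(18,1),(7,0)]⟩⟩,.a ⟨true,0,⟨0,[(18,0)]⟩,⟨3,[(9,
  0),(5,0),(1,1),(6,1),(8,0)]⟩⟩ ⟨true,0,⟨0,[]⟩,⟨6,[(11,0),(9,1),(8,1),(0,0)]⟩⟩ ⟨false,0,⟨0,[(1,0)]⟩,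
  ⟨4,[(0,1),(3,0),(3,0),(12,2),(14,3)]⟩⟩,.a ⟨true,0,⟨0,[(23,0)]⟩,⟨0,[(17,0)]⟩⟩ ⟨false,1,⟨1,[(35,0),
  (0,0)]⟩,⟨1,[(23,0),(0,0)]⟩⟩ ⟨true,0,⟨4,[(1,1),(4,0),(4,1),(1,0),(3,1),(12,0)]⟩,⟨5,[(0,1),(3,2),
  (18,1),(7,0)]⟩⟩]⟩)

theorem ok36 : chk4 K KFs t36 l49 = true := by decide +kernel

open Helper55.PC in
noncomputable def t37n : Helper55.PC.Ten :=
  (q
  1064705162872924673200505320423049901596562023526741676397525612948173041992901481162164098471845775886264580186277273474212252745738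
  (r
  1000292143321067667043025418463019407482905490118196956158052274011418732297743315751521377361420667632001799966198324854306039949344124164470900807107027598345861975396394108233787383690795541318126029190408262416771831853763453066885806318543073837739429853940568574808450044317022749882244527672178660788930831246531802509305642553896426803656341904927473886377715398852404267240270266929500861071180810000415552389903949951278311327908958759079748945837930421061046756986462412150832914579210188173181540505317874232915944842096058689134816)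
  (q
  1064705162914240671249895857857544676700195363109470414883830491738319915400068813760870210881395835924101006054513197961959933345802
  (q
  1064705162955556669299286395292039451803828702692199153370135370528466788807236146359576323639437572389170552896101869382349661274122
  (r
  9540334392400996653705604869400492408749286357488043901573569264746828820672804300957924107265506195443722296310798828740176812675095210832448443053935683076774257914995806547878824078525748109056416777944964976305531509506095796437771632194811949612605168547731723064836014768460918099491746756871610024166120385673792038313806720671462883699785542543198392580133731244907484591347065303056419018276268686466283729852074291896248055187270890877992861389712362706722272008008236589346655778503256967400298845718199763993693869962973136333487746983241298251026563548316883465669113412647882724886449781683713566284046230156703807465857248)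
  (r
  17435077625781909979745129412294412631412669138469858767301245007560795478199247997186263018336899549923117573608144272994933866867775802836982221941436390296537856517892058656032124232332296332942570597778530536774663875351797000620912245019725889889132030064575213344294151643444198755345934655298800227501237500893588160334529503764458026320363874004892406687771413214840592839860235267250278348576110930435070791617849222386487194547384418978349932086041789824378315452558096668359678940892602680586331045492104550741513519519002238822826759114088441344307843141162770656))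
  (r
  21787805318749357929690179033294606808427149577410704705963945912806238488001692424546572160577871446540382702640431979955837676593154847734447868665345393286779325070725070905237286702328002643808983946861805919350366311422396805040453128448097288191548293473075748390142570943860487088272541065538075782953415745450356699811383544857665781495210411343248577633622896245460843843580500532886277069744137932779101271826289080486360106984461029893546786876412820165000584859783818112173623829399006945078415607883096833364925058632510527827911747178677487127049966110656643410414018784)))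

noncomputable def t37 : Tre := Helper55.PC.toT t37n

theorem ok37 : chk4 K KFs t37 l50 = true :=
  Helper81.PC.chk4N_sound K KFs t37n l50 (by decide +kernel)

open Helper55.PC in
noncomputable def t38n : Helper55.PC.Ten :=
  (q 431388765806673391050110836371474300926323118358927628738352730210314 (r
  8638710404449174300369131565555038012043756000675118557384325843113927247810687771715858625877551023907441113988563571705140527710124052781819170392446075298064382767829119512634847930663185980140634322707271459673958604191671863080155442626597372550509978684067186861641490965964051794727587252103291950500154085447138440282794365044817841885239004795470252435872455559476209649432246999092227698623733840619231923245048897723495995545480322000439240529183908831936)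
  (r
  717675982317017247034788268230513331978496654273678548495783710944669415010786165115401603151980644573667820377967495009833497042227761846578733868672953973621160749814590044637759319570693077508307558323533057404349778647009725617696745431066853001477369441392731524923489345237443353094971172214925011844967636051112237502073102628149647830564646342158957227296104428257877826500971054821244594568591584147748988797933375577249619328991610020079119427795872847126497771151633798615964706845568541376))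

noncomputable def t38 : Tre := Helper55.PC.toT t38n

theorem ok38 : chk4 K KFs t38 l51 = true :=
  Helper81.PC.chk4N_sound K KFs t38n l51 (by decide +kernel)

noncomputable def t39 : Tre :=
  (.K ⟨0,[2,-1,-1],(-1),0,(⟨0,[(19,0),(2,0)]⟩,⟨0,[(13,0)]⟩),.k,(.r (-1) ⟨0,[(1,0),(4,0),(21,0)]⟩ ⟨0,
  [(0,0),(2,0),(23,0),(2,0)]⟩),.k,(.r (-1) ⟨0,[(1,0),(26,0)]⟩ ⟨4,[(0,2),(5,0),(0,5),(1,2),(20,2)]⟩),
  .k,[⟨0,[(12,0),(8,0)]⟩,⟨0,[(0,0)]⟩,⟨0,[(3,0)]⟩,⟨8,[(0,7),(0,3),(2,3),(0,1),(9,2),(8,3),(3,4)]⟩,⟨3,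
  [(1,0),(1,1),(0,2),(7,1),(13,0)]⟩]⟩)

theorem ok39 : chk4 K KFs t39 l52 = true := by decide +kernel

open Helper55.PC in
noncomputable def t40n : Helper55.PC.Ten :=
  (q 190310890042104825079960630884517311021065 (r
  31596185312852274913791556028474902539030688820018959270804515368405458933420037494270144681685345250691947914406232241058552258278493409643273922818763306600593659783190991113964465657019400523643549754436492360907183028123931213439642508481911367169943598578612419143327295164033201470569143234294637230049728197671804854052852436924856775786197644735573980937478368)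
  (i 72083985538351140 (r
  2321092480649541817361556700879165793290455895955313045960874267619509301332025720814804708017573164885574127115963000821211274499415023529410878872283570966290309288381683606696590235593710725334087273954346439165846360764759530646828506342056473696721273892216003833280540783003156089150884906081231721668544804069014404943589690205785583083296053979119512771388294287233603578815455039347818785343262762092349614382624403103968)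
  (r
  3548130539253135049991000620661951196622551531301038301397042162527038521341496147794514935809185552760201747622920323744379133368571160050875051798237967705354104850646958060869391458494059444725925714834084238960347099576230512585061841044735854046548413761189489093808455834815506333172615219882698822704835958632473458843255657853427408016652432100336366771920857165479765755722870311077367441135734758697891288988839997213644515811633610206209749663935710880416)))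

noncomputable def t40 : Tre := Helper55.PC.toT t40n

theorem ok40 : chk4 K KFs t40 r26 = true :=
  Helper81.PC.chk4N_sound K KFs t40n r26 (by decide +kernel)

open Helper55.PC in
noncomputable def t41n : Helper55.PC.Ten :=
  (q 190310890042104825079960630884517311021065 (r
  7623035989599171213902151559202807759974416932917071571391353555691706674491086518320698988545093070357042288901353111784925398026707552824082766367068576643334414447678748382503572055015810343593691096853721261837853840555699279591365802394313364932576764214864264118045930423489617169160537078672366735715200274648692893539072068803001693908138582909104474273001217666880313778400)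
  (i 324399716250948976594437980422152 (r
  7908177738854907406900291562764204287365300982940419237860995474694709932369322033044141502139978253365424790739466179586066893371722618694055054567380537473191732671025041018652298530677608044186986167596025888009135386370604172850985758469532929803462615149792556675111757091343290890616188611065502835808186088573694020801275265220411056047857673737620836625403049734836034752856386812310944343418451713271595565107479303055468922151805907154842439400494637251809571374703452074794037212584514219324074749555458946426350669770030305149351825075055374908546752)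
  (r
  3407370454231312595427806691761072499250070711184353725692229221874687426460829308533653757353086183079237578612985261275531330049909937650775349011130044595209922180142390924528727495493471770153718013084846540609411734775959095688667547045229883513088404663776386695009351812554980080097058907544717800705045751579433756514956767703038027940827071519604036968882852086465504201481384402390245457991737189414648036932985293281240556224)))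

noncomputable def t41 : Tre := Helper55.PC.toT t41n

theorem ok41 : chk4 K KFs t41 r25 = true :=
  Helper81.PC.chk4N_sound K KFs t41n r25 (by decide +kernel)

noncomputable def t42 : Tre :=
  (.R ⟨0,false,false,false,[1,0,-1],[1,-1],[],(⟨0,[(11,0)]⟩,⟨0,[(12,0)]⟩),(⟨0,[(14,0)]⟩,⟨0,[(15,
  0)]⟩),⟨0,[(5,0)]⟩,.k,.k,.k,.k,.k,.k,⟨true,0,⟨0,[(0,0),(0,0),(8,0)]⟩,⟨0,[(20,0)]⟩⟩,⟨false,0,⟨0,[(4,
  0)]⟩,⟨0,[(10,0),(10,0)]⟩⟩,⟨false,1,⟨3,[(1,1),(1,1),(3,1),(2,1),(2,0),(8,2)]⟩,⟨0,[(0,0),(19,0)]⟩⟩,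
  ⟨true,0,⟨0,[(1,0),(18,0)]⟩,⟨1,[(0,0),(7,0),(1,0),(7,0)]⟩⟩,⟨false,0,⟨0,[]⟩,⟨0,[]⟩⟩,⟨false,0,⟨0,[]⟩,
  ⟨0,[]⟩⟩,[.o ⟨false,0,⟨0,[(20,0)]⟩,⟨1,[(13,0),(5,1),(2,0)]⟩⟩,.e ⟨false,1,⟨1,[(21,0),(0,0)]⟩,⟨0,
  [(24,0)]⟩⟩ ⟨false,1,⟨1,[(4,1),(15,1),(0,0),(0,0)]⟩,⟨0,[(10,0),(7,0)]⟩⟩,.a ⟨true,0,⟨1,[(3,0),(6,0),
  (3,0),(0,0)]⟩,⟨0,[(4,0)]⟩⟩ ⟨false,1,⟨0,[(22,0),(1,0)]⟩,⟨0,[]⟩⟩ ⟨true,0,⟨0,[(4,0),(15,0)]⟩,⟨0,[(10,
  0),(7,0)]⟩⟩,.o ⟨false,0,⟨0,[(10,0)]⟩,⟨1,[(4,1),(8,0),(7,0)]⟩⟩]⟩)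

theorem ok42 : chk4 K KFs t42 r24 = true := by decide +kernel

theorem cl0 : Clo4 K KFs HH r10 :=
  .q [0,0,1,0,0,0,2,0,-1,2] (e' := [0,0,-1,0,0,0,-2,0,1,-2]) (.p true [0,0,1] [1,0,-1] (⟨0,[(21,
  0)]⟩,⟨0,[(20,0)]⟩) .k 2 (⟨0,[(20,0)]⟩,⟨0,[(21,0)]⟩) .k (.r (-1) ⟨0,[(4,0),(11,0),(2,0),(11,0)]⟩
  ⟨1,[(0,0),(6,0),(9,0),(0,0)]⟩)) (by decide +kernel) (by decide +kernel) (.t t8 ok8) (.h (Or.inl rfl))

theorem cl1 : Clo4 K KFs HH r9 :=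
  .i [1,1,1,1,0,0,0,2] (e' := [0,-1,-1,-1,0,0,0,-2]) (by decide +kernel) (by decide +kernel) (.t t7
  ok7) cl0

theorem cl2 : Clo4 K KFs HH r8 :=
  .i [1,0,1,1,0,0,0,1] (e' := [0,0,-1,-1,0,0,0,-1]) (by decide +kernel) (by decide +kernel) (.t t6
  ok6) cl1

theorem cl3 : Clo4 K KFs HH r7 :=
  .q [0,0,0,-1,0,0,1,1,0,1] (e' := [0,0,0,1,0,0,-1,-1,0,-1]) (.p true [0,0,1] [] (⟨0,[(18,0)]⟩,⟨0,
  [(17,0)]⟩) .k 0 (⟨0,[]⟩,⟨0,[]⟩) .k .k) (by decide +kernel) (by decide +kernel) (.t t5 ok5) cl2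

theorem cl4 : Clo4 K KFs HH r6 :=
  .q [0,-1,0,-1,0,0,-1,-1,1,-1] (e' := [0,1,0,1,0,0,1,1,-1,1]) (.p false [0,0,1] [1] (⟨0,[(17,0)]⟩,
  ⟨0,[(16,0)]⟩) .k 1 (⟨0,[]⟩,⟨0,[]⟩) .k .k) (by decide +kernel) (by decide +kernel) (.t t4 ok4) cl3

theorem cl5 : Clo4 K KFs HH l5 :=
  .i [0,-1,1,0,0,0,0,-1] (e' := [1,1,-1,0,0,0,0,1]) (by decide +kernel) (by decide +kernel) (.t t3
  ok3) cl4

theorem cl6 : Clo4 K KFs HH l17 :=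
  .q [0,-1,1,0,1,0,2,1,-1,2] (e' := [0,1,-1,0,-1,0,-2,-1,1,-2]) (.p true [0,0,1] [1,0,-1] (⟨0,[(22,
  0)]⟩,⟨0,[(21,0)]⟩) .k 2 (⟨0,[(21,0)]⟩,⟨0,[(22,0)]⟩) .k (.r (-2) ⟨0,[(10,1),(18,1),(2,1)]⟩ ⟨0,[(0,
  0),(2,0)]⟩)) (by decide +kernel) (by decide +kernel) (.t t12 ok12) (.h (Or.inr (Or.inl rfl)))

theorem cl7 : Clo4 K KFs HH l16 :=
  .i [1,1,0,0,-1,0,0,-1] (e' := [0,-1,0,0,1,0,0,1]) (by decide +kernel) (by decide +kernel) cl6 (.t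
  t13 ok13)

theorem cl8 : Clo4 K KFs HH r15 :=
  .q [0,1,0,0,-1,0,-2,-1,1,-2] (e' := [0,-1,0,0,1,0,2,1,-1,2]) (.p false [0,0,1] [1,0,-1] (⟨0,[(20,
  0)]⟩,⟨0,[(19,0)]⟩) .k 2 (⟨0,[(19,0)]⟩,⟨0,[(20,0)]⟩) .k (.x (-1) ⟨0,[(12,1),(6,1),(1,0)]⟩ ⟨0,[(10,
  0),(0,0),(6,0)]⟩)) (by decide +kernel) (by decide +kernel) cl7 (.t t14 ok14)

theorem cl9 : Clo4 K KFs HH r14 :=
  .q [0,-1,0,-1,-1,0,-2,-2,2,-2] (e' := [0,1,0,1,1,0,2,2,-2,2]) (.p false [0,0,1] [2,-1,-1] (⟨0,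
  [(19,0)]⟩,⟨0,[(18,0)]⟩) .k 2 (⟨0,[(18,0),(2,0)]⟩,⟨0,[(12,0)]⟩) .k (.x (-1) ⟨0,[(11,1),(6,1),(1,
  0)]⟩ ⟨0,[(9,0),(0,0),(6,0)]⟩)) (by decide +kernel) (by decide +kernel) (.t t11 ok11) cl8

theorem cl10 : Clo4 K KFs HH l13 :=
  .i [1,1,0,0,0,0,0,1] (e' := [0,-1,0,0,0,0,0,-1]) (by decide +kernel) (by decide +kernel) (.t t10
  ok10) cl9

theorem cl11 : Clo4 K KFs HH r12 :=
  .q [0,0,0,0,-1,0,-2,-2,1,-2] (e' := [0,0,0,0,1,0,2,2,-1,2]) (.p false [0,0,1] [1,0,-1] (⟨0,[(17,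
  0)]⟩,⟨0,[(16,0)]⟩) .k 2 (⟨0,[(16,0)]⟩,⟨0,[(17,0)]⟩) .k (.x (-1) ⟨0,[(9,1),(6,1),(1,0)]⟩ ⟨0,[(7,0),
  (0,0),(6,0)]⟩)) (by decide +kernel) (by decide +kernel) cl10 (.h (Or.inr (Or.inr (Or.inl rfl))))

theorem cl12 : Clo4 K KFs HH r5 :=
  .i [0,0,2,1] (e' := [1,0,-2,-1]) (by decide +kernel) (by decide +kernel) (.t t9 ok9) cl11

theorem cl13 : Clo4 K KFs HH r4 :=
  .i [1,0,1,1] (e' := [0,0,-1,-1]) (by decide +kernel) (by decide +kernel) cl5 cl12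

theorem cl14 : Clo4 K KFs HH r3 :=
  .q [0,-1,0,-1,0,0,0,0,1] (e' := [0,1,0,1,0,0,0,0,-1]) (.pp false [-1,1]) (by decide +kernel)
  (by decide +kernel) (.t t2 ok2) cl13

theorem cl15 : Clo4 K KFs HH l2 :=
  .i [1,0,0,-1,0,0,0,1] (e' := [0,0,0,1,0,0,0,-1]) (by decide +kernel) (by decide +kernel) (.t t1
  ok1) cl14

theorem cl16 : Clo4 K KFs HH r20 :=
  .i [0,0,1,0,0,0,0,1] (e' := [1,0,-1,0,0,0,0,-1]) (by decide +kernel) (by decide +kernel) (.t t16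
  ok16) (.h (Or.inr (Or.inr (Or.inr (Or.inl rfl)))))

theorem cl17 : Clo4 K KFs HH l19 :=
  .q [0,0,1,0,0,0,2,0,-1,2] (e' := [0,0,-1,0,0,0,-2,0,1,-2]) (.p true [0,0,1] [1,0,-1] (⟨0,[(14,
  0)]⟩,⟨0,[(13,0)]⟩) .k 2 (⟨0,[(13,0)]⟩,⟨0,[(14,0)]⟩) .k (.r (-1) ⟨2,[(1,1),(3,1),(3,3),(2,1),(11,
  2)]⟩ ⟨0,[(3,1),(2,1)]⟩)) (by decide +kernel) (by decide +kernel) (.t t15 ok15) cl16

theorem cl18 : Clo4 K KFs HH r22 :=
  .i [0,0,1,0,0,0,0,2] (e' := [1,0,-1,0,0,0,0,-2]) (by decide +kernel) (by decide +kernel) (.t t18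
  ok18) (.h (Or.inr (Or.inr (Or.inr (Or.inr (Or.inl rfl))))))

theorem cl19 : Clo4 K KFs HH r19 :=
  .q [0,0,1,0,0,0,2,0,-1,2] (e' := [0,0,-1,0,0,0,-2,0,1,-2]) (.p true [0,0,1] [1,0,-1] (⟨0,[(14,
  0)]⟩,⟨0,[(13,0)]⟩) .k 2 (⟨0,[(13,0)]⟩,⟨0,[(14,0)]⟩) .k (.r (-1) ⟨2,[(1,1),(3,1),(3,3),(2,1),(11,
  2)]⟩ ⟨0,[(3,1),(2,1)]⟩)) (by decide +kernel) (by decide +kernel) (.t t17 ok17) cl18

theorem cl20 : Clo4 K KFs HH r2 :=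
  .q [0,-1,0,0,0,0,-2,-2,1,-2] (e' := [0,1,0,0,0,0,2,2,-1,2]) (.p false [0,0,1] [1,0,-1] (⟨0,[(13,
  0)]⟩,⟨0,[(12,0)]⟩) .k 2 (⟨0,[(12,0)]⟩,⟨0,[(13,0)]⟩) .k (.r (-1) ⟨2,[(0,1),(3,1),(3,3),(2,1),(11,
  2)]⟩ ⟨0,[(2,1),(2,1)]⟩)) (by decide +kernel) (by decide +kernel) cl17 cl19

theorem cl21 : Clo4 K KFs HH r1 :=
  .q [0,-1,0,0,0,0,0,-1,1] (e' := [0,1,0,0,0,0,0,1,-1]) (.pp false [-1,1]) (by decide +kernel)
  (by decide +kernel) cl15 cl20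

theorem cl22 : Clo4 K KFs HH l0 :=
  .i [1,-1,0,1,0,0,0,-1] (e' := [0,1,0,-1,0,0,0,1]) (by decide +kernel) (by decide +kernel) (.t t0
  ok0) cl21

theorem cl23 : Clo4 K KFs HH r28 :=
  .i [0,0,1,0,-1,0,0,2] (e' := [1,0,-1,0,1,0,0,-2]) (by decide +kernel) (by decide +kernel) (.t t20
  ok20) (.h (Or.inr (Or.inr (Or.inr (Or.inr (Or.inr (Or.inl rfl)))))))

theorem cl24 : Clo4 K KFs HH l27 :=
  .q [0,0,1,0,0,0,2,0,-1,2] (e' := [0,0,-1,0,0,0,-2,0,1,-2]) (.p true [0,0,1] [1,0,-1] (⟨0,[(15,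
  0)]⟩,⟨0,[(14,0)]⟩) .k 2 (⟨0,[(14,0)]⟩,⟨0,[(15,0)]⟩) .k (.r 0 ⟨4,[(0,2),(1,0),(0,0),(2,3),(3,1),(2,
  3)]⟩ ⟨0,[(7,1),(3,1),(13,0)]⟩)) (by decide +kernel) (by decide +kernel) (.t t19 ok19) cl23

theorem cl25 : Clo4 K KFs HH l37 :=
  .q [0,0,1,0,0,0,2,0,-1,2] (e' := [0,0,-1,0,0,0,-2,0,1,-2]) (.p true [0,0,1] [1,0,-1] (⟨0,[(23,
  0)]⟩,⟨0,[(22,0)]⟩) .k 2 (⟨0,[(22,0)]⟩,⟨0,[(23,0)]⟩) .k (.r 0 ⟨0,[(0,0),(1,0),(7,0)]⟩ ⟨1,[(5,0),(2,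
  1),(6,0),(4,1),(12,0)]⟩)) (by decide +kernel) (by decide +kernel) (.t t26 ok26) (.h (Or.inr (Or.inr (Or.inr (Or.inr (Or.inr (Or.inr (Or.inl rfl))))))))

theorem cl26 : Clo4 K KFs HH r36 :=
  .q [0,0,0,0,0,0,2,2,-1,2] (e' := [0,0,0,0,0,0,-2,-2,1,-2]) (.p true [0,0,1] [1,0,-1] (⟨0,[(22,
  0)]⟩,⟨0,[(21,0)]⟩) .k 2 (⟨0,[(21,0)]⟩,⟨0,[(22,0)]⟩) .k (.r 0 ⟨0,[(0,1),(0,1)]⟩ ⟨1,[(4,0),(2,1),(6,
  0),(4,1),(12,0)]⟩)) (by decide +kernel) (by decide +kernel) cl25 (.t t27 ok27)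

theorem cl27 : Clo4 K KFs HH l35 :=
  .q [0,-1,0,-1,0,0,-2,-2,2,-2] (e' := [0,1,0,1,0,0,2,2,-2,2]) (.p false [0,0,1] [2,-1,-1] (⟨0,[(21,
  0)]⟩,⟨0,[(20,0)]⟩) .k 2 (⟨0,[(20,0),(2,0)]⟩,⟨0,[(14,0)]⟩) .k (.x (-1) ⟨2,[(3,1),(14,3),(1,5),(1,
  0)]⟩ ⟨0,[(0,0),(7,0),(2,0)]⟩)) (by decide +kernel) (by decide +kernel) (.t t25 ok25) cl26

theorem cl28 : Clo4 K KFs HH r43 :=
  .q [0,1,0,1,0,0,2,2,-2,2] (e' := [0,-1,0,-1,0,0,-2,-2,2,-2]) (.p true [0,0,1] [2,-1,-1] (⟨0,[(26,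
  0)]⟩,⟨0,[(25,0)]⟩) .k 2 (⟨0,[(25,0),(2,0)]⟩,⟨0,[(19,0)]⟩) .k (.r (-1) ⟨7,[(1,3),(11,1),(0,1),(6,
  11),(2,3),(2,0),(8,6)]⟩ ⟨0,[(0,1)]⟩)) (by decide +kernel) (by decide +kernel) (.h (Or.inr (Or.inr (Or.inr (Or.inr (Or.inr (Or.inr (Or.inr (Or.inl rfl))))))))) (.t
  t31 ok31)

theorem cl29 : Clo4 K KFs HH r42 :=
  .i [1,0,0,0,0,0,0,1] (e' := [0,0,0,0,0,0,0,-1]) (by decide +kernel) (by decide +kernel) (.t t30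
  ok30) cl28

theorem cl30 : Clo4 K KFs HH r41 :=
  .q [0,0,1,0,0,0,2,0,-1,2] (e' := [0,0,-1,0,0,0,-2,0,1,-2]) (.p true [0,0,1] [1,0,-1] (⟨0,[(24,
  0)]⟩,⟨0,[(23,0)]⟩) .k 2 (⟨0,[(23,0)]⟩,⟨0,[(24,0)]⟩) .k (.x (-1) ⟨2,[(6,1),(14,3),(1,5),(1,0)]⟩ ⟨0,
  [(14,0),(0,0),(6,0)]⟩)) (by decide +kernel) (by decide +kernel) (.t t29 ok29) cl29

theorem cl31 : Clo4 K KFs HH l40 :=
  .q [0,0,1,0,0,0,2,1,-1,2] (e' := [0,0,-1,0,0,0,-2,-1,1,-2]) (.p true [0,0,1] [1,0,-1] (⟨0,[(23,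
  0)]⟩,⟨0,[(22,0)]⟩) .k 2 (⟨0,[(22,0)]⟩,⟨0,[(23,0)]⟩) .k (.x (-1) ⟨2,[(5,1),(14,3),(1,5),(1,0)]⟩ ⟨0,
  [(13,0),(0,0),(6,0)]⟩)) (by decide +kernel) (by decide +kernel) (.t t28 ok28) cl30

theorem cl32 : Clo4 K KFs HH l39 :=
  .i [1,0,0,0,0,0,0,-1] (e' := [0,0,0,0,0,0,0,1]) (by decide +kernel) (by decide +kernel) cl31 (.t
  t32 ok32)

theorem cl33 : Clo4 K KFs HH l47 :=
  .q [0,0,1,0,0,0,2,0,-1,2] (e' := [0,0,-1,0,0,0,-2,0,1,-2]) (.p true [0,0,1] [1,0,-1] (⟨0,[(25,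
  0)]⟩,⟨0,[(24,0)]⟩) .k 2 (⟨0,[(24,0)]⟩,⟨0,[(25,0)]⟩) .k (.r 0 ⟨0,[(3,0),(12,0),(6,0)]⟩ ⟨1,[(7,0),
  (2,1),(6,0),(4,1),(12,0)]⟩)) (by decide +kernel) (by decide +kernel) (.t t35 ok35) (.h (Or.inr (Or.inr (Or.inr (Or.inr (Or.inr (Or.inr (Or.inr (Or.inr (Or.inl rfl))))))))))

theorem cl34 : Clo4 K KFs HH r47 :=
  .q [0,0,1,0,0,0,2,0,-1,2] (e' := [0,0,-1,0,0,0,-2,0,1,-2]) (.p true [0,0,1] [1,0,-1] (⟨0,[(25,
  0)]⟩,⟨0,[(24,0)]⟩) .k 2 (⟨0,[(24,0)]⟩,⟨0,[(25,0)]⟩) .k (.r 0 ⟨0,[(3,0),(12,0),(6,0)]⟩ ⟨1,[(7,0),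
  (2,1),(6,0),(4,1),(12,0)]⟩)) (by decide +kernel) (by decide +kernel) (.t t36 ok36) (.h (Or.inr (Or.inr (Or.inr (Or.inr (Or.inr (Or.inr (Or.inr (Or.inr (Or.inr (Or.inl rfl)))))))))))

theorem cl35 : Clo4 K KFs HH r46 :=
  .q [0,0,0,0,0,0,2,1,-1,2] (e' := [0,0,0,0,0,0,-2,-1,1,-2]) (.p true [0,0,1] [1,0,-1] (⟨0,[(24,
  0)]⟩,⟨0,[(23,0)]⟩) .k 2 (⟨0,[(23,0)]⟩,⟨0,[(24,0)]⟩) .k (.r 0 ⟨0,[(2,0),(12,0),(6,0)]⟩ ⟨1,[(6,0),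
  (2,1),(6,0),(4,1),(12,0)]⟩)) (by decide +kernel) (by decide +kernel) cl33 cl34

theorem cl36 : Clo4 K KFs HH r45 :=
  .i [1,0,2,1,0,0,0,1] (e' := [0,0,-2,-1,0,0,0,-1]) (by decide +kernel) (by decide +kernel) (.t t34
  ok34) cl35

theorem cl37 : Clo4 K KFs HH r39 :=
  .i [1,0,1,1,0,0,0,1] (e' := [0,0,-1,-1,0,0,0,-1]) (by decide +kernel) (by decide +kernel) (.t t33
  ok33) cl36

theorem cl38 : Clo4 K KFs HH r35 :=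
  .q [0,0,0,0,0,0,-2,-2,1,-2] (e' := [0,0,0,0,0,0,2,2,-1,2]) (.p false [0,0,1] [1,0,-1] (⟨0,[(21,
  0)]⟩,⟨0,[(20,0)]⟩) .k 2 (⟨0,[(20,0)]⟩,⟨0,[(21,0)]⟩) .k (.x (-1) ⟨2,[(3,1),(14,3),(1,5),(1,0)]⟩ ⟨0,
  [(11,0),(0,0),(6,0)]⟩)) (by decide +kernel) (by decide +kernel) cl32 cl37

theorem cl39 : Clo4 K KFs HH r34 :=
  .q [0,-1,0,-1,0,0,-2,-1,2,-2] (e' := [0,1,0,1,0,0,2,1,-2,2]) (.p false [0,0,1] [2,-1,-1] (⟨0,[(20,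
  0)]⟩,⟨0,[(19,0)]⟩) .k 2 (⟨0,[(19,0),(2,0)]⟩,⟨0,[(13,0)]⟩) .k (.x (-1) ⟨2,[(2,1),(14,3),(1,5),(1,
  0)]⟩ ⟨0,[(10,0),(0,0),(6,0)]⟩)) (by decide +kernel) (by decide +kernel) cl27 cl38

theorem cl40 : Clo4 K KFs HH r33 :=
  .i [0,0,2,1] (e' := [1,0,-2,-1]) (by decide +kernel) (by decide +kernel) (.t t24 ok24) cl39

theorem cl41 : Clo4 K KFs HH r32 :=
  .q [0,-1,0,-1,0,0,0,0,1] (e' := [0,1,0,1,0,0,0,0,-1]) (.pp false [-1,1]) (by decide +kernel)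
  (by decide +kernel) (.t t23 ok23) cl40

theorem cl42 : Clo4 K KFs HH l31 :=
  .q [0,0,2,0,-1,0,-1,0,2,-1] (e' := [0,0,-2,0,1,0,1,0,-2,1]) (.p false [-1,1,1] [1] (⟨0,[(10,0)]⟩,
  ⟨0,[(16,0),(2,0)]⟩) .k 1 (⟨0,[]⟩,⟨0,[]⟩) .k .k) (by decide +kernel) (by decide +kernel) (.t t22
  ok22) cl41

theorem cl43 : Clo4 K KFs HH r51 :=
  .q [0,0,2,0,-1,0,-1,0,2,-1] (e' := [0,0,-2,0,1,0,1,0,-2,1]) (.p false [-1,1,1] [1] (⟨0,[(12,0)]⟩,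
  ⟨0,[(18,0),(2,0)]⟩) .k 1 (⟨0,[]⟩,⟨0,[]⟩) .k .k) (by decide +kernel) (by decide +kernel) (.t t39
  ok39) (.h (Or.inr (Or.inr (Or.inr (Or.inr (Or.inr (Or.inr (Or.inr (Or.inr (Or.inr (Or.inr rfl)))))))))))

theorem cl44 : Clo4 K KFs HH r50 :=
  .i [1,0,1,0,-1,0,0,2] (e' := [0,0,-1,0,1,0,0,-2]) (by decide +kernel) (by decide +kernel) (.t t38
  ok38) cl43

theorem cl45 : Clo4 K KFs HH r31 :=
  .q [0,0,1,0,0,0,2,0,-1,2] (e' := [0,0,-1,0,0,0,-2,0,1,-2]) (.p true [0,0,1] [1,0,-1] (⟨0,[(17,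
  0)]⟩,⟨0,[(16,0)]⟩) .k 2 (⟨0,[(16,0)]⟩,⟨0,[(17,0)]⟩) .k (.x (-1) ⟨0,[(9,1),(6,1),(1,0)]⟩ ⟨0,[(7,0),
  (0,0),(6,0)]⟩)) (by decide +kernel) (by decide +kernel) (.t t37 ok37) cl44

theorem cl46 : Clo4 K KFs HH r30 :=
  .q [0,-1,0,-1,0,0,-1,-1,2,-1] (e' := [0,1,0,1,0,0,1,1,-2,1]) (.p false [-1,1,1] [1] (⟨0,[(9,0)]⟩,
  ⟨0,[(15,0),(2,0)]⟩) .k 1 (⟨0,[]⟩,⟨0,[]⟩) .k .k) (by decide +kernel) (by decide +kernel) cl42 cl45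

theorem cl47 : Clo4 K KFs HH r27 :=
  .i [1,1,2,1,-1] (e' := [0,-1,-2,-1,1]) (by decide +kernel) (by decide +kernel) (.t t21 ok21) cl46

theorem cl48 : Clo4 K KFs HH l26 :=
  .q [0,-1,0,0,0,0,2,2,-1,2] (e' := [0,1,0,0,0,0,-2,-2,1,-2]) (.p true [0,0,1] [1,0,-1] (⟨0,[(14,
  0)]⟩,⟨0,[(13,0)]⟩) .k 2 (⟨0,[(13,0)]⟩,⟨0,[(14,0)]⟩) .k (.x (-1) ⟨0,[(6,1),(6,1),(1,0)]⟩ ⟨0,[(4,0),
  (0,0),(6,0)]⟩)) (by decide +kernel) (by decide +kernel) cl24 cl47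

theorem cl49 : Clo4 K KFs HH l25 :=
  .i [0,0,-1,-1,0,0,0,1] (e' := [1,0,1,1,0,0,0,-1]) (by decide +kernel) (by decide +kernel) cl48
  (.t t40 ok40)

theorem cl50 : Clo4 K KFs HH l24 :=
  .q [0,1,0,1,0,0,0,1,-1] (e' := [0,-1,0,-1,0,0,0,-1,1]) (.pp true [-1,1]) (by decide +kernel)
  (by decide +kernel) cl49 (.t t41 ok41)

theorem cl51 : Clo4 K KFs HH r0 :=
  .i [0,0,0,-1,0,0,0,1] (e' := [1,0,0,1,0,0,0,-1]) (by decide +kernel) (by decide +kernel) cl50 (.t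
  t42 ok42)

theorem cl52 : Clo4 K KFs HH base :=
  .q [0,0,0,0,0,0,-1,-1,0,-1] (e' := [0,0,0,0,0,0,1,1,0,1]) (.p false [0,0,1] [] (⟨0,[(10,0)]⟩,⟨0,
  [(9,0)]⟩) .k 0 (⟨0,[]⟩,⟨0,[]⟩) .k .k) (by decide +kernel) (by decide +kernel) cl22 cl51

open Helper25.KW Helper55.KE in
theorem closed {p a b c J l q : ℤ} {D dl : ℝ} {Cl : ℤ → ℤ → ℤ → ℤ → ℝ → Prop}
    (W : World p a b c J 1 l q D dl Cl) (g : G0 p a b c J D)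
    {N X R : ℤ} {I : ℝ} (hk : KCl p l Cl N X R I) (kz : KF a b D (X + (1 : ℤ) * I) (X + (1 : ℤ) * I + R) I)
    (hU : KU p a b l 1 Cl (fun X R I => Zy b 1 D X R I) N)
    (hN0 : KNo p a b l 1 Cl (fun X R I => Zx 1 X R I ∧ Zy b 1 D X R I))
    (hN1 : KNo p a b l 1 Cl (fun X R I => ZiD D J X R I ∧ Zy b 1 D X R I))
    (h0 : 1 ≤ -(c : ℝ))
    (h1 : 1 ≤ (a : ℝ) - (b : ℝ) + (c : ℝ))
    (h2 : 0 < 2 * (b : ℝ) - D)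
    (h3 : 1 ≤ 2 * (a : ℝ) - (b : ℝ))
    (h4 : 0 < (J : ℝ) - I)
    (h5 : 0 < (J : ℝ) - D + I)
    (h6 : 0 < (X : ℝ) + I)
    (h7 : 0 < -(b : ℝ) - (X : ℝ) + D - I)
    (h8 : 0 < -D + 2 * I)
    (H0 : 0 < -(X : ℝ) - (R : ℝ) - I → 1 ≤ (a : ℝ) - (c : ℝ) + (R : ℝ) → 0 < -(a : ℝ) - (R : ℝ) + D → 1 ≤ (c : ℝ) - (R : ℝ) → 0 < (a : ℝ) + (c : ℝ) - D → 1 ≤ 1 + (b : ℝ) + (c : ℝ) → 1 ≤ 1 + (a : ℝ) - (b : ℝ) + (R : ℝ) → 0 < (a : ℝ) + (c : ℝ) + (X : ℝ) + (R : ℝ) - D + I → 0 < (c : ℝ) - (X : ℝ) - (R : ℝ) - I → 1 ≤ -(b : ℝ) - (c : ℝ) - (R : ℝ) → 1 ≤ -(a : ℝ) - (b : ℝ) - (c : ℝ) - 2 * (R : ℝ) → 0 < -(b : ℝ) - 2 * (X : ℝ) + D - 2 * I → False)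
    (H1 : 0 < -(X : ℝ) - (R : ℝ) - I → 1 ≤ (a : ℝ) - (c : ℝ) + (R : ℝ) → 0 < -(a : ℝ) - (R : ℝ) + D → 1 ≤ (c : ℝ) - (R : ℝ) → 0 < (a : ℝ) + (c : ℝ) - D → 1 ≤ -(b : ℝ) - (c : ℝ) → 1 ≤ 1 - 2 * (b : ℝ) - (c : ℝ) → 0 < -(p : ℝ) - 2 * (X : ℝ) - 2 * (R : ℝ) + D - 2 * I → 1 ≤ -(a : ℝ) - (R : ℝ) → 0 < (a : ℝ) + (c : ℝ) + (p : ℝ) + 2 * (X : ℝ) + 2 * (R : ℝ) - 2 * D + 2 * I → 0 < (a : ℝ) - (p : ℝ) - 2 * (X : ℝ) - (R : ℝ) + D - 2 * I → 1 ≤ 1 + (a : ℝ) - (p : ℝ) - (R : ℝ) → 0 < (a : ℝ) - (b : ℝ) - (p : ℝ) - 2 * (X : ℝ) - (R : ℝ) + D - 2 * I → False)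
    (H2 : 0 < -(X : ℝ) - (R : ℝ) - I → 1 ≤ (a : ℝ) - (c : ℝ) + (R : ℝ) → 0 < -(a : ℝ) - (R : ℝ) + D → 1 ≤ (c : ℝ) - (R : ℝ) → 0 < (a : ℝ) + (c : ℝ) - D → 1 ≤ -(b : ℝ) - (c : ℝ) → 1 ≤ 1 - 2 * (b : ℝ) - (c : ℝ) → 0 < (p : ℝ) + 2 * (X : ℝ) + 2 * (R : ℝ) - D + 2 * I → False)
    (H3 : 0 < -(X : ℝ) - (R : ℝ) - I → 1 ≤ (a : ℝ) - (c : ℝ) + (R : ℝ) → 0 < (a : ℝ) + (R : ℝ) - D → 0 < -(a : ℝ) - 2 * (X : ℝ) - 2 * (R : ℝ) + D - 2 * I → 0 < -(b : ℝ) - 2 * (X : ℝ) + D - 2 * I → 1 ≤ 1 - (b : ℝ) - (R : ℝ) → False)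
    (H4 : 0 < -(X : ℝ) - (R : ℝ) - I → 1 ≤ (a : ℝ) - (c : ℝ) + (R : ℝ) → 0 < (a : ℝ) + (R : ℝ) - D → 0 < (a : ℝ) + 2 * (X : ℝ) + 2 * (R : ℝ) - D + 2 * I → 0 < -(b : ℝ) - 2 * (X : ℝ) + D - 2 * I → 1 ≤ 1 - (b : ℝ) - 2 * (R : ℝ) → False)
    (H5 : 0 < (X : ℝ) + (R : ℝ) + I → 1 ≤ -(c : ℝ) + (R : ℝ) → 0 < (a : ℝ) + (c : ℝ) + (R : ℝ) - D → 1 ≤ -(b : ℝ) - (c : ℝ) + (R : ℝ) → 0 < -(a : ℝ) + 2 * (X : ℝ) + 2 * (R : ℝ) - D + 2 * I → 0 < -(b : ℝ) - 2 * (X : ℝ) + D - 2 * I → 1 ≤ 1 - (b : ℝ) + (p : ℝ) - 2 * (R : ℝ) → False)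
    (H6 : 0 < (X : ℝ) + (R : ℝ) + I → 1 ≤ -(c : ℝ) + (R : ℝ) → 0 < (a : ℝ) + (c : ℝ) + (R : ℝ) - D → 1 ≤ -(b : ℝ) - (c : ℝ) + (R : ℝ) → 0 < (a : ℝ) - 2 * (X : ℝ) - 2 * (R : ℝ) + D - 2 * I → 1 ≤ -(a : ℝ) - 2 * (b : ℝ) - (c : ℝ) + (p : ℝ) → 0 < -(a : ℝ) - (c : ℝ) - (X : ℝ) - (R : ℝ) + 2 * D - I → 0 < -2 * (b : ℝ) + (p : ℝ) + (X : ℝ) - 2 * D + I → 0 < (a : ℝ) + (c : ℝ) - D → 1 ≤ 1 - 2 * (b : ℝ) - (c : ℝ) → 0 < -(a : ℝ) - (c : ℝ) - 2 * (X : ℝ) - (R : ℝ) + 2 * D - 2 * I → 0 < (a : ℝ) + (c : ℝ) + 2 * (X : ℝ) + 2 * (R : ℝ) - 2 * D + 2 * I → 0 < 2 * (X : ℝ) + 2 * (R : ℝ) - D + 2 * I → 0 < -(b : ℝ) - 2 * (X : ℝ) + D - 2 * I → False)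
    (H7 : 0 < (X : ℝ) + (R : ℝ) + I → 1 ≤ -(c : ℝ) + (R : ℝ) → 0 < (a : ℝ) + (c : ℝ) + (R : ℝ) - D → 1 ≤ -(b : ℝ) - (c : ℝ) + (R : ℝ) → 0 < (a : ℝ) - 2 * (X : ℝ) - 2 * (R : ℝ) + D - 2 * I → 1 ≤ -(a : ℝ) - 2 * (b : ℝ) - (c : ℝ) + (p : ℝ) → 0 < -(a : ℝ) - (c : ℝ) - (X : ℝ) - (R : ℝ) + 2 * D - I → 0 < -2 * (b : ℝ) + (p : ℝ) + (X : ℝ) - 2 * D + I → 0 < (a : ℝ) + (c : ℝ) - D → 1 ≤ 1 - 2 * (b : ℝ) - (c : ℝ) → 0 < (a : ℝ) + (c : ℝ) + 2 * (X : ℝ) + (R : ℝ) - 2 * D + 2 * I → 0 < -2 * (X : ℝ) - 2 * (R : ℝ) + D - 2 * I → 1 ≤ 1 - (R : ℝ) → 0 < -(b : ℝ) - 2 * (X : ℝ) - (R : ℝ) + D - 2 * I → 0 < -(b : ℝ) - 2 * (X : ℝ) + D - 2 * I → 1 ≤ -(R : ℝ) → 0 < (a : ℝ) + (c : ℝ) + 2 * (X : ℝ) + 2 * (R : ℝ) - 2 * D + 2 * I → False)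
    (H8 : 0 < (X : ℝ) + (R : ℝ) + I → 1 ≤ -(c : ℝ) + (R : ℝ) → 0 < (a : ℝ) + (c : ℝ) + (R : ℝ) - D → 1 ≤ -(b : ℝ) - (c : ℝ) + (R : ℝ) → 0 < (a : ℝ) - 2 * (X : ℝ) - 2 * (R : ℝ) + D - 2 * I → 1 ≤ -(a : ℝ) - 2 * (b : ℝ) - (c : ℝ) + (p : ℝ) → 0 < -(a : ℝ) - (c : ℝ) - (X : ℝ) - (R : ℝ) + 2 * D - I → 0 < -2 * (b : ℝ) + (p : ℝ) + (X : ℝ) - 2 * D + I → 0 < (a : ℝ) + (c : ℝ) - D → 1 ≤ 1 - 2 * (b : ℝ) - (c : ℝ) → 0 < (a : ℝ) + (c : ℝ) + 2 * (X : ℝ) + (R : ℝ) - 2 * D + 2 * I → 0 < 2 * (X : ℝ) + 2 * (R : ℝ) - D + 2 * I → 1 ≤ -(b : ℝ) - (c : ℝ) - (R : ℝ) → 1 ≤ -2 * (b : ℝ) - (c : ℝ) - (R : ℝ) → 0 < 2 * (X : ℝ) + (R : ℝ) - D + 2 * I → 0 < -(b : ℝ) - 2 * (X : ℝ) + D - 2 * I → False)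
    (H9 : 0 < (X : ℝ) + (R : ℝ) + I → 1 ≤ -(c : ℝ) + (R : ℝ) → 0 < (a : ℝ) + (c : ℝ) + (R : ℝ) - D → 1 ≤ -(b : ℝ) - (c : ℝ) + (R : ℝ) → 0 < (a : ℝ) - 2 * (X : ℝ) - 2 * (R : ℝ) + D - 2 * I → 1 ≤ -(a : ℝ) - 2 * (b : ℝ) - (c : ℝ) + (p : ℝ) → 0 < -(a : ℝ) - (c : ℝ) - (X : ℝ) - (R : ℝ) + 2 * D - I → 0 < -2 * (b : ℝ) + (p : ℝ) + (X : ℝ) - 2 * D + I → 0 < (a : ℝ) + (c : ℝ) - D → 1 ≤ 1 - 2 * (b : ℝ) - (c : ℝ) → 0 < (a : ℝ) + (c : ℝ) + 2 * (X : ℝ) + (R : ℝ) - 2 * D + 2 * I → 0 < 2 * (X : ℝ) + 2 * (R : ℝ) - D + 2 * I → 1 ≤ -(b : ℝ) - (c : ℝ) - (R : ℝ) → 1 ≤ -2 * (b : ℝ) - (c : ℝ) - (R : ℝ) → 0 < -2 * (X : ℝ) - (R : ℝ) + D - 2 * I → 0 < -(b : ℝ) - 2 * (X : ℝ) + D - 2 * I → False)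
    (H10 : 0 < (X : ℝ) + (R : ℝ) + I → 1 ≤ -(c : ℝ) + (R : ℝ) → 0 < (a : ℝ) + (c : ℝ) + (R : ℝ) - D → 1 ≤ -(b : ℝ) - (c : ℝ) + (R : ℝ) → 0 < (a : ℝ) - 2 * (X : ℝ) - 2 * (R : ℝ) + D - 2 * I → 1 ≤ -(a : ℝ) - 2 * (b : ℝ) - (c : ℝ) + (p : ℝ) → 0 < (a : ℝ) + (c : ℝ) + (X : ℝ) + (R : ℝ) - 2 * D + I → 0 < -(b : ℝ) - 2 * (X : ℝ) + D - 2 * I → 1 ≤ -(b : ℝ) + (p : ℝ) - 2 * (R : ℝ) → 0 < -2 * (b : ℝ) + (p : ℝ) + (X : ℝ) - 2 * D + I → False) : False := by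
  have g1 := g.a2
  have g2 := g.b2
  have g3 := g.pa
  have g4 := g.pb
  have g5 := g.J1
  have g6 := g.JD
  have g7 := g.D2
  have g8 := g.ca
  have g9 := g.ca'
  have k1 := kz.I0
  have k2 := kz.ID
  have k3 := kz.z1
  have k4 := kz.z2
  have k5 := kz.s1
  have k6 := kz.s2
  have hkf : ∀ M : ℤ, ∀ kf ∈ KFs, KOk4 p l Cl 1 (xv [1, a, b, c, p, J, X, R] [D, I]) N M kf := by
    intro M
    have hA1 : evg (xv [1, a, b, c, p, J, X, R] [D, I]) [0, 1] = a := by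
      simp only [evg_cons, evg_nil, xv, List.map_cons, List.map_nil, List.cons_append, List.nil_append]
      push_cast
      ring
    have hB1 : evg (xv [1, a, b, c, p, J, X, R] [D, I]) [0, 0, 1] = b := by
      simp only [evg_cons, evg_nil, xv, List.map_cons, List.map_nil, List.cons_append, List.nil_append]
      push_cast
      ring
    simp only [KFs, List.forall_mem_cons]
    refine ⟨kok4_u hA1 hB1 M hU ?_, kok4_no hA1 hB1 N M hN0 ?_, kok4_no hA1 hB1 N M hN1 ?_, fun _ h => absurd h (by simp)⟩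
    · intro X' R' I' _ hg
      simp only [List.forall_mem_cons, List.not_mem_nil, false_imp_iff, implies_true, and_true,
        evg_cons, evg_nil, xv, List.map_cons, List.map_nil, List.cons_append, List.nil_append] at hg
      push_cast at hg
      simp only [Zx, Zp, Zs, Zsp, Zi, ZiD, Zy]
      push_cast
      linarith
    · intro X' R' I' _ hg
      simp only [List.forall_mem_cons, List.not_mem_nil, false_imp_iff, implies_true, and_true,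
        evg_cons, evg_nil, xv, List.map_cons, List.map_nil, List.cons_append, List.nil_append] at hg
      push_cast at hg
      simp only [Zx, Zp, Zs, Zsp, Zi, ZiD, Zy]
      push_cast
      refine ⟨?_, ?_⟩ <;> linarith [hg.1, hg.2]
    · intro X' R' I' _ hg
      simp only [List.forall_mem_cons, List.not_mem_nil, false_imp_iff, implies_true, and_true,
        evg_cons, evg_nil, xv, List.map_cons, List.map_nil, List.cons_append, List.nil_append] at hg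
      push_cast at hg
      simp only [Zx, Zp, Zs, Zsp, Zi, ZiD, Zy]
      push_cast
      refine ⟨?_, ?_⟩ <;> linarith [hg.1, hg.2]
  push_cast at *
  refine closed4 (val_K W.toBase hk []) W rfl (Nk := N)
    (fun kf _ _ => ⟨_, rfl⟩) (fun _ _ _ => rfl) (hkf _) (H := HH) ?_ cl52 ?_
  · rintro Q (rfl | rfl | rfl | rfl | rfl | rfl | rfl | rfl | rfl | rfl | rfl) hQ
    · simp only [r11, r10, r9, r8, r7, r6, l5, r4, r3, l2, r1, l0, List.forall_mem_cons, hld, xv, evg_cons, evg_nil, List.map_cons,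
        List.map_nil, List.cons_append, List.nil_append, if_true, if_false, Bool.false_eq_true] at hQ
      push_cast at hQ
      obtain ⟨p11, p10, p9, p8, p7, p6, p5, p4, p3, p2, p1, p0, -⟩ := hQ
      exact H0 (by linarith) (by linarith) (by linarith) (by linarith) (by linarith) (by linarith) (by linarith) (by linarith) (by linarith) (by linarith) (by linarith) (by linarith)
    · simp only [r18, l17, l16, r15, r14, l13, r12, r5, r4, r3, l2, r1, l0, List.forall_mem_cons, hld, xv, evg_cons, evg_nil, List.map_cons,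
        List.map_nil, List.cons_append, List.nil_append, if_true, if_false, Bool.false_eq_true] at hQ
      push_cast at hQ
      obtain ⟨p12, p11, p10, p9, p8, p7, p6, p5, p4, p3, p2, p1, p0, -⟩ := hQ
      exact H1 (by linarith) (by linarith) (by linarith) (by linarith) (by linarith) (by linarith) (by linarith) (by linarith) (by linarith) (by linarith) (by linarith) (by linarith) (by linarith)
    · simp only [r13, r12, r5, r4, r3, l2, r1, l0, List.forall_mem_cons, hld, xv, evg_cons, evg_nil, List.map_cons,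
        List.map_nil, List.cons_append, List.nil_append, if_true, if_false, Bool.false_eq_true] at hQ
      push_cast at hQ
      obtain ⟨p7, p6, p5, p4, p3, p2, p1, p0, -⟩ := hQ
      exact H2 (by linarith) (by linarith) (by linarith) (by linarith) (by linarith) (by linarith) (by linarith) (by linarith)
    · simp only [r21, r20, l19, r2, r1, l0, List.forall_mem_cons, hld, xv, evg_cons, evg_nil, List.map_cons,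
        List.map_nil, List.cons_append, List.nil_append, if_true, if_false, Bool.false_eq_true] at hQ
      push_cast at hQ
      obtain ⟨p5, p4, p3, p2, p1, p0, -⟩ := hQ
      exact H3 (by linarith) (by linarith) (by linarith) (by linarith) (by linarith) (by linarith)
    · simp only [r23, r22, r19, r2, r1, l0, List.forall_mem_cons, hld, xv, evg_cons, evg_nil, List.map_cons,
        List.map_nil, List.cons_append, List.nil_append, if_true, if_false, Bool.false_eq_true] at hQ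
      push_cast at hQ
      obtain ⟨p5, p4, p3, p2, p1, p0, -⟩ := hQ
      exact H4 (by linarith) (by linarith) (by linarith) (by linarith) (by linarith) (by linarith)
    · simp only [r29, r28, l27, l26, l25, l24, r0, List.forall_mem_cons, hld, xv, evg_cons, evg_nil, List.map_cons,
        List.map_nil, List.cons_append, List.nil_append, if_true, if_false, Bool.false_eq_true] at hQ
      push_cast at hQ
      obtain ⟨p6, p5, p4, p3, p2, p1, p0, -⟩ := hQ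
      exact H5 (by linarith) (by linarith) (by linarith) (by linarith) (by linarith) (by linarith) (by linarith)
    · simp only [r38, l37, r36, l35, r34, r33, r32, l31, r30, r27, l26, l25, l24, r0, List.forall_mem_cons, hld, xv, evg_cons, evg_nil, List.map_cons,
        List.map_nil, List.cons_append, List.nil_append, if_true, if_false, Bool.false_eq_true] at hQ
      push_cast at hQ
      obtain ⟨p13, p12, p11, p10, p9, p8, p7, p6, p5, p4, p3, p2, p1, p0, -⟩ := hQ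
      exact H6 (by linarith) (by linarith) (by linarith) (by linarith) (by linarith) (by linarith) (by linarith) (by linarith) (by linarith) (by linarith) (by linarith) (by linarith) (by linarith) (by linarith)
    · simp only [l44, r43, r42, r41, l40, l39, r35, r34, r33, r32, l31, r30, r27, l26, l25, l24, r0, List.forall_mem_cons, hld, xv, evg_cons, evg_nil, List.map_cons,
        List.map_nil, List.cons_append, List.nil_append, if_true, if_false, Bool.false_eq_true] at hQ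
      push_cast at hQ
      obtain ⟨p16, p15, p14, p13, p12, p11, p10, p9, p8, p7, p6, p5, p4, p3, p2, p1, p0, -⟩ := hQ
      exact H7 (by linarith) (by linarith) (by linarith) (by linarith) (by linarith) (by linarith) (by linarith) (by linarith) (by linarith) (by linarith) (by linarith) (by linarith) (by linarith) (by linarith) (by linarith) (by linarith) (by linarith)
    · simp only [r48, l47, r46, r45, r39, r35, r34, r33, r32, l31, r30, r27, l26, l25, l24, r0, List.forall_mem_cons, hld, xv, evg_cons, evg_nil, List.map_cons,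
        List.map_nil, List.cons_append, List.nil_append, if_true, if_false, Bool.false_eq_true] at hQ
      push_cast at hQ
      obtain ⟨p15, p14, p13, p12, p11, p10, p9, p8, p7, p6, p5, p4, p3, p2, p1, p0, -⟩ := hQ
      exact H8 (by linarith) (by linarith) (by linarith) (by linarith) (by linarith) (by linarith) (by linarith) (by linarith) (by linarith) (by linarith) (by linarith) (by linarith) (by linarith) (by linarith) (by linarith) (by linarith)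
    · simp only [r49, r47, r46, r45, r39, r35, r34, r33, r32, l31, r30, r27, l26, l25, l24, r0, List.forall_mem_cons, hld, xv, evg_cons, evg_nil, List.map_cons,
        List.map_nil, List.cons_append, List.nil_append, if_true, if_false, Bool.false_eq_true] at hQ
      push_cast at hQ
      obtain ⟨p15, p14, p13, p12, p11, p10, p9, p8, p7, p6, p5, p4, p3, p2, p1, p0, -⟩ := hQ
      exact H9 (by linarith) (by linarith) (by linarith) (by linarith) (by linarith) (by linarith) (by linarith) (by linarith) (by linarith) (by linarith) (by linarith) (by linarith) (by linarith) (by linarith) (by linarith) (by linarith)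
    · simp only [r52, r51, r50, r31, r30, r27, l26, l25, l24, r0, List.forall_mem_cons, hld, xv, evg_cons, evg_nil, List.map_cons,
        List.map_nil, List.cons_append, List.nil_append, if_true, if_false, Bool.false_eq_true] at hQ
      push_cast at hQ
      obtain ⟨p9, p8, p7, p6, p5, p4, p3, p2, p1, p0, -⟩ := hQ
      exact H10 (by linarith) (by linarith) (by linarith) (by linarith) (by linarith) (by linarith) (by linarith) (by linarith) (by linarith) (by linarith)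
  · simp only [base, List.forall_mem_cons, List.not_mem_nil, false_imp_iff, implies_true,
      and_true, hld, xv, evg_cons, evg_nil, List.map_cons, List.map_nil, List.cons_append,
      List.nil_append, if_true, if_false, Bool.false_eq_true]
    push_cast
    refine ⟨?_, ?_, ?_, ?_, ?_, ?_, ?_, ?_, ?_, ?_, ?_, ?_, ?_, ?_, ?_, ?_, ?_, ?_, ?_, ?_, ?_, ?_, ?_⟩ <;> linarith

end Helper11.Y.Zmp1Ca_r1
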