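import Pool.Agent.Helper25.KG.C4
import Pool.Agent.Helper11.Y.ClsX
import Pool.Agent.Helper11.Y.Zmp1Ca_r65_p0
import Pool.Agent.Helper11.Y.Zmp1Ca_r65_p1

set_option autoImplicit false
set_option linter.all false

namespace Helper11.Y.Zmp1Ca_r65

open Helper25.KG Helper11.CT

noncomputable def t6 : Tre :=
  .I [0,-1,2,1,0,0,0,2] t4 t5

theorem ok6 : chk4 K KFs t6 r9 = true :=
  chk4_I (e' := [1,1,-2,-1,0,0,0,-2]) (by decide +kernel) (by decide +kernel) ok4 ok5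

noncomputable def t7 : Tre :=
  .I [0,0,2,1,0,0,0,-1] t3 t6

theorem ok7 : chk4 K KFs t7 r8 = true :=
  chk4_I (e' := [1,0,-2,-1,0,0,0,1]) (by decide +kernel) (by decide +kernel) ok3 ok6

noncomputable def t8 : Tre :=
  .Q [0,-1,0,-1,0,0,1,1,0,1,1] (.p true [1,-1,1] [] (⟨0,[(32,0),(1,0)]⟩,⟨0,[(22,0)]⟩) .k 0 (⟨0,[]⟩,
  ⟨0,[]⟩) .k .k) t2 t7

theorem ok8 : chk4 K KFs t8 r7 = true :=
  chk4_Q (e' := [0,1,0,1,0,0,-1,-1,0,-1,-1]) (by decide +kernel) (by decide +kernel) ok2 ok7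

noncomputable def t9 : Tre :=
  .Q [0,0,0,-1,0,0,-1,-1,0,1,-1] (.p false [0,0,1] [1] (⟨0,[(31,0)]⟩,⟨0,[(30,0)]⟩) .k 1 (⟨0,[]⟩,⟨0,
  []⟩) .k .k) t1 t8

theorem ok9 : chk4 K KFs t9 l6 = true :=
  chk4_Q (e' := [0,0,0,1,0,0,1,1,0,-1,1]) (by decide +kernel) (by decide +kernel) ok1 ok8

noncomputable def t11 : Tre :=
  .Q [0,1,0,1,0,0,0,0,0,-1] (.pp true [-1,1]) t9 t10

theorem ok11 : chk4 K KFs t11 r5 = true :=
  chk4_Q (e' := [0,-1,0,-1,0,0,0,0,0,1]) (by decide +kernel) (by decide +kernel) ok9 ok10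

noncomputable def t12 : Tre :=
  .Q [0,0,0,0,0,0,-1,-1,0,1,-1] (.p false [0,0,1] [1] (⟨0,[(29,0)]⟩,⟨0,[(28,0)]⟩) .k 1 (⟨0,[]⟩,⟨0,
  []⟩) .k .k) t0 t11

theorem ok12 : chk4 K KFs t12 l4 = true :=
  chk4_Q (e' := [0,0,0,0,0,0,1,1,0,-1,1]) (by decide +kernel) (by decide +kernel) ok0 ok11

noncomputable def t14 : Tre :=
  .I [1,0,1,1,0,0,0,1] t12 t13

theorem ok14 : chk4 K KFs t14 l3 = true :=
  chk4_I (e' := [0,0,-1,-1,0,0,0,-1]) (by decide +kernel) (by decide +kernel) ok12 ok13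

noncomputable def t19 : Tre :=
  .Q [0,0,0,-1,0,0,-2,-2,0,2,-2] (.p false [0,0,1] [2,-1,-1] (⟨0,[(36,0)]⟩,⟨0,[(35,0)]⟩) .k 2 (⟨0,
  [(35,0),(2,0)]⟩,⟨0,[(25,0)]⟩) .k (.x (-1) ⟨2,[(12,1),(20,3),(1,5),(1,0)]⟩ ⟨2,[(14,1),(7,1),(11,1),
  (1,1)]⟩)) t17 t18

theorem ok19 : chk4 K KFs t19 l18 = true :=
  chk4_Q (e' := [0,0,0,1,0,0,2,2,0,-2,2]) (by decide +kernel) (by decide +kernel) ok17 ok18

noncomputable def t21 : Tre :=
  .Q [1,0,0,-1,0,0,1,1,1,-1,1,1] (.p true [-1,0,1,1] [] (⟨0,[(5,0)]⟩,⟨0,[(28,0),(5,0)]⟩) .k 0 (⟨0,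
  []⟩,⟨0,[]⟩) .k (.x (-1) ⟨11,[(11,3),(14,2),(0,2),(4,7),(1,11),(1,1)]⟩ ⟨1,[(13,0),(7,0),(24,0)]⟩))
  t19 t20

theorem ok21 : chk4 K KFs t21 r17 = true :=
  chk4_Q (e' := [-1,0,0,1,0,0,-1,-1,-1,1,-1,-1]) (by decide +kernel) (by decide +kernel) ok19 ok20

noncomputable def t22 : Tre :=
  .I [1,0,1,1,0,0,0,1] t16 t21

theorem ok22 : chk4 K KFs t22 l16 = true :=
  chk4_I (e' := [0,0,-1,-1,0,0,0,-1]) (by decide +kernel) (by decide +kernel) ok16 ok21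

noncomputable def t24 : Tre :=
  .I [0,0,-1,-1,0,0,0,1,1] t22 t23

theorem ok24 : chk4 K KFs t24 l15 = true :=
  chk4_I (e' := [1,0,1,1,0,0,0,-1,-1]) (by decide +kernel) (by decide +kernel) ok22 ok23

noncomputable def t26 : Tre :=
  .I [1,0,-1,-1,0,0,0,-1] t24 t25

theorem ok26 : chk4 K KFs t26 l14 = true :=
  chk4_I (e' := [0,0,1,1,0,0,0,1]) (by decide +kernel) (by decide +kernel) ok24 ok25

noncomputable def t28 : Tre :=
  .Q [1,1,0,0,0,0,1,1,1,-1,1,1] (.p true [-1,0,1,1] [] (⟨0,[(1,0)]⟩,⟨0,[(24,0),(5,0)]⟩) .k 0 (⟨0,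
  []⟩,⟨0,[]⟩) .k (.x (-1) ⟨11,[(7,3),(14,2),(0,2),(4,7),(1,11),(1,1)]⟩ ⟨1,[(9,0),(7,0),(24,0)]⟩))
  t26 t27

theorem ok28 : chk4 K KFs t28 l13 = true :=
  chk4_Q (e' := [-1,-1,0,0,0,0,-1,-1,-1,1,-1,-1]) (by decide +kernel) (by decide +kernel) ok26 ok27

noncomputable def t31 : Tre :=
  .Q [-1,1,0,0,0,0,-1,-1,-1,1,-1,-1] (.p false [-1,0,1,1] [] (⟨0,[(1,0)]⟩,⟨0,[(24,0),(5,0)]⟩) .k 0
  (⟨0,[]⟩,⟨0,[]⟩) .k (.r 0 ⟨1,[(0,1),(2,0),(35,0)]⟩ ⟨39,[(8,15),(3,3),(9,20),(0,0),(4,7),(7,3),(4,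
  1)]⟩)) t29 t30

theorem ok31 : chk4 K KFs t31 r13 = true :=
  chk4_Q (e' := [1,-1,0,0,0,0,1,1,1,-1,1,1]) (by decide +kernel) (by decide +kernel) ok29 ok30

noncomputable def t32 : Tre :=
  .I [0,0,-1,-1,0,0,0,-1,-1] t28 t31

theorem ok32 : chk4 K KFs t32 l12 = true :=
  chk4_I (e' := [1,0,1,1,0,0,0,1,1]) (by decide +kernel) (by decide +kernel) ok28 ok31

noncomputable def t34 : Tre :=
  .Q [0,0,0,0,0,0,0,0,0,-1,1,1] (.ed false [0,0,1,1] (.x (-1) ⟨11,[(5,3),(14,2),(0,2),(4,7),(1,11),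
  (1,1)]⟩ ⟨1,[(7,0),(7,0),(24,0)]⟩)) t32 t33

theorem ok34 : chk4 K KFs t34 r11 = true :=
  chk4_Q (e' := [0,0,0,0,0,0,0,0,0,1,-1,-1]) (by decide +kernel) (by decide +kernel) ok32 ok33

noncomputable def t35 : Tre :=
  .Q [0,-1,0,-1,0,0,0,0,0,1] (.pp false [-1,1]) t15 t34

theorem ok35 : chk4 K KFs t35 r3 = true :=
  chk4_Q (e' := [0,1,0,1,0,0,0,0,0,-1]) (by decide +kernel) (by decide +kernel) ok15 ok34

noncomputable def t36 : Tre :=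
  .I [0,0,2,1] t14 t35

theorem ok36 : chk4 K KFs t36 l2 = true :=
  chk4_I (e' := [1,0,-2,-1]) (by decide +kernel) (by decide +kernel) ok14 ok35

noncomputable def t38 : Tre :=
  .I [1,1,-2,-1,0,0,0,-1] t36 t37

theorem ok38 : chk4 K KFs t38 l1 = true :=
  chk4_I (e' := [0,-1,2,1,0,0,0,1]) (by decide +kernel) (by decide +kernel) ok36 ok37

noncomputable def t40 : Tre :=
  .I [1,1,-1,0,0,0,0,-1] t38 t39

theorem ok40 : chk4 K KFs t40 l0 = true :=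
  chk4_I (e' := [0,-1,1,0,0,0,0,1]) (by decide +kernel) (by decide +kernel) ok38 ok39

noncomputable def t42 : Tre :=
  .I [0,1,-1,-1,0,0,0,-1] t40 t41

theorem ok42 : chk4 K KFs t42 base = true :=
  chk4_I (e' := [1,-1,1,1,0,0,0,1]) (by decide +kernel) (by decide +kernel) ok40 ok41

open Helper25.KW Helper55.KE in
theorem closed {p a b c J l q : ℤ} {D dl : ℝ} {Cl : ℤ → ℤ → ℤ → ℤ → ℝ → Prop}
    (W : World p a b c J 1 l q D dl Cl) (g : G0 p a b c J D)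
    {N X R : ℤ} {I : ℝ} (hk : KCl p l Cl N X R I) (kz : KF a b D (X + (1 : ℤ) * I) (X + (1 : ℤ) * I + R) I)
    {Nu Ru : ℤ} {Iu : ℝ} (hu : UFac p 1 D Cl Nu Ru Iu)
    (hU : KU p a b l 1 Cl (fun X R I => Zy b 1 D X R I) N)
    (hN0 : KNo p a b l 1 Cl (fun X R I => Zx 1 X R I ∧ Zy b 1 D X R I))
    (hN1 : KNo p a b l 1 Cl (fun X R I => ZiD D J X R I ∧ Zy b 1 D X R I))
    (h0 : 1 ≤ -(c : ℝ))
    (h1 : 1 ≤ (a : ℝ) - (b : ℝ) + (c : ℝ))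
    (h2 : 0 < 2 * (b : ℝ) - D)
    (h3 : 1 ≤ 2 * (a : ℝ) - (b : ℝ))
    (h4 : 0 < (J : ℝ) - I)
    (h5 : 0 < (J : ℝ) - D + I)
    (h6 : 0 < (X : ℝ) + I)
    (h7 : 0 < -(b : ℝ) - (X : ℝ) + D - I)
    (h8 : 0 < -D + 2 * I)
    (h9 : 0 < (X : ℝ) + (R : ℝ) + I)
    (h10 : 1 ≤ -(c : ℝ) + (R : ℝ))
    (h11 : 0 < (a : ℝ) + (c : ℝ) + (R : ℝ) - D)
    (h12 : 1 ≤ -(b : ℝ) - (c : ℝ) + (R : ℝ))
    (h13 : 0 < (a : ℝ) - 2 * (X : ℝ) - 2 * (R : ℝ) + D - 2 * I)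
    (h14 : 1 ≤ -(a : ℝ) - 2 * (b : ℝ) - (c : ℝ) + (p : ℝ))
    (h15 : 0 < (a : ℝ) + (c : ℝ) + (X : ℝ) + (R : ℝ) - 2 * D + I)
    (h16 : 0 < -(b : ℝ) - 2 * (X : ℝ) + D - 2 * I)
    (h17 : 1 ≤ -(b : ℝ) + (p : ℝ) - 2 * (R : ℝ))
    (h18 : 0 < -2 * (b : ℝ) + (p : ℝ) + (X : ℝ) - 2 * D + I) : False := by
  have g1 := g.a2
  have g2 := g.b2
  have g3 := g.pa
  have g4 := g.pb
  have g5 := g.J1
  have g6 := g.JD
  have g7 := g.D2
  have g8 := g.ca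
  have g9 := g.ca'
  have k1 := kz.I0
  have k2 := kz.ID
  have k3 := kz.z1
  have k4 := kz.z2
  have k5 := kz.s1
  have k6 := kz.s2
  have i1 := hu.I0
  have i2 := hu.ID
  have i3 : -(p : ℝ) + 1 ≤ 2 * Ru := by exact_mod_cast (by have := hu.R1; omega : -p + 1 ≤ 2 * Ru)
  have i4 : 2 * (Ru : ℝ) + 1 ≤ p := by exact_mod_cast (by have := hu.R2; omega : 2 * Ru + 1 ≤ p)
  have hkf : ∀ M : ℤ, ∀ kf ∈ KFs, KOk4 p l Cl 1 (xv [1, a, b, c, p, J, X, R, Ru] [D, I, Iu]) N M kf := by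
    intro M
    have hA1 : evg (xv [1, a, b, c, p, J, X, R, Ru] [D, I, Iu]) [0, 1] = a := by
      simp only [evg_cons, evg_nil, xv, List.map_cons, List.map_nil, List.cons_append, List.nil_append]
      push_cast
      ring
    have hB1 : evg (xv [1, a, b, c, p, J, X, R, Ru] [D, I, Iu]) [0, 0, 1] = b := by
      simp only [evg_cons, evg_nil, xv, List.map_cons, List.map_nil, List.cons_append, List.nil_append]
      push_cast
      ring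
    simp only [KFs, List.forall_mem_cons]
    refine ⟨kok4_u hA1 hB1 M hU ?_, kok4_no hA1 hB1 N M hN0 ?_, kok4_no hA1 hB1 N M hN1 ?_, fun _ h => absurd h (by simp)⟩
    · intro X' R' I' _ hg
      simp only [List.forall_mem_cons, List.not_mem_nil, false_imp_iff, implies_true, and_true,
        evg_cons, evg_nil, xv, List.map_cons, List.map_nil, List.cons_append, List.nil_append] at hg
      push_cast at hg
      simp only [Zx, Zp, Zs, Zsp, Zi, ZiD, Zy]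
      push_cast
      linarith
    · intro X' R' I' _ hg
      simp only [List.forall_mem_cons, List.not_mem_nil, false_imp_iff, implies_true, and_true,
        evg_cons, evg_nil, xv, List.map_cons, List.map_nil, List.cons_append, List.nil_append] at hg
      push_cast at hg
      simp only [Zx, Zp, Zs, Zsp, Zi, ZiD, Zy]
      push_cast
      refine ⟨?_, ?_⟩ <;> linarith [hg.1, hg.2]
    · intro X' R' I' _ hg
      simp only [List.forall_mem_cons, List.not_mem_nil, false_imp_iff, implies_true, and_true,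
        evg_cons, evg_nil, xv, List.map_cons, List.map_nil, List.cons_append, List.nil_append] at hg
      push_cast at hg
      simp only [Zx, Zp, Zs, Zsp, Zi, ZiD, Zy]
      push_cast
      refine ⟨?_, ?_⟩ <;> linarith [hg.1, hg.2]
  push_cast at *
  refine sound4 (val_X W.toBase hk hu (xf := [1]) (by simp) (by simp) []) W rfl (Nk := N)
    (fun kf _ _ => ⟨_, rfl⟩) (fun _ _ _ => rfl) (hkf _) ok42 ?_
  · simp only [base, List.forall_mem_cons, List.not_mem_nil, false_imp_iff, implies_true,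
      and_true, hld, xv, evg_cons, evg_nil, List.map_cons, List.map_nil, List.cons_append,
      List.nil_append, if_true, if_false, Bool.false_eq_true]
    push_cast
    refine ⟨?_, ?_, ?_, ?_, ?_, ?_, ?_, ?_, ?_, ?_, ?_, ?_, ?_, ?_, ?_, ?_, ?_, ?_, ?_, ?_, ?_, ?_, ?_, ?_, ?_, ?_, ?_, ?_, ?_, ?_, ?_, ?_, ?_, ?_, ?_, ?_, ?_⟩ <;> linarith

end Helper11.Y.Zmp1Ca_r65
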